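import Pool.Agent.Lib_MP_92ef0c_pf.D1

/-!
# MP_92ef0c_nt, PairFan: the sums over pairs of second rows with test functions
-/

set_option autoImplicit false

namespace Pool.Agent.PairFan

open Finset Pool.Agent.Spl Pool.Agent.SplB Pool.Agent.SplL Filter

/-- coprimality to `n Q` if `n` has only prime factors of `Q` -/
theorem cop_mul {n Q : ℕ} (hn : 0 < n) (hnQ : n.primeFactors ⊆ Q.primeFactors) {m : ℕ} (h : m.Coprime Q) :
    m.Coprime (n * Q) := by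
  refine Nat.Coprime.mul_right ?_ h
  by_contra hc
  obtain ⟨p, hp, h1, h2⟩ := Nat.Prime.not_coprime_iff_dvd.1 hc
  have h3 : p ∈ Q.primeFactors := hnQ (Nat.mem_primeFactors.2 ⟨hp, h2, hn.ne'⟩)
  exact Nat.not_coprime_of_dvd_of_dvd hp.one_lt h1 (Nat.dvd_of_mem_primeFactors h3) h

theorem f00_mul {n Q : ℕ} (hn : 0 < n) (hnQ : n.primeFactors ⊆ Q.primeFactors) : f00 (n * Q) = f00 Q := by
  funext m
  by_cases h0 : m = 0
  · simp [f00, h0]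
  by_cases h : m.Coprime Q
  · rw [f00_coprime h0 h, f00_coprime h0 (cop_mul hn hnQ h)]
  · rw [f00_not h, f00_not fun h1 => h (Nat.Coprime.coprime_mul_left_right h1)]

theorem mf_mul {n Q : ℕ} (hn : 0 < n) (hnQ : n.primeFactors ⊆ Q.primeFactors) (f : ℝ → ℕ → ℂ) (X : ℝ) :
    mf (n * Q) f X = mf Q f X := by
  unfold mf
  rw [f00_mul hn hnQ]

theorem fs_mul {n Q : ℕ} (hn : 0 < n) (hnQ : n.primeFactors ⊆ Q.primeFactors) {z : ℂ} {f : ℝ → ℕ → ℂ} (hf : FS Q z f) :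
    FS (n * Q) z f := by
  obtain ⟨κ, hκ, hp⟩ := hf.pr
  refine ⟨hf.mul, hf.bd, hf.one, fun Y p hp1 hd => ?_, κ, hκ, fun Y hY p hp1 hd h => ?_⟩
  · refine hf.zr Y p hp1 ?_
    rcases (Nat.Prime.dvd_mul hp1).1 hd with h | h
    · exact Nat.dvd_of_mem_primeFactors (hnQ (Nat.mem_primeFactors.2 ⟨hp1, h, hn.ne'⟩))
    · exact h
  · exact hp Y hY p hp1 (fun h1 => hd (h1.mul_left n)) h

section

variable {q Q : ℕ} {z1 z2 z3 z4 : ℂ} {f1 f2 f3 f4 : ℝ → ℕ → ℂ}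

open Classical in
theorem baseW (B : BS) (hq : 0 < q) (h0 n0 : ℕ) (hQ : HQ h0 Q n0) (hz1 : z1 ^ q = 1) (hz2 : z2 ^ q = 1) (hz3 : z3 ^ q = 1)
    (hz4 : z4 ^ q = 1) (hf1 : FS Q z1 f1) (hf2 : FS Q z2 f2) (hf3 : FS Q z3 f3) (hf4 : FS Q z4 f4) (b : ℝ)
    (W : ℝ → ℝ → ℝ → ℂ) (hW : TS b W) :
    Tendsto (fun X : ℝ => (∑ e ∈ SN h0 (b * X), (if e.b * e.c ≡ n0 [MOD Q] then
      (F4 (f1 X) (f2 X) (f3 X) (f4 X) e - mf Q f1 X * mf Q f2 X * mf Q f3 X * mf Q f4 X) / 2 else 0) *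
      W (yS e / X) (tS e) (uS e)) / X) atTop (nhds 0) := by
  have h1 := main4 B hq h0 n0 hQ hz1 hz2 hz3 hz4 hf1 hf2 hf3 hf4 b W hW 1 one_pos
  simp only [one_mul] at h1
  have h2 := h1.const_mul (1 / 2 : ℂ)
  rw [mul_zero] at h2
  refine h2.congr fun X => ?_
  rw [← mul_div_assoc]
  congr 1
  rw [mul_sum (SQ h0 Q n0 (b * X)) _ (mf Q f1 X * mf Q f2 X * mf Q f3 X * mf Q f4 X), ← sum_sub_distrib, mul_sum]
  unfold SQ
  rw [sum_filter]
  refine sum_congr rfl fun e _ => ?_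
  by_cases h : e.b * e.c ≡ n0 [MOD Q]
  · rw [if_pos h, if_pos h]
    ring
  · rw [if_neg h, if_neg h, zero_mul]

/-- the product vanishes unless the entries are coprime to `Q` -/
theorem F4_zero (hf1 : FS Q z1 f1) (hf2 : FS Q z2 f2) (hf3 : FS Q z3 f3) (hf4 : FS Q z4 f4) (X : ℝ) (e : Q4)
    (h : ¬ ((e.a.Coprime Q ∧ e.b.Coprime Q) ∧ (e.c.Coprime Q ∧ e.d.Coprime Q))) :
    F4 (f1 X) (f2 X) (f3 X) (f4 X) e = 0 := by
  unfold F4
  by_cases h1 : e.a.Coprime Q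
  · by_cases h2 : e.b.Coprime Q
    · by_cases h3 : e.c.Coprime Q
      · have h4 : ¬ e.d.Coprime Q := fun h4 => h ⟨⟨h1, h2⟩, h3, h4⟩
        rw [fs_zero hf4 X h4, mul_zero]
      · rw [fs_zero hf3 X h3, mul_zero, zero_mul]
    · rw [fs_zero hf2 X h2, mul_zero, zero_mul, zero_mul]
  · rw [fs_zero hf1 X h1, zero_mul, zero_mul, zero_mul]

open Classical in
/-- from the pairs of second rows to all matrices of determinant `n h0` -/
theorem pairA (hq : 0 < q) (h0 n0 : ℕ) (hQ : HQ h0 Q n0) (n : ℕ) (hn : 0 < n) (hQn : Q ∣ n)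
    (hz1 : z1 ^ q = 1) (hz4 : z4 ^ q = 1) (hf1 : FS Q z1 f1) (hf2 : FS Q z2 f2) (hf3 : FS Q z3 f3)
    (hf4 : FS Q z4 f4) (b : ℝ) (W : ℝ → ℝ → ℝ → ℂ) (hW : TS b W) :
    Tendsto (fun X : ℝ => (∑ e ∈ SN (n * h0) (b * X), ((if kap3 n Q n0 e then F4 (f1 X) (f2 X) (f3 X) (f4 X) e else 0) -
      ((1 / (Q * n.totient) : ℝ) : ℂ) * F4 (f1 X) (f2 X) (f3 X) (f4 X) e) * W (yS e / X) (tS e) (uS e)) / X)
      atTop (nhds 0) := by
  have : NeZero (n * Q) := ⟨(Nat.mul_pos hn hQ.posQ).ne'⟩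
  have hsub : (n * h0).primeFactors ⊆ (n * Q).primeFactors :=
    Nat.primeFactors_mono (Nat.mul_dvd_mul_left n hQ.dvd) (Nat.mul_pos hn hQ.posQ).ne'
  have hC := chr_pf Q.primeFactors f1 f2 f3 f4 z1 z2 z3 z4 (FS.ft hQ.posQ hf1) (FS.ft hQ.posQ hf2) (FS.ft hQ.posQ hf3)
    (FS.ft hQ.posQ hf4) (norm_root hq hz1) (norm_root hq hz4)
  have h1 := hC 1 one_pos (n * h0) (n * Q) (Nat.mul_pos hn hQ.pos) hsub (psk n Q n0) (psk_le n Q n0) b W hW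
  rw [avA_eq] at h1
  simp only [one_mul] at h1
  refine h1.congr fun X => ?_
  congr 1
  refine sum_congr rfl fun e he => ?_
  have hS := (mem_SN.1 he).1
  rw [← F4_R2, cz_psk n Q n0 hn hQ.posQ e]
  by_cases hc : (e.b * e.c).Coprime Q
  · rw [psk_one n Q n0 h0 hn hQ.posQ hQn e hS hc]
    split_ifs <;> ring
  · have hF : F4 (f1 X) (f2 X) (f3 X) (f4 X) e = 0 :=
      F4_zero hf1 hf2 hf3 hf4 X e fun h => hc (Nat.Coprime.mul_left h.1.2 h.2.1)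
    rw [hF]
    simp

open Classical in
/-- the sum over the unit classes -/
theorem sum_cls (h0 n Q : ℕ) (hn : 0 < n) (hQ : 0 < Q) (hnQ : n.primeFactors ⊆ Q.primeFactors) (x : ℝ) (g : Q4 → ℂ)
    (hg : ∀ e, ¬ ((e.a.Coprime Q ∧ e.b.Coprime Q) ∧ (e.c.Coprime Q ∧ e.d.Coprime Q)) → g e = 0) :
    ∑ e ∈ SN (n * h0) x, g e = ∑ m ∈ (range (n * Q)).filter (fun m => m.Coprime (n * Q) ∧ (m + n * h0).Coprime (n * Q)),
      ∑ e ∈ SQ (n * h0) (n * Q) m x, g e := by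
  have hM : 0 < n * Q := Nat.mul_pos hn hQ
  have e1 : ∀ m, ∑ e ∈ SQ (n * h0) (n * Q) m x, g e =
      ∑ e ∈ SN (n * h0) x, if e.b * e.c ≡ m [MOD n * Q] then g e else 0 := by
    intro m
    unfold SQ
    rw [sum_filter]
  rw [sum_congr rfl fun m _ => e1 m, sum_comm]
  refine sum_congr rfl fun e he => ?_
  have hS := (mem_SN.1 he).1
  by_cases hu : (e.a.Coprime Q ∧ e.b.Coprime Q) ∧ (e.c.Coprime Q ∧ e.d.Coprime Q)
  · obtain ⟨⟨u1, u2⟩, u3, u4⟩ := hu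
    have v1 : (e.b * e.c).Coprime (n * Q) := Nat.Coprime.mul_left (cop_mul hn hnQ u2) (cop_mul hn hnQ u3)
    have v2 : (e.a * e.d).Coprime (n * Q) := Nat.Coprime.mul_left (cop_mul hn hnQ u1) (cop_mul hn hnQ u4)
    have hmod : e.b * e.c ≡ e.b * e.c % (n * Q) [MOD n * Q] := (Nat.mod_modEq _ _).symm
    rw [sum_eq_single (e.b * e.c % (n * Q))]
    · rw [if_pos hmod]
    · intro m hm hne
      rw [if_neg]
      intro h
      apply hne
      have h1 := (mem_filter.1 hm).1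
      rw [mem_range] at h1
      have h2 : e.b * e.c % (n * Q) = m % (n * Q) := h
      rw [h2, Nat.mod_eq_of_lt h1]
    · intro h
      exfalso
      apply h
      rw [mem_filter, mem_range]
      refine ⟨Nat.mod_lt _ hM, ?_, ?_⟩
      · unfold Nat.Coprime
        rw [← Nat.ModEq.gcd_eq hmod]
        exact v1
      · have h2 : e.b * e.c % (n * Q) + n * h0 ≡ e.a * e.d [MOD n * Q] := by
          rw [hS.1]
          exact (Nat.mod_modEq _ _).add_right _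
        unfold Nat.Coprime
        rw [Nat.ModEq.gcd_eq h2]
        exact v2
  · rw [hg e hu]
    simp

/-- the sum over all matrices of determinant `n h0` -/
theorem pairB (B : BS) (hq : 0 < q) (h0 n0 : ℕ) (hQ : HQ h0 Q n0) (n : ℕ) (hn : 0 < n)
    (hnQ : n.primeFactors ⊆ Q.primeFactors) (hz1 : z1 ^ q = 1) (hz2 : z2 ^ q = 1) (hz3 : z3 ^ q = 1)
    (hz4 : z4 ^ q = 1) (hf1 : FS Q z1 f1) (hf2 : FS Q z2 f2) (hf3 : FS Q z3 f3) (hf4 : FS Q z4 f4) (b : ℝ)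
    (W : ℝ → ℝ → ℝ → ℂ) (hW : TS b W) :
    Tendsto (fun X : ℝ => (∑ e ∈ SN (n * h0) (b * X), (F4 (f1 X) (f2 X) (f3 X) (f4 X) e -
      mf Q f1 X * mf Q f2 X * mf Q f3 X * mf Q f4 X * F4 (f00 Q) (f00 Q) (f00 Q) (f00 Q) e) *
      W (yS e / X) (tS e) (uS e)) / X) atTop (nhds 0) := by
  classical
  have h1 : ∀ m ∈ (range (n * Q)).filter (fun m => m.Coprime (n * Q) ∧ (m + n * h0).Coprime (n * Q)),
      Tendsto (fun X : ℝ => (∑ e ∈ SQ (n * h0) (n * Q) m (b * X), (F4 (f1 X) (f2 X) (f3 X) (f4 X) e -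
        mf Q f1 X * mf Q f2 X * mf Q f3 X * mf Q f4 X * F4 (f00 Q) (f00 Q) (f00 Q) (f00 Q) e) *
        W (yS e / X) (tS e) (uS e)) / X) atTop (nhds 0) := by
    intro m hm
    obtain ⟨-, m1, m2⟩ := mem_filter.1 hm
    have hQ' : HQ (n * h0) (n * Q) m :=
      ⟨Nat.mul_pos hn hQ.pos, Nat.mul_pos hn hQ.posQ, Nat.mul_dvd_mul_left n hQ.dvd, m1, m2⟩
    have h2 := main4 B hq (n * h0) m hQ' hz1 hz2 hz3 hz4 (fs_mul hn hnQ hf1) (fs_mul hn hnQ hf2) (fs_mul hn hnQ hf3)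
      (fs_mul hn hnQ hf4) b W hW 1 one_pos
    simp only [one_mul, mf_mul hn hnQ] at h2
    refine h2.congr fun X => ?_
    congr 1
    rw [mul_sum, ← sum_sub_distrib]
    refine sum_congr rfl fun e he => ?_
    have h3 := f4_one (n * h0) m hQ' he
    rw [f00_mul hn hnQ] at h3
    rw [h3]
    ring
  have h2 := tendsto_finsetSum _ h1
  rw [sum_const_zero] at h2
  refine h2.congr fun X => ?_
  rw [← sum_div]
  congr 1
  symm
  refine sum_cls h0 n Q hn hQ.posQ hnQ (b * X) _ fun e he => ?_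
  rw [F4_zero hf1 hf2 hf3 hf4 X e he, F4_zero (fs_f00 Q) (fs_f00 Q) (fs_f00 Q) (fs_f00 Q) X e he, mul_zero, sub_zero,
    zero_mul]

open Classical in
theorem pairW (B : BS) (hq : 0 < q) (h0 n0 : ℕ) (hQ : HQ h0 Q n0) (n : ℕ) (hn : 0 < n) (hQn : Q ∣ n)
    (hnQ : n.primeFactors ⊆ Q.primeFactors) (hz1 : z1 ^ q = 1) (hz2 : z2 ^ q = 1) (hz3 : z3 ^ q = 1)
    (hz4 : z4 ^ q = 1) (hf1 : FS Q z1 f1) (hf2 : FS Q z2 f2) (hf3 : FS Q z3 f3) (hf4 : FS Q z4 f4) (b : ℝ)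
    (W : ℝ → ℝ → ℝ → ℂ) (hW : TS b W) :
    Tendsto (fun X : ℝ => (∑ e ∈ SN (n * h0) (b * X), (if kap3 n Q n0 e then
      (F4 (f1 X) (f2 X) (f3 X) (f4 X) e - mf Q f1 X * mf Q f2 X * mf Q f3 X * mf Q f4 X *
        F4 (f00 Q) (f00 Q) (f00 Q) (f00 Q) e) / 2 else 0) *
      W (yS e / X) (tS e) (uS e)) / X) atTop (nhds 0) := by
  have h1 := pairA hq h0 n0 hQ n hn hQn hz1 hz4 hf1 hf2 hf3 hf4 b W hW
  have h2 := pairA hq h0 n0 hQ n hn hQn (one_pow q) (one_pow q) (fs_f00 Q) (fs_f00 Q) (fs_f00 Q) (fs_f00 Q) b W hW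
  have h3 := pairB B hq h0 n0 hQ n hn hnQ hz1 hz2 hz3 hz4 hf1 hf2 hf3 hf4 b W hW
  have h4 := bdd_mul_zero (s := fun X => mf Q f1 X * mf Q f2 X * mf Q f3 X * mf Q f4 X) (C := 1)
    (fun X => by
      rw [norm_mul, norm_mul, norm_mul]
      exact mul_le_one₀ (mul_le_one₀ (mul_le_one₀ (mf_le_one hf1 _) (norm_nonneg _) (mf_le_one hf2 _)) (norm_nonneg _)
        (mf_le_one hf3 _)) (norm_nonneg _) (mf_le_one hf4 _)) h2
  have h5 := ((h1.sub h4).add (h3.const_mul ((1 / (Q * n.totient) : ℝ) : ℂ))).const_mul (1 / 2 : ℂ)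
  rw [mul_zero, add_zero, sub_zero, mul_zero] at h5
  refine h5.congr fun X => ?_
  rw [← mul_div_assoc, ← mul_div_assoc, ← sub_div, ← add_div, ← mul_div_assoc, mul_sum, mul_sum, ← sum_sub_distrib,
    ← sum_add_distrib, mul_sum]
  congr 1
  refine sum_congr rfl fun e _ => ?_
  split_ifs <;> ring

end

end Pool.Agent.PairFan
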