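import Pool.Agent.Lib_MP_92ef0c_pf.D1

/-!
# MP_92ef0c_nt, PairFan: the bijections
-/

set_option autoImplicit false

namespace Pool.Agent.PairFan

open Finset Pool.Agent.Spl Pool.Agent.SplB Pool.Agent.SplL Filter

open Classical in
theorem sum_base {h0 Q n0 : ℕ} (i : ℕ) {δ : ℝ} (hδ : 0 < δ) {X : ℝ} (hX : 0 < X) {R : ℝ}
    (hR : 4 * (i + 1) * Q ≤ R ^ 2) (Ψ : Q4 → ℂ) :
    ∑ e ∈ bs h0 Q n0 i X, ((wE Q i δ X e : ℝ) : ℂ) * Ψ e =
      ∑ e ∈ SN h0 (R ^ 2 * X), (if e.b * e.c ≡ n0 [MOD Q] then Ψ e else 0) *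
        ((wt Q i δ (e.a / Real.sqrt X) (e.b / Real.sqrt X) (e.c / Real.sqrt X) : ℝ) : ℂ) := by
  have h1 : ∑ e ∈ SN h0 (R ^ 2 * X), (if e.b * e.c ≡ n0 [MOD Q] then Ψ e else 0) *
        ((wt Q i δ (e.a / Real.sqrt X) (e.b / Real.sqrt X) (e.c / Real.sqrt X) : ℝ) : ℂ) =
      ∑ e ∈ (SN h0 (R ^ 2 * X)).filter (fun e => e.b * e.c ≡ n0 [MOD Q]), ((wE Q i δ X e : ℝ) : ℂ) * Ψ e := by
    rw [sum_filter]
    refine sum_congr rfl fun e _ => ?_
    unfold wE
    split_ifs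
    · ring
    · rw [zero_mul]
  rw [h1]
  refine sum_subset (fun e he => ?_) (fun e he hn => ?_)
  · unfold bs at he
    rw [mem_filter, mem_SQ] at he
    obtain ⟨⟨⟨h2, h3⟩, h4⟩, -⟩ := he
    rw [mem_filter, mem_SN]
    exact ⟨⟨h2, h3.trans (mul_le_mul_of_nonneg_right hR hX.le)⟩, h4⟩
  · by_cases h2 : wE Q i δ X e = 0
    · rw [h2, Complex.ofReal_zero, zero_mul]
    · exfalso
      rw [mem_filter, mem_SN] at he
      exact hn ((mem_bs hX.le).2 ⟨⟨he.1.1, he.2⟩, wE_lv hδ hX h2⟩)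

/-- support, the first row and one second row -/
theorem supp_base (Q i : ℕ) {δ : ℝ} (hδ : 0 < δ) {R : ℝ} (hR : 4 * (i + 1) * Q + 2 + 2 / δ ≤ R) (x1 x2 x3 x4 : ℝ)
    (h4 : 0 < x4) (hl : x2 * x3 ≤ x1 * x4) (hu : x1 * x4 ≤ x2 * x3 + 1)
    (h : wt Q i δ x1 x2 x3 ≠ 0) :
    (x1 ≤ R ∧ x2 ≤ R ∧ x3 ≤ R ∧ x4 ≤ R) ∧ (1 ≤ R * x1 ∧ 1 ≤ R * x2 ∧ 1 ≤ R * x3 ∧ 1 ≤ R * x4) := by
  obtain ⟨⟨a1, a2⟩, ⟨a3, a4⟩, a5, a6⟩ := wt_ne hδ h
  have hQ0 : (0 : ℝ) ≤ Q := Nat.cast_nonneg Q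
  have hi0 : (0 : ℝ) ≤ i := Nat.cast_nonneg i
  have b0 : (0 : ℝ) ≤ 4 * (i + 1) * Q := by positivity
  have d0 : 0 < 2 / δ := by positivity
  have d1 : 2 / δ * δ = 2 := by field_simp
  have hRd : 2 / δ ≤ R := by linarith
  have hR2 : 2 ≤ R := by linarith
  have x1a : 1 < x1 := by linarith
  have x1b : x1 < 2 := by linarith
  have x2a : 1 < x2 := by linarith
  have x2b : x2 < 2 := by linarith
  have x3a : δ < x3 := by
    have : 0 ≤ (i : ℝ) * (Q * x1) := by positivity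
    linarith
  have x3b : x3 ≤ 2 * (i + 1) * Q := by
    have : ((i : ℝ) + 1) * (Q * x1) ≤ (i + 1) * (Q * 2) := by gcongr
    linarith
  have x23 : x2 * x3 ≤ 4 * (i + 1) * Q := by
    have : x2 * x3 ≤ 2 * (2 * (i + 1) * Q) := mul_le_mul x2b.le x3b (by linarith) (by norm_num)
    linarith
  have x4b : x4 ≤ R := by
    have : 1 * x4 ≤ x1 * x4 := mul_le_mul_of_nonneg_right x1a.le h4.le
    linarith
  have x4a : δ / 2 ≤ x4 := by
    have e1 : 1 * δ ≤ x2 * x3 := mul_le_mul x2a.le x3a.le hδ.le (by linarith)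
    have e2 : x1 * x4 ≤ 2 * x4 := mul_le_mul_of_nonneg_right x1b.le h4.le
    linarith
  refine ⟨⟨by linarith, by linarith, by linarith, x4b⟩, ?_, ?_, ?_, ?_⟩
  · nlinarith
  · nlinarith
  · have : 2 / δ * δ ≤ R * x3 := mul_le_mul hRd x3a.le hδ.le (by linarith)
    linarith
  · have : 2 / δ * (δ / 2) ≤ R * x4 := mul_le_mul hRd x4a (by positivity) (by linarith)
    have e1 : 2 / δ * (δ / 2) = 1 := by field_simp
    linarith

/-- support, two second rows with difference `m` times the first row -/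
theorem supp_shift (Q i m : ℕ) (hm : 0 < m) {δ : ℝ} (hδ : 0 < δ) {R : ℝ}
    (hR : 4 * (i + 1) * Q + 2 * m + 2 + 2 / δ ≤ R) (x1 x2 x3 x4 : ℝ)
    (h4 : 0 < x4) (hl : x2 * x3 ≤ x1 * x4) (hu : x1 * x4 ≤ x2 * x3 + 1)
    (h : wt Q i δ ((x1 - x3) / m) ((x2 - x4) / m) x3 ≠ 0) :
    (x1 ≤ R ∧ x2 ≤ R ∧ x3 ≤ R ∧ x4 ≤ R) ∧ (1 ≤ R * x1 ∧ 1 ≤ R * x2 ∧ 1 ≤ R * x3 ∧ 1 ≤ R * x4) := by
  obtain ⟨⟨a1, a2⟩, ⟨a3, a4⟩, a5, a6⟩ := wt_ne hδ h
  obtain ⟨α, hα⟩ : ∃ α, α = (x1 - x3) / m := ⟨_, rfl⟩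
  obtain ⟨β, hβ⟩ : ∃ β, β = (x2 - x4) / m := ⟨_, rfl⟩
  rw [← hα] at a1 a2 a5 a6
  rw [← hβ] at a3 a4
  have hm1 : (1 : ℝ) ≤ m := by exact_mod_cast hm
  have hm0 : (0 : ℝ) < m := by linarith
  have e1 : x1 = x3 + m * α := by
    rw [hα]
    field_simp
    ring
  have e2 : x2 = x4 + m * β := by
    rw [hβ]
    field_simp
    ring
  have hQ0 : (0 : ℝ) ≤ Q := Nat.cast_nonneg Q
  have hi0 : (0 : ℝ) ≤ i := Nat.cast_nonneg i
  have b0 : (0 : ℝ) ≤ 4 * (i + 1) * Q := by positivity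
  have d0 : 0 < 2 / δ := by positivity
  have hRd : 2 / δ ≤ R := by linarith
  have hR2 : 2 ≤ R := by linarith
  have αa : 1 < α := by linarith
  have αb : α < 2 := by linarith
  have βa : 1 < β := by linarith
  have βb : β < 2 := by linarith
  have x3a : δ < x3 := by
    have : 0 ≤ (i : ℝ) * (Q * α) := by positivity
    linarith
  have x3b : x3 ≤ 2 * (i + 1) * Q := by
    have : ((i : ℝ) + 1) * (Q * α) ≤ (i + 1) * (Q * 2) := by gcongr
    linarith
  have mα : (m : ℝ) * 1 ≤ m * α := mul_le_mul_of_nonneg_left αa.le hm0.le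
  have mα2 : (m : ℝ) * α ≤ m * 2 := mul_le_mul_of_nonneg_left αb.le hm0.le
  have mβ : (m : ℝ) * 1 ≤ m * β := mul_le_mul_of_nonneg_left βa.le hm0.le
  have mβ2 : (m : ℝ) * β ≤ m * 2 := mul_le_mul_of_nonneg_left βb.le hm0.le
  -- the determinant
  have hl' : m * (β * x3) ≤ m * (α * x4) := by
    rw [e1, e2] at hl
    linarith
  have hu' : m * (α * x4) ≤ m * (β * x3) + 1 := by
    rw [e1, e2] at hu
    linarith
  have hl2 : β * x3 ≤ α * x4 := le_of_mul_le_mul_left hl' hm0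
  have hu2 : α * x4 ≤ β * x3 + 1 := by
    have : m * (α * x4) ≤ m * (β * x3 + 1) := by
      have : (m : ℝ) * (β * x3 + 1) = m * (β * x3) + m := by ring
      linarith
    exact le_of_mul_le_mul_left this hm0
  have x4b : x4 ≤ 4 * (i + 1) * Q + 1 := by
    have e3 : 1 * x4 ≤ α * x4 := mul_le_mul_of_nonneg_right αa.le h4.le
    have e4 : β * x3 ≤ 2 * (2 * (i + 1) * Q) := mul_le_mul βb.le x3b (by linarith) (by norm_num)
    linarith
  have x4a : δ / 2 ≤ x4 := by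
    have e3 : 1 * δ ≤ β * x3 := mul_le_mul βa.le x3a.le hδ.le (by linarith)
    have e4 : α * x4 ≤ 2 * x4 := mul_le_mul_of_nonneg_right αb.le h4.le
    linarith
  have x1a : 1 ≤ x1 := by linarith
  have x2a : 1 ≤ x2 := by linarith
  refine ⟨⟨by linarith, by linarith, by linarith, by linarith⟩, ?_, ?_, ?_, ?_⟩
  · nlinarith
  · nlinarith
  · have : 2 / δ * δ ≤ R * x3 := mul_le_mul hRd x3a.le hδ.le (by linarith)
    have d1 : 2 / δ * δ = 2 := by field_simp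
    linarith
  · have : 2 / δ * (δ / 2) ≤ R * x4 := mul_le_mul hRd x4a (by positivity) (by linarith)
    have e1 : 2 / δ * (δ / 2) = 1 := by field_simp
    linarith

/-- the pair of second rows -/
theorem sh_mem {h0 Q n0 m : ℕ} (hQ : HQ h0 Q n0) (hm : 0 < m) (hQm : Q ∣ m) {e : Q4} (h1 : Sn h0 e)
    (h2 : e.b * e.c ≡ n0 [MOD Q]) : Sn (m * h0) (sh m e) ∧ kap3 m Q n0 (sh m e) := by
  obtain ⟨-, cc, -⟩ := bs_cop hQ h1 h2
  obtain ⟨h3, ha, hb, hc, hd, hab, hcd⟩ := h1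
  refine ⟨⟨?_, ?_, ?_, hc, hd, ?_, hcd⟩, hQm, ⟨?_, ?_⟩, ?_⟩
  · show (e.c + m * e.a) * e.d = (e.d + m * e.b) * e.c + m * h0
    calc (e.c + m * e.a) * e.d = e.c * e.d + m * (e.a * e.d) := by ring
      _ = e.c * e.d + m * (e.b * e.c + h0) := by rw [h3]
      _ = _ := by ring
  · show 0 < e.c + m * e.a
    omega
  · show 0 < e.d + m * e.b
    omega
  · show (e.c + m * e.a).Coprime (e.d + m * e.b)
    obtain ⟨g, hg⟩ : ∃ g, g = (e.c + m * e.a).gcd (e.d + m * e.b) := ⟨_, rfl⟩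
    have g1 : g ∣ e.c + m * e.a := hg ▸ Nat.gcd_dvd_left _ _
    have g2 : g ∣ e.d + m * e.b := hg ▸ Nat.gcd_dvd_right _ _
    have g3 : g ∣ h0 := by
      have k1 : g ∣ e.a * (e.d + m * e.b) := g2.mul_left _
      have k2 : g ∣ e.b * (e.c + m * e.a) := g1.mul_left _
      have k3 : e.a * (e.d + m * e.b) = e.b * (e.c + m * e.a) + h0 := by
        calc e.a * (e.d + m * e.b) = e.a * e.d + m * e.a * e.b := by ring
          _ = e.b * e.c + h0 + m * e.a * e.b := by rw [h3]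
          _ = _ := by ring
      rw [k3] at k1
      exact (Nat.dvd_add_right k2).1 k1
    have g4 : g ∣ Q := g3.trans hQ.dvd
    have g5 : g ∣ e.c := by
      have k1 : g ∣ m * e.a := (g4.trans hQm).mul_right _
      exact (Nat.dvd_add_left k1).1 g1
    have g6 : g ∣ 1 := by
      have := Nat.dvd_gcd g5 g4
      rwa [cc] at this
    unfold Nat.Coprime
    rw [← hg]
    exact Nat.dvd_one.1 g6
  · show e.c + m * e.a ≡ e.c [MOD m]
    have : e.c + m * e.a ≡ e.c + 0 [MOD m] :=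
      Nat.ModEq.add_left _ ((Nat.modEq_zero_iff_dvd).2 (Dvd.intro _ rfl))
    simpa using this
  · show e.d + m * e.b ≡ e.d [MOD m]
    have : e.d + m * e.b ≡ e.d + 0 [MOD m] :=
      Nat.ModEq.add_left _ ((Nat.modEq_zero_iff_dvd).2 (Dvd.intro _ rfl))
    simpa using this
  · show (e.d + m * e.b) * e.c ≡ e.d * e.c + m * n0 [MOD m * Q]
    have k1 : (e.d + m * e.b) * e.c = e.d * e.c + m * (e.b * e.c) := by ring
    rw [k1]
    exact Nat.ModEq.add_left _ (Nat.ModEq.mul_left' m h2)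

/-- the first row from the pair of second rows -/
theorem sh_inv {h0 Q n0 m : ℕ} (hQ : HQ h0 Q n0) (hm : 0 < m) {e : Q4} (h1 : Sn (m * h0) e) (h2 : kap3 m Q n0 e)
    (h3 : e.c < e.a) (h4 : e.d < e.b) :
    ∃ f : Q4, sh m f = e ∧ Sn h0 f ∧ f.b * f.c ≡ n0 [MOD Q] := by
  obtain ⟨hdet, ha, hb, hc, hd, hab, hcd⟩ := h1
  obtain ⟨-, ⟨k1, k2⟩, k3⟩ := h2
  obtain ⟨a, ea⟩ : m ∣ e.a - e.c := (Nat.modEq_iff_dvd' h3.le).1 k1.symm
  obtain ⟨b, eb⟩ : m ∣ e.b - e.d := (Nat.modEq_iff_dvd' h4.le).1 k2.symm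
  have ea' : e.a = e.c + m * a := by omega
  have eb' : e.b = e.d + m * b := by omega
  have a0 : 0 < a := by
    rcases Nat.eq_zero_or_pos a with h | h
    · rw [h, mul_zero] at ea'
      omega
    · exact h
  have b0 : 0 < b := by
    rcases Nat.eq_zero_or_pos b with h | h
    · rw [h, mul_zero] at eb'
      omega
    · exact h
  have hdet2 : a * e.d = b * e.c + h0 := by
    have h5 : m * (a * e.d) = m * (b * e.c + h0) := by
      have h6 : (e.c + m * a) * e.d = (e.d + m * b) * e.c + m * h0 := by rw [← ea', ← eb']; exact hdet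
      have h7 : e.c * e.d + m * (a * e.d) = e.c * e.d + m * (b * e.c + h0) := by
        calc e.c * e.d + m * (a * e.d) = (e.c + m * a) * e.d := by ring
          _ = (e.d + m * b) * e.c + m * h0 := h6
          _ = _ := by ring
      exact Nat.add_left_cancel h7
    exact Nat.eq_of_mul_eq_mul_left hm h5
  have hcls : b * e.c ≡ n0 [MOD Q] := by
    have h5 : e.d * e.c + m * (b * e.c) ≡ e.d * e.c + m * n0 [MOD m * Q] := by
      have h6 : e.d * e.c + m * (b * e.c) = e.b * e.c := by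
        rw [eb']
        ring
      rw [h6]
      exact k3
    exact Nat.ModEq.mul_left_cancel' hm.ne' (Nat.ModEq.add_left_cancel' _ h5)
  have hbQ : b.Coprime Q := by
    have h5 : (b * e.c).gcd Q = n0.gcd Q := Nat.ModEq.gcd_eq hcls
    have h6 : (b * e.c).Coprime Q := by
      unfold Nat.Coprime
      rw [h5]
      exact hQ.cop
    exact Nat.Coprime.coprime_mul_right h6
  have hcop : a.Coprime b := by
    obtain ⟨g, hg⟩ : ∃ g, g = a.gcd b := ⟨_, rfl⟩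
    have g1 : g ∣ a := hg ▸ Nat.gcd_dvd_left _ _
    have g2 : g ∣ b := hg ▸ Nat.gcd_dvd_right _ _
    have g3 : g ∣ h0 := by
      have k4 : g ∣ b * e.c + h0 := by
        rw [← hdet2]
        exact g1.mul_right _
      exact (Nat.dvd_add_right (g2.mul_right _)).1 k4
    have g6 : g ∣ 1 := by
      have := Nat.dvd_gcd g2 (g3.trans hQ.dvd)
      rwa [hbQ] at this
    unfold Nat.Coprime
    rw [← hg]
    exact Nat.dvd_one.1 g6
  refine ⟨⟨a, b, e.c, e.d⟩, ?_, ⟨hdet2, a0, b0, hc, hd, hcop, hcd⟩, hcls⟩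
  unfold sh
  simp only
  rw [← ea', ← eb']

theorem sh_arg (m : ℕ) (hm : 0 < m) (a c : ℕ) (s : ℝ) : (((c + m * a : ℕ) : ℝ) / s - c / s) / m = a / s := by
  have : (m : ℝ) ≠ 0 := by exact_mod_cast hm.ne'
  rcases eq_or_ne s 0 with h | h
  · simp [h]
  · push_cast
    field_simp
    ring

open Classical in
theorem sum_shift {h0 Q n0 : ℕ} (hQ : HQ h0 Q n0) (i m : ℕ) (hm : 0 < m) (hQm : Q ∣ m) {δ : ℝ} (hδ : 0 < δ) {X : ℝ}
    (hX : 0 < X) {R : ℝ} (hR : 4 * (i + 1) * Q + 2 * m + 2 + 2 / δ ≤ R) (hXm : (m * h0 : ℕ) ≤ X) (Ψ : Q4 → ℂ) :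
    ∑ e ∈ bs h0 Q n0 i X, ((wE Q i δ X e : ℝ) : ℂ) * Ψ (sh m e) =
      ∑ e ∈ SN (m * h0) (R ^ 2 * X), (if kap3 m Q n0 e then Ψ e else 0) *
        ((wt Q i δ ((e.a / Real.sqrt X - e.c / Real.sqrt X) / m) ((e.b / Real.sqrt X - e.d / Real.sqrt X) / m)
          (e.c / Real.sqrt X) : ℝ) : ℂ) := by
  have hs : 0 < Real.sqrt X := Real.sqrt_pos.2 hX
  have hss : Real.sqrt X * Real.sqrt X = X := Real.mul_self_sqrt hX.le
  have hw : ∀ f : Q4, wt Q i δ (((sh m f).a / Real.sqrt X - (sh m f).c / Real.sqrt X) / m)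
      (((sh m f).b / Real.sqrt X - (sh m f).d / Real.sqrt X) / m) ((sh m f).c / Real.sqrt X) = wE Q i δ X f := by
    intro f
    unfold sh wE
    simp only
    rw [sh_arg m hm, sh_arg m hm]
  refine sum_bij_ne_zero (fun e _ _ => sh m e) ?_ ?_ ?_ ?_
  · intro e he h
    have h1 : wE Q i δ X e ≠ 0 := by
      intro h2
      rw [h2, Complex.ofReal_zero, zero_mul] at h
      exact h rfl
    obtain ⟨⟨hS, hc⟩, -⟩ := (mem_bs hX.le).1 he
    obtain ⟨g1, -⟩ := sh_mem hQ hm hQm hS hc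
    rw [mem_SN]
    refine ⟨g1, ?_⟩
    rw [← hw e] at h1
    obtain ⟨d1, d2, d3, d4, d5, -, -⟩ := g1
    have d1' : ((sh m e).a : ℝ) * (sh m e).d = (sh m e).b * (sh m e).c + (m * h0 : ℕ) := by exact_mod_cast d1
    have p5 : (0 : ℝ) < (sh m e).d := by exact_mod_cast d5
    have q1 : ((sh m e).b : ℝ) / Real.sqrt X * ((sh m e).c / Real.sqrt X) = (sh m e).b * (sh m e).c / X := by
      rw [div_mul_div_comm, hss]
    have q2 : ((sh m e).a : ℝ) / Real.sqrt X * ((sh m e).d / Real.sqrt X) = (sh m e).a * (sh m e).d / X := by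
      rw [div_mul_div_comm, hss]
    have hh : (0 : ℝ) ≤ (m * h0 : ℕ) := Nat.cast_nonneg _
    have s1 := supp_shift Q i m hm hδ hR _ _ _ _ (div_pos p5 hs) (by
      rw [q1, q2, d1']
      gcongr
      linarith) (by
      rw [q1, q2, d1', add_div]
      have : ((m * h0 : ℕ) : ℝ) / X ≤ 1 := (div_le_one hX).2 hXm
      linarith) h1
    obtain ⟨⟨-, r2, r3, -⟩, -⟩ := s1
    have p3 : (0 : ℝ) ≤ ((sh m e).c : ℝ) / Real.sqrt X := by positivity
    have p2 : (0 : ℝ) ≤ ((sh m e).b : ℝ) / Real.sqrt X := by positivity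
    have r4 : ((sh m e).b : ℝ) / Real.sqrt X * ((sh m e).c / Real.sqrt X) ≤ R * R :=
      mul_le_mul r2 r3 p3 (p2.trans r2)
    rw [q1, div_le_iff₀ hX] at r4
    unfold yS
    calc _ ≤ R * R * X := r4
      _ = R ^ 2 * X := by ring
  · intro e he h e' he' h' heq
    have h1 := congrArg Q4.a heq
    have h2 := congrArg Q4.b heq
    have h3 := congrArg Q4.c heq
    have h4 := congrArg Q4.d heq
    unfold sh at h1 h2 h3 h4
    simp only at h1 h2 h3 h4
    rw [h3] at h1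
    rw [h4] at h2
    have h5 : e.a = e'.a := Nat.eq_of_mul_eq_mul_left hm (Nat.add_left_cancel h1)
    have h6 : e.b = e'.b := Nat.eq_of_mul_eq_mul_left hm (Nat.add_left_cancel h2)
    cases e
    cases e'
    simp only at h3 h4 h5 h6
    subst h3 h4 h5 h6
    rfl
  · intro e he h
    have hk : kap3 m Q n0 e := by
      by_contra hk
      rw [if_neg hk, zero_mul] at h
      exact h rfl
    rw [if_pos hk] at h
    have h1 : wt Q i δ ((e.a / Real.sqrt X - e.c / Real.sqrt X) / m) ((e.b / Real.sqrt X - e.d / Real.sqrt X) / m)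
          (e.c / Real.sqrt X) ≠ 0 := by
      intro h2
      rw [h2, Complex.ofReal_zero, mul_zero] at h
      exact h rfl
    obtain ⟨⟨a1, -⟩, ⟨a3, -⟩, -, -⟩ := wt_ne hδ h1
    have hm0 : (0 : ℝ) < m := by exact_mod_cast hm
    have c1 : e.c < e.a := by
      have : 0 < ((e.a : ℝ) / Real.sqrt X - e.c / Real.sqrt X) / m := by linarith
      rw [← sub_div] at this
      have h5 : 0 < ((e.a : ℝ) - e.c) / Real.sqrt X := by
        by_contra h6
        have := div_nonpos_of_nonpos_of_nonneg (not_lt.1 h6) hm0.le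
        linarith
      have h6 : 0 < (e.a : ℝ) - e.c := by
        by_contra h7
        have := div_nonpos_of_nonpos_of_nonneg (not_lt.1 h7) hs.le
        linarith
      have h7 : (e.c : ℝ) < e.a := by linarith
      exact_mod_cast h7
    have c2 : e.d < e.b := by
      have : 0 < ((e.b : ℝ) / Real.sqrt X - e.d / Real.sqrt X) / m := by linarith
      rw [← sub_div] at this
      have h5 : 0 < ((e.b : ℝ) - e.d) / Real.sqrt X := by
        by_contra h6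
        have := div_nonpos_of_nonpos_of_nonneg (not_lt.1 h6) hm0.le
        linarith
      have h6 : 0 < (e.b : ℝ) - e.d := by
        by_contra h7
        have := div_nonpos_of_nonpos_of_nonneg (not_lt.1 h7) hs.le
        linarith
      have h7 : (e.d : ℝ) < e.b := by linarith
      exact_mod_cast h7
    obtain ⟨f, rfl, f2, f3⟩ := sh_inv hQ hm (mem_SN.1 he).1 hk c1 c2
    rw [hw f] at h1 h
    refine ⟨f, (mem_bs hX.le).2 ⟨⟨f2, f3⟩, wE_lv hδ hX h1⟩, ?_, rfl⟩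
    rw [mul_comm]
    exact h
  · intro e he h
    obtain ⟨⟨hS, hc⟩, -⟩ := (mem_bs hX.le).1 he
    rw [if_pos (sh_mem hQ hm hQm hS hc).2, hw e, mul_comm]

end Pool.Agent.PairFan
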