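import Mathlib

/-!
# MP_92ef0c_nt, PairFan: the number of pairs of moduli
-/

set_option autoImplicit false

namespace Pool.Agent.PairFan

open Filter Finset

/-- the coprime pairs `(a, b)`, `Y < a, b ≤ 2 Y`, coprime to `Q` -/
def adm (Q : ℕ) (Y : ℝ) : Set (ℕ × ℕ) :=
  {V | (Y < V.1 ∧ (V.1 : ℝ) ≤ 2 * Y) ∧ (Y < V.2 ∧ (V.2 : ℝ) ≤ 2 * Y) ∧ V.1.Coprime V.2 ∧ (V.1 * V.2).Coprime Q}

theorem adm_finite (Q : ℕ) (Y : ℝ) : (adm Q Y).Finite := by
  refine ((range (⌊2 * Y⌋₊ + 1) ×ˢ range (⌊2 * Y⌋₊ + 1) : Finset (ℕ × ℕ)).finite_toSet).subset ?_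
  rintro V ⟨⟨-, h1⟩, ⟨-, h2⟩, -⟩
  rw [mem_coe, mem_product, mem_range, mem_range]
  exact ⟨Nat.lt_succ_of_le (Nat.le_floor h1), Nat.lt_succ_of_le (Nat.le_floor h2)⟩

/-- numbers of one class in an interval -/
private theorem cls_card (A B g : ℕ) (hg : 0 < g) (hAB : A ≤ B) (S : Finset ℕ) (hS : S ⊆ Ioc A B)
    (hc : ∀ x ∈ S, ∀ y ∈ S, x ≡ y [MOD g]) : (S.card : ℝ) ≤ ((B : ℝ) - A) / g + 1 := by
  have hg0 : (0 : ℝ) < g := by exact_mod_cast hg
  have hAB' : (A : ℝ) ≤ B := by exact_mod_cast hAB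
  rcases S.eq_empty_or_nonempty with h | ⟨v, hv⟩
  · rw [h, card_empty, Nat.cast_zero]
    have : 0 ≤ ((B : ℝ) - A) / g := div_nonneg (by linarith) hg0.le
    linarith
  · have h1 : S ⊆ (Ioc A B).filter (fun x => x ≡ v [MOD g]) := by
      intro x hx
      rw [mem_filter]
      exact ⟨hS hx, hc x hx v hv⟩
    have h2 := Nat.Ioc_filter_modEq_card A B hg v
    have h3 : ((((Ioc A B).filter (fun x => x ≡ v [MOD g])).card : ℤ) : ℚ) ≤ ((B : ℚ) - A) / g + 1 := by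
      rw [h2]
      have hg1 : (0 : ℚ) < g := by exact_mod_cast hg
      have hAB'' : (A : ℚ) ≤ B := by exact_mod_cast hAB
      push_cast
      refine max_le ?_ ?_
      · have e1 := Int.floor_le (((B : ℚ) - v) / g)
        have e2 := Int.lt_floor_add_one (((A : ℚ) - v) / g)
        have e3 : ((B : ℚ) - A) / g = ((B : ℚ) - v) / g - ((A : ℚ) - v) / g := by
          rw [← sub_div]
          congr 1
          ring
        rw [e3]
        linarith
      · have : 0 ≤ ((B : ℚ) - A) / g := div_nonneg (by linarith) hg1.le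
        linarith
    have h4 : (((Ioc A B).filter (fun x => x ≡ v [MOD g])).card : ℝ) ≤ ((B : ℝ) - A) / g + 1 := by
      have h5 := (Rat.cast_le (K := ℝ)).2 h3
      push_cast at h5
      exact h5
    refine le_trans ?_ h4
    exact_mod_cast card_le_card h1

private theorem sum_sq (G : ℕ) : ∑ g ∈ Icc 2 G, 1 / (g : ℝ) ^ 2 ≤ 3 / 4 := by
  have key : ∀ m : ℕ, ∑ g ∈ Icc 2 (m + 2), 1 / (g : ℝ) ^ 2 ≤ 3 / 4 - 1 / ((m : ℝ) + 2) := by
    intro m
    induction m with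
    | zero =>
      rw [zero_add, Icc_self, sum_singleton]
      norm_num
    | succ m ih =>
      rw [show m + 1 + 2 = (m + 2) + 1 by ring, sum_Icc_succ_top (by omega)]
      have h1 : (0 : ℝ) < (m : ℝ) + 2 := by positivity
      have h2 : (0 : ℝ) < (m : ℝ) + 3 := by positivity
      have h3 : 1 / (((m + 2 + 1 : ℕ) : ℝ)) ^ 2 ≤ 1 / ((m : ℝ) + 2) - 1 / ((m : ℝ) + 3) := by
        rw [div_sub_div _ _ h1.ne' h2.ne', div_le_div_iff₀ (by positivity) (by positivity)]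
        push_cast
        nlinarith
      push_cast at h3 ⊢
      have h4 : (m : ℝ) + 1 + 2 = (m : ℝ) + 3 := by ring
      rw [h4]
      linarith
  rcases Nat.lt_or_ge G 2 with h | h
  · rw [Icc_eq_empty (by omega), sum_empty]
    norm_num
  · obtain ⟨m, rfl⟩ : ∃ m, G = m + 2 := ⟨G - 2, by omega⟩
    have h1 := key m
    have h2 : 0 ≤ 1 / ((m : ℝ) + 2) := by positivity
    linarith

theorem adm_low (Q : ℕ) (hQ : 0 < Q) : ∃ κ : ℝ, 0 < κ ∧ ∀ᶠ Y : ℝ in atTop, κ * Y ^ 2 ≤ ((adm Q Y).ncard : ℝ) := by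
  classical
  have hQ0 : (0 : ℝ) < Q := by exact_mod_cast hQ
  have hQ1 : (1 : ℝ) ≤ Q := by exact_mod_cast hQ
  refine ⟨1 / (64 * (Q : ℝ) ^ 2), by positivity, ?_⟩
  filter_upwards [eventually_ge_atTop (896 * (Q : ℝ) ^ 2)] with Y hY
  have hY2 : 896 * (Q : ℝ) ≤ Y := by nlinarith
  have hY1 : (896 : ℝ) ≤ Y := by linarith
  obtain ⟨A, hA⟩ : ∃ A : ℕ, A = ⌊(Y - 1) / Q⌋₊ := ⟨_, rfl⟩
  obtain ⟨B, hB⟩ : ∃ B : ℕ, B = ⌊(2 * Y - 1) / Q⌋₊ := ⟨_, rfl⟩
  have a1 : (A : ℝ) ≤ (Y - 1) / Q := by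
    rw [hA]
    exact Nat.floor_le (div_nonneg (by linarith) hQ0.le)
  have b1 : (2 * Y - 1) / Q < B + 1 := by
    rw [hB]
    exact Nat.lt_floor_add_one _
  set L : ℝ := (B : ℝ) - A with hL
  have hL1 : Y / Q - 1 ≤ L := by
    have : (2 * Y - 1) / Q - (Y - 1) / Q = Y / Q := by
      rw [← sub_div]
      congr 1
      ring
    rw [hL]
    linarith
  have hYQ : (2 : ℝ) ≤ Y / Q := by
    rw [le_div_iff₀ hQ0]
    linarith
  have hL2 : Y / (2 * Q) ≤ L := by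
    have : Y / (2 * Q) = Y / Q / 2 := by
      rw [div_div, mul_comm]
    linarith
  have hL0 : 0 ≤ L := by
    have : 0 ≤ Y / (2 * Q) := div_nonneg (by linarith) (by linarith)
    linarith
  have hAB : A ≤ B := by
    have : (A : ℝ) ≤ B := by linarith
    exact_mod_cast this
  set J := Ioc A B with hJ
  have hJc : (J.card : ℝ) = L := by
    rw [hJ, Nat.card_Ioc, Nat.cast_sub hAB]
  have hmem : ∀ j ∈ J, Y < ((1 + Q * j : ℕ) : ℝ) ∧ ((1 + Q * j : ℕ) : ℝ) ≤ 2 * Y := by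
    intro j hj
    rw [hJ, mem_Ioc] at hj
    have e1 : (Y - 1) / Q < j := by
      apply Nat.lt_of_floor_lt
      rw [← hA]
      exact hj.1
    have e2 : (j : ℝ) ≤ (2 * Y - 1) / Q := by
      have h1 : (j : ℝ) ≤ B := by exact_mod_cast hj.2
      refine h1.trans ?_
      rw [hB]
      exact Nat.floor_le (div_nonneg (by linarith) hQ0.le)
    rw [div_lt_iff₀ hQ0] at e1
    rw [le_div_iff₀ hQ0] at e2
    push_cast
    constructor <;> nlinarith
  have hcq : ∀ j : ℕ, (1 + Q * j).Coprime Q := by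
    intro j
    rw [Nat.coprime_add_mul_left_left]
    exact Nat.coprime_one_left Q
  set G : ℕ := ⌊2 * Y⌋₊ with hG
  have hG1 : (G : ℝ) ≤ 2 * Y := Nat.floor_le (by linarith)
  set F : ℕ → Finset ℕ := fun g => J.filter (fun j => g ∣ 1 + Q * j) with hF
  have hFc : ∀ g ∈ Icc 2 G, ((F g).card : ℝ) ≤ L / g + 1 := by
    intro g hg
    rw [mem_Icc] at hg
    refine cls_card A B g (by omega) hAB _ (filter_subset _ _) ?_
    intro x hx y hy
    rw [hF] at hx hy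
    simp only [mem_filter] at hx hy
    have e1 : g.Coprime Q := Nat.Coprime.coprime_dvd_left hx.2 (hcq x)
    have e2 : 1 + Q * x ≡ 1 + Q * y [MOD g] :=
      ((Nat.modEq_zero_iff_dvd).2 hx.2).trans ((Nat.modEq_zero_iff_dvd).2 hy.2).symm
    exact Nat.ModEq.cancel_left_of_coprime e1 (Nat.ModEq.add_left_cancel' 1 e2)
  set T := J ×ˢ J with hT
  set bad := T.filter (fun p => ¬ (1 + Q * p.1).Coprime (1 + Q * p.2)) with hbad
  set good := T.filter (fun p => (1 + Q * p.1).Coprime (1 + Q * p.2)) with hgood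
  have hTc : (T.card : ℝ) = L ^ 2 := by
    rw [hT, card_product]
    push_cast
    rw [hJc]
    ring
  have hsplit : (good.card : ℝ) + bad.card = L ^ 2 := by
    rw [← hTc, hgood, hbad]
    exact_mod_cast card_filter_add_card_filter_not (s := T) (fun p : ℕ × ℕ => (1 + Q * p.1).Coprime (1 + Q * p.2))
  have hbsub : bad ⊆ (Icc 2 G).biUnion (fun g => F g ×ˢ F g) := by
    intro p hp
    rw [hbad, mem_filter, hT, mem_product] at hp
    obtain ⟨⟨p1, p2⟩, p3⟩ := hp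
    rw [mem_biUnion]
    refine ⟨Nat.gcd (1 + Q * p.1) (1 + Q * p.2), ?_, ?_⟩
    · rw [mem_Icc]
      have e1 : 0 < Nat.gcd (1 + Q * p.1) (1 + Q * p.2) := Nat.gcd_pos_of_pos_left _ (by omega)
      have e2 : Nat.gcd (1 + Q * p.1) (1 + Q * p.2) ≠ 1 := p3
      refine ⟨by omega, ?_⟩
      rw [hG]
      apply Nat.le_floor
      have e3 : Nat.gcd (1 + Q * p.1) (1 + Q * p.2) ≤ 1 + Q * p.1 := Nat.gcd_le_left _ (by omega)
      have e4 : ((Nat.gcd (1 + Q * p.1) (1 + Q * p.2) : ℕ) : ℝ) ≤ ((1 + Q * p.1 : ℕ) : ℝ) := by exact_mod_cast e3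
      exact e4.trans (hmem p.1 p1).2
    · rw [mem_product, hF]
      simp only [mem_filter]
      exact ⟨⟨p1, Nat.gcd_dvd_left _ _⟩, p2, Nat.gcd_dvd_right _ _⟩
  have hbc : (bad.card : ℝ) ≤ 7 / 8 * L ^ 2 + 7 * G := by
    have e1 : bad.card ≤ ∑ g ∈ Icc 2 G, (F g ×ˢ F g).card := (card_le_card hbsub).trans card_biUnion_le
    have e2 : (bad.card : ℝ) ≤ ∑ g ∈ Icc 2 G, ((F g ×ˢ F g).card : ℝ) := by exact_mod_cast e1
    have e3 : ∀ g ∈ Icc 2 G, ((F g ×ˢ F g).card : ℝ) ≤ 7 / 6 * L ^ 2 * (1 / (g : ℝ) ^ 2) + 7 := by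
      intro g hg
      have e4 := hFc g hg
      rw [card_product]
      push_cast
      have e5 : (0 : ℝ) ≤ (F g).card := Nat.cast_nonneg _
      have e6 : ((F g).card : ℝ) * (F g).card ≤ (L / g + 1) * (L / g + 1) := mul_le_mul e4 e4 e5 (e5.trans e4)
      have e7 : 7 / 6 * L ^ 2 * (1 / (g : ℝ) ^ 2) = 7 / 6 * (L / g) ^ 2 := by
        rw [div_pow]
        ring
      rw [e7]
      nlinarith [sq_nonneg (L / g - 6)]
    refine (e2.trans (sum_le_sum e3)).trans ?_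
    rw [sum_add_distrib, ← mul_sum, sum_const, nsmul_eq_mul, Nat.card_Icc]
    have e8 := sum_sq G
    have e9 : ((G + 1 - 2 : ℕ) : ℝ) ≤ G := by
      have : G + 1 - 2 ≤ G := by omega
      exact_mod_cast this
    have e10 : 7 / 6 * L ^ 2 * ∑ g ∈ Icc 2 G, 1 / (g : ℝ) ^ 2 ≤ 7 / 6 * L ^ 2 * (3 / 4) :=
      mul_le_mul_of_nonneg_left e8 (by positivity)
    nlinarith
  have hgc : (good.card : ℝ) ≤ (adm Q Y).ncard := by
    have e1 : (good.image (fun p : ℕ × ℕ => (1 + Q * p.1, 1 + Q * p.2))).card = good.card := by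
      apply card_image_of_injective
      rintro ⟨x, y⟩ ⟨x', y'⟩ h
      simp only [Prod.mk.injEq] at h
      have h1 : x = x' := Nat.eq_of_mul_eq_mul_left hQ (by omega)
      have h2 : y = y' := Nat.eq_of_mul_eq_mul_left hQ (by omega)
      rw [h1, h2]
    have e2 : ((good.image (fun p : ℕ × ℕ => (1 + Q * p.1, 1 + Q * p.2)) : Finset (ℕ × ℕ)) : Set (ℕ × ℕ)) ⊆ adm Q Y := by
      intro V hV
      rw [mem_coe, mem_image] at hV
      obtain ⟨p, hp, rfl⟩ := hV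
      rw [hgood, mem_filter, hT, mem_product] at hp
      obtain ⟨⟨p1, p2⟩, p3⟩ := hp
      exact ⟨hmem p.1 p1, hmem p.2 p2, p3, Nat.Coprime.mul_left (hcq _) (hcq _)⟩
    have e3 := Set.ncard_le_ncard e2 (adm_finite Q Y)
    rw [Set.ncard_coe_finset, e1] at e3
    exact_mod_cast e3
  have hfin : 1 / (64 * (Q : ℝ) ^ 2) * Y ^ 2 ≤ L ^ 2 / 8 - 14 * Y := by
    have e1 : (Y / (2 * Q)) ^ 2 ≤ L ^ 2 := pow_le_pow_left₀ (div_nonneg (by linarith) (by linarith)) hL2 2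
    have e2 : (Y / (2 * Q)) ^ 2 = 16 * (1 / (64 * (Q : ℝ) ^ 2) * Y ^ 2) := by
      rw [div_pow]
      field_simp
      ring
    have e3 : 14 * Y ≤ 1 / (64 * (Q : ℝ) ^ 2) * Y ^ 2 := by
      rw [one_div, inv_mul_eq_div, le_div_iff₀ (by positivity)]
      nlinarith
    nlinarith
  nlinarith

end Pool.Agent.PairFan
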