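import Pool.Agent.Lib_MP_92ef0c_pf.Edge
import Pool.Agent.Lib_MP_92ef0c_pf.Cnt

/-!
# MP_92ef0c_nt, PairFan: matrices and members of progressions
-/

set_option autoImplicit false

namespace Pool.Agent.PairFan

open Finset Pool.Agent.Spl Pool.Agent.SplB Pool.Agent.SplL Filter

/-- `n` is the member of level `i` of the progression of the pair `V` -/
def Mem (h k n0 i : ℕ) (V : ℕ × ℕ) (n : ℕ) : Prop :=
  (i * (V.1 * V.2 * k) ≤ n ∧ n < (i + 1) * (V.1 * V.2 * k)) ∧ V.2 ∣ n ∧ V.1 ∣ n + h ∧ n ≡ n0 [MOD k]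

/-- there is exactly one member of level `i` -/
theorem mem_ex {h k n0 : ℕ} (i : ℕ) {a b : ℕ} (ha : 0 < a) (hb : 0 < b) (hk : 0 < k) (hab : a.Coprime b)
    (habk : (a * b).Coprime k) : ∃! n, Mem h k n0 i (a, b) n := by
  have hM : 0 < a * b * k := by positivity
  obtain ⟨n1, h1, h2⟩ := Nat.chineseRemainder hab (h * (a - 1)) 0
  obtain ⟨n2, h3, h4⟩ := Nat.chineseRemainder habk n1 n0
  have h5 : n2 ≡ h * (a - 1) [MOD a] := (h3.of_mul_right b).trans h1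
  have h6 : n2 ≡ 0 [MOD b] := (h3.of_mul_left a).trans h2
  have key : ∀ n, n ≡ n2 [MOD a * b * k] → b ∣ n ∧ a ∣ n + h ∧ n ≡ n0 [MOD k] := by
    intro n hn
    have e1 : n ≡ n2 [MOD a * b] := hn.of_mul_right k
    have e2 : n ≡ n2 [MOD k] := hn.of_mul_left (a * b)
    refine ⟨(Nat.modEq_zero_iff_dvd).1 ((e1.of_mul_left a).trans h6), ?_, e2.trans h4⟩
    have e3 : n + h ≡ h * (a - 1) + h [MOD a] := (((e1.of_mul_right b).trans h5)).add_right h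
    have e4 : h * (a - 1) + h = a * h := by
      obtain ⟨a', rfl⟩ : ∃ a', a = a' + 1 := ⟨a - 1, by omega⟩
      rw [Nat.add_sub_cancel]
      ring
    rw [e4] at e3
    exact (Nat.modEq_zero_iff_dvd).1 (e3.trans ((Nat.modEq_zero_iff_dvd).2 (Dvd.intro _ rfl)))
  refine ⟨n2 % (a * b * k) + i * (a * b * k), ⟨⟨?_, ?_⟩, ?_⟩, ?_⟩
  · exact Nat.le_add_left _ _
  · show n2 % (a * b * k) + i * (a * b * k) < (i + 1) * (a * b * k)
    have := Nat.mod_lt n2 hM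
    rw [add_mul, one_mul]
    omega
  · apply key
    have e1 : n2 % (a * b * k) + i * (a * b * k) ≡ n2 % (a * b * k) + 0 [MOD a * b * k] :=
      Nat.ModEq.add_left _ ((Nat.modEq_zero_iff_dvd).2 (Dvd.intro_left _ rfl))
    rw [add_zero] at e1
    exact e1.trans (Nat.mod_modEq _ _)
  · rintro n ⟨⟨l1, l2⟩, m1, m2, m3⟩
    simp only at l1 l2 m1 m2
    have e1 : n ≡ n2 [MOD a] := by
      have e2 : n + h ≡ n2 + h [MOD a] := by
        have e3 : n + h ≡ 0 [MOD a] := (Nat.modEq_zero_iff_dvd).2 m2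
        have e4 : n2 + h ≡ 0 [MOD a] := (Nat.modEq_zero_iff_dvd).2 (key n2 (Nat.ModEq.refl _)).2.1
        exact e3.trans e4.symm
      exact Nat.ModEq.add_right_cancel' h e2
    have e5 : n ≡ n2 [MOD b] := ((Nat.modEq_zero_iff_dvd).2 m1).trans h6.symm
    have e6 : n ≡ n2 [MOD a * b] := (Nat.modEq_and_modEq_iff_modEq_mul hab).1 ⟨e1, e5⟩
    have e7 : n ≡ n2 [MOD a * b * k] := (Nat.modEq_and_modEq_iff_modEq_mul habk).1 ⟨e6, m3.trans h4.symm⟩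
    have g1 : n / (a * b * k) = i := Nat.div_eq_of_lt_le l1 l2
    have g3 := Nat.div_add_mod n (a * b * k)
    have g5 : n % (a * b * k) = n2 % (a * b * k) := e7
    rw [g1, g5, mul_comm (a * b * k) i] at g3
    omega

/-- members exist only for the pairs of `adm` -/
theorem mem_adm {h k n0 : ℕ} (hQ : HQ h k n0) {i : ℕ} {V : ℕ × ℕ} {n : ℕ} (hm : Mem h k n0 i V n) :
    V.1.Coprime V.2 ∧ (V.1 * V.2).Coprime k := by
  obtain ⟨-, m1, m2, m3⟩ := hm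
  have c1 : n.Coprime k := by
    unfold Nat.Coprime
    rw [m3.gcd_eq]
    exact hQ.cop
  have c2 : (n + h).Coprime k := by
    unfold Nat.Coprime
    rw [(m3.add_right h).gcd_eq]
    exact hQ.cop'
  refine ⟨?_, Nat.Coprime.mul_left (Nat.Coprime.coprime_dvd_left m2 c2) (Nat.Coprime.coprime_dvd_left m1 c1)⟩
  obtain ⟨g, hg⟩ : ∃ g, g = V.1.gcd V.2 := ⟨_, rfl⟩
  have g1 : g ∣ V.1 := hg ▸ Nat.gcd_dvd_left _ _
  have g2 : g ∣ V.2 := hg ▸ Nat.gcd_dvd_right _ _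
  have g3 : g ∣ h := (Nat.dvd_add_right (g2.trans m1)).1 (g1.trans m2)
  have g6 : g ∣ 1 := by
    have := Nat.dvd_gcd (g2.trans m1) (g3.trans hQ.dvd)
    rwa [c1] at this
  unfold Nat.Coprime
  rw [← hg]
  exact Nat.dvd_one.1 g6

/-- a matrix of the box gives a member -/
theorem bs_mem {h k n0 i : ℕ} {Y : ℝ} (hY : 0 ≤ Y) {e : Q4} (he : e ∈ bs h k n0 i (Y ^ 2)) :
    (Y < e.a ∧ (e.a : ℝ) ≤ 2 * Y) ∧ (Y < e.b ∧ (e.b : ℝ) ≤ 2 * Y) ∧ Mem h k n0 i (e.a, e.b) (e.b * e.c) := by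
  obtain ⟨⟨hS, hc⟩, a1, b1, l1, l2⟩ := (mem_bs (sq_nonneg Y)).1 he
  rw [Real.sqrt_sq hY] at a1 b1
  obtain ⟨d1, pa, pb, -⟩ := hS
  refine ⟨a1, b1, ⟨?_, ?_⟩, Dvd.intro _ rfl, ?_, hc⟩
  · show i * (e.a * e.b * k) ≤ e.b * e.c
    calc i * (e.a * e.b * k) = e.b * (i * (k * e.a)) := by ring
      _ ≤ e.b * e.c := Nat.mul_le_mul_left _ l1
  · show e.b * e.c < (i + 1) * (e.a * e.b * k)
    calc e.b * e.c < e.b * ((i + 1) * (k * e.a)) := Nat.mul_lt_mul_of_pos_left l2 pb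
      _ = _ := by ring
  · show e.a ∣ e.b * e.c + h
    rw [← d1]
    exact Dvd.intro _ rfl

/-- a member gives a matrix of the box -/
theorem mem_bs_ex {h k n0 : ℕ} (hQ : HQ h k n0) {i : ℕ} {Y : ℝ} (hY : (h : ℝ) + 1 ≤ Y) {V : ℕ × ℕ} {n : ℕ}
    (h1 : Y < V.1 ∧ (V.1 : ℝ) ≤ 2 * Y) (h2 : Y < V.2 ∧ (V.2 : ℝ) ≤ 2 * Y) (hm : Mem h k n0 i V n) :
    ∃ e ∈ bs h k n0 i (Y ^ 2), (e.a, e.b) = V ∧ e.b * e.c = n := by
  have hY0 : 0 ≤ Y := by
    have : (0 : ℝ) ≤ h := Nat.cast_nonneg h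
    linarith
  obtain ⟨ab, -⟩ := mem_adm hQ hm
  obtain ⟨⟨l1, l2⟩, ⟨c, hc⟩, ⟨d, hd⟩, m3⟩ := hm
  have a0 : h < V.1 := by
    have : (h : ℝ) < V.1 := by linarith [h1.1]
    exact_mod_cast this
  have b0 : 0 < V.2 := by
    have : (0 : ℝ) < V.2 := by
      have : (0 : ℝ) ≤ h := Nat.cast_nonneg h
      linarith [h2.1]
    exact_mod_cast this
  have hn0 : 0 < c := by
    rcases Nat.eq_zero_or_pos c with hc0 | hc0
    · exfalso
      rw [hc0, mul_zero] at hc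
      rw [hc, zero_add] at hd
      have := Nat.le_of_dvd hQ.pos (Dvd.intro _ hd.symm)
      omega
    · exact hc0
  have hd0 : 0 < d := by
    rcases Nat.eq_zero_or_pos d with hd0 | hd0
    · exfalso
      rw [hd0, mul_zero] at hd
      have := hQ.pos
      omega
    · exact hd0
  have c1 : n.Coprime k := by
    unfold Nat.Coprime
    rw [m3.gcd_eq]
    exact hQ.cop
  have cd : c.Coprime d := by
    obtain ⟨g, hg⟩ : ∃ g, g = c.gcd d := ⟨_, rfl⟩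
    have g1 : g ∣ c := hg ▸ Nat.gcd_dvd_left _ _
    have g2 : g ∣ d := hg ▸ Nat.gcd_dvd_right _ _
    have g4 : g ∣ n := by
      rw [hc]
      exact g1.mul_left _
    have g5 : g ∣ n + h := by
      rw [hd]
      exact g2.mul_left _
    have g3 : g ∣ h := (Nat.dvd_add_right g4).1 g5
    have g6 : g ∣ 1 := by
      have := Nat.dvd_gcd g4 (g3.trans hQ.dvd)
      rwa [c1] at this
    unfold Nat.Coprime
    rw [← hg]
    exact Nat.dvd_one.1 g6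
  refine ⟨⟨V.1, V.2, c, d⟩, ?_, rfl, hc.symm⟩
  rw [mem_bs (sq_nonneg Y)]
  refine ⟨⟨⟨?_, (Nat.zero_le h).trans_lt a0, b0, hn0, hd0, ab, cd⟩, ?_⟩, ?_, ?_, ?_, ?_⟩
  · show V.1 * d = V.2 * c + h
    rw [← hd, ← hc]
  · show V.2 * c ≡ n0 [MOD k]
    rw [← hc]
    exact m3
  · rw [Real.sqrt_sq hY0]
    exact h1
  · rw [Real.sqrt_sq hY0]
    exact h2
  · show i * (k * V.1) ≤ c
    refine Nat.le_of_mul_le_mul_left ?_ b0
    rw [← hc]
    calc V.2 * (i * (k * V.1)) = i * (V.1 * V.2 * k) := by ring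
      _ ≤ n := l1
  · show c < (i + 1) * (k * V.1)
    refine Nat.lt_of_mul_lt_mul_left (a := V.2) ?_
    rw [← hc]
    calc n < (i + 1) * (V.1 * V.2 * k) := l2
      _ = _ := by ring

/-- PROOF. `e ↦ (e.a, e.b)` is a bijection from the filtered `bs` to the set, with `n = e.b * e.c` (`bs_inj`, `mem_ex`); `Y > h` so that
`c > 0`, `n = 0` being impossible since `a ∣ n + h`. -/
theorem conv {h k n0 : ℕ} (hQ : HQ h k n0) (i : ℕ) {Y : ℝ} (hY : (h : ℝ) + 1 ≤ Y) (P : ℕ × ℕ → ℕ → Prop)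
    [DecidablePred fun e : Q4 => P (e.a, e.b) (e.b * e.c)] :
    ((bs h k n0 i (Y ^ 2)).filter (fun e => P (e.a, e.b) (e.b * e.c))).card =
      {V : ℕ × ℕ | (Y < V.1 ∧ (V.1 : ℝ) ≤ 2 * Y) ∧ (Y < V.2 ∧ (V.2 : ℝ) ≤ 2 * Y) ∧
        ∃ n, Mem h k n0 i V n ∧ P V n}.ncard := by
  have hh : (0 : ℝ) ≤ h := Nat.cast_nonneg h
  have hY0 : 0 ≤ Y := by linarith
  have hY2 : 0 < Y ^ 2 := by
    have : 0 < Y := by linarith
    positivity
  have hset : {V : ℕ × ℕ | (Y < V.1 ∧ (V.1 : ℝ) ≤ 2 * Y) ∧ (Y < V.2 ∧ (V.2 : ℝ) ≤ 2 * Y) ∧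
        ∃ n, Mem h k n0 i V n ∧ P V n} =
      (((bs h k n0 i (Y ^ 2)).filter (fun e => P (e.a, e.b) (e.b * e.c))).image (fun e => (e.a, e.b)) : Finset (ℕ × ℕ)) := by
    ext V
    rw [Set.mem_ofPred_eq, mem_coe, mem_image]
    constructor
    · rintro ⟨h1, h2, n, hm, hP⟩
      obtain ⟨e, he, rfl, rfl⟩ := mem_bs_ex hQ hY h1 h2 hm
      exact ⟨e, mem_filter.2 ⟨he, hP⟩, rfl⟩
    · rintro ⟨e, he, rfl⟩
      rw [mem_filter] at he
      obtain ⟨h1, h2, h3⟩ := bs_mem hY0 he.1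
      exact ⟨h1, h2, _, h3, he.2⟩
  rw [hset, Set.ncard_coe_finset, card_image_of_injOn]
  intro e he e' he' hee
  rw [mem_coe, mem_filter] at he he'
  simp only [Prod.mk.injEq] at hee
  exact bs_inj hQ hY2 he.1 he'.1 hee.1 hee.2

theorem conv_card {h k n0 : ℕ} (hQ : HQ h k n0) (i : ℕ) {Y : ℝ} (hY : (h : ℝ) + 1 ≤ Y) :
    (bs h k n0 i (Y ^ 2)).card = (adm k Y).ncard := by
  classical
  have h1 := conv hQ i hY (fun _ _ => True)
  rw [filter_true_of_mem (fun _ _ => trivial)] at h1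
  rw [h1]
  congr 1
  ext V
  unfold adm
  rw [Set.mem_ofPred_eq, Set.mem_ofPred_eq]
  constructor
  · rintro ⟨g1, g2, n, hm, -⟩
    exact ⟨g1, g2, mem_adm hQ hm⟩
  · rintro ⟨g1, g2, g3, g4⟩
    have hh : (0 : ℝ) ≤ h := Nat.cast_nonneg h
    have a0 : 0 < V.1 := by
      have : (0 : ℝ) < V.1 := by linarith [g1.1]
      exact_mod_cast this
    have b0 : 0 < V.2 := by
      have : (0 : ℝ) < V.2 := by linarith [g2.1]
      exact_mod_cast this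
    obtain ⟨n, hn, -⟩ := mem_ex (h := h) (n0 := n0) i a0 b0 hQ.posQ g3 g4
    exact ⟨g1, g2, n, hn, trivial⟩

end Pool.Agent.PairFan
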