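import Pool.Agent.Lib_MP_92ef0c_m.M56

/-!
# MP_92ef0c_nt, two members of a progression: definitions

For a first row `(a, b)` the second rows `(c, d)` with `a d = b c + h0`, `b c = n0` modulo `Q` are `(c_i, d_i)`,
`c_i = c_0 + i Q a`, `d_i = d_0 + i Q b`; `i Q a ≤ c_i < (i + 1) Q a` (level `i`). A pair of second rows on the levels
`i` and `i + s` is the matrix `sh (s Q) e` of determinant `s Q h0`.
-/

set_option autoImplicit false

namespace Pool.Agent.PairFan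

open Finset Pool.Agent.Spl Pool.Agent.SplB Pool.Agent.SplL Filter

/-- the first row is in the box and the second row is on level `i` -/
def Lv (Q i : ℕ) (X : ℝ) (e : Q4) : Prop :=
  (Real.sqrt X < e.a ∧ (e.a : ℝ) ≤ 2 * Real.sqrt X) ∧ (Real.sqrt X < e.b ∧ (e.b : ℝ) ≤ 2 * Real.sqrt X) ∧
    i * (Q * e.a) ≤ e.c ∧ e.c < (i + 1) * (Q * e.a)

open Classical in
/-- the matrices with first row in the box and second row on level `i` -/
noncomputable def bs (h0 Q n0 i : ℕ) (X : ℝ) : Finset Q4 :=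
  (SQ h0 Q n0 (4 * (i + 1) * Q * X)).filter (Lv Q i X)

theorem mem_bs {h0 Q n0 i : ℕ} {X : ℝ} (hX : 0 ≤ X) {e : Q4} : e ∈ bs h0 Q n0 i X ↔
    (Sn h0 e ∧ e.b * e.c ≡ n0 [MOD Q]) ∧ Lv Q i X e := by
  classical
  unfold bs
  rw [mem_filter, mem_SQ]
  constructor
  · rintro ⟨⟨⟨h1, -⟩, h2⟩, h3⟩
    exact ⟨⟨h1, h2⟩, h3⟩
  · rintro ⟨⟨h1, h2⟩, h3⟩
    refine ⟨⟨⟨h1, ?_⟩, h2⟩, h3⟩
    obtain ⟨⟨a1, a2⟩, ⟨b1, b2⟩, c1, c2⟩ := h3
    have hs : Real.sqrt X * Real.sqrt X = X := Real.mul_self_sqrt hX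
    have hs0 := Real.sqrt_nonneg X
    have c3 : (e.c : ℝ) ≤ (i + 1) * (Q * e.a) := by exact_mod_cast c2.le
    have c4 : (e.c : ℝ) ≤ (i + 1) * (Q * (2 * Real.sqrt X)) := c3.trans (by gcongr)
    unfold yS
    calc (e.b : ℝ) * e.c ≤ (2 * Real.sqrt X) * ((i + 1) * (Q * (2 * Real.sqrt X))) :=
          mul_le_mul b2 c4 (Nat.cast_nonneg _) (by positivity)
      _ = 4 * (i + 1) * Q * (Real.sqrt X * Real.sqrt X) := by ring
      _ = _ := by rw [hs]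

/-- the pair of the second rows with difference `m` times the first row -/
def sh (m : ℕ) (e : Q4) : Q4 := ⟨e.c + m * e.a, e.d + m * e.b, e.c, e.d⟩

/-- the entries are coprime to `Q` -/
theorem bs_cop {h0 Q n0 : ℕ} (hQ : HQ h0 Q n0) {e : Q4} (h1 : Sn h0 e) (h2 : e.b * e.c ≡ n0 [MOD Q]) :
    (e.a.Coprime Q ∧ e.b.Coprime Q) ∧ (e.c.Coprime Q ∧ e.d.Coprime Q) := by
  obtain ⟨⟨c1, c2⟩, c3, c4⟩ := sq_cop hQ h1 h2
  exact ⟨⟨c1, c2⟩, c3, c4⟩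

/-! ### The smooth cut-off -/

/-- the ramp: zero for `x ≤ δ`, one for `2 δ ≤ x` -/
noncomputable def rp (δ x : ℝ) : ℝ := max 0 (min 1 (x / δ - 1))

/-- the smooth cut-off of the box and the level, `x = a / √X`, `y = b / √X`, `z = c / √X` -/
noncomputable def wt (Q i : ℕ) (δ x y z : ℝ) : ℝ :=
  rp δ (x - 1) * rp δ (2 - x) * (rp δ (y - 1) * rp δ (2 - y)) * (rp δ (z - i * (Q * x)) * rp δ ((i + 1) * (Q * x) - z))

theorem rp_nonneg (δ x : ℝ) : 0 ≤ rp δ x := le_max_left _ _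

theorem rp_le (δ x : ℝ) : rp δ x ≤ 1 := max_le zero_le_one (min_le_left _ _)

theorem rp_cont (δ : ℝ) : Continuous (rp δ) := by
  unfold rp
  fun_prop

theorem rp_zero {δ x : ℝ} (hδ : 0 < δ) (hx : x ≤ δ) : rp δ x = 0 := by
  unfold rp
  refine max_eq_left ((min_le_right _ _).trans ?_)
  have : x / δ ≤ 1 := (div_le_one hδ).2 hx
  linarith

theorem rp_one {δ x : ℝ} (hδ : 0 < δ) (hx : 2 * δ ≤ x) : rp δ x = 1 := by
  unfold rp
  have h1 : 1 ≤ x / δ - 1 := by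
    rw [le_sub_iff_add_le, le_div_iff₀ hδ]
    linarith
  rw [min_eq_left h1]
  exact max_eq_right zero_le_one

theorem rp_ne {δ x : ℝ} (hδ : 0 < δ) (h : rp δ x ≠ 0) : δ < x := by
  by_contra hx
  exact h (rp_zero hδ (not_lt.1 hx))

theorem wt_nonneg (Q i : ℕ) (δ x y z : ℝ) : 0 ≤ wt Q i δ x y z := by
  unfold wt
  have := rp_nonneg δ
  exact mul_nonneg (mul_nonneg (mul_nonneg (this _) (this _)) (mul_nonneg (this _) (this _)))
    (mul_nonneg (this _) (this _))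

theorem wt_le (Q i : ℕ) (δ x y z : ℝ) : wt Q i δ x y z ≤ 1 := by
  unfold wt
  have h0 := rp_nonneg δ
  have h1 := rp_le δ
  have h2 : ∀ a b, rp δ a * rp δ b ≤ 1 := fun a b => mul_le_one₀ (h1 a) (h0 b) (h1 b)
  exact mul_le_one₀ (mul_le_one₀ (h2 _ _) (mul_nonneg (h0 _) (h0 _)) (h2 _ _)) (mul_nonneg (h0 _) (h0 _)) (h2 _ _)

theorem wt_ne {Q i : ℕ} {δ x y z : ℝ} (hδ : 0 < δ) (h : wt Q i δ x y z ≠ 0) :
    (δ < x - 1 ∧ δ < 2 - x) ∧ (δ < y - 1 ∧ δ < 2 - y) ∧ (δ < z - i * (Q * x) ∧ δ < (i + 1) * (Q * x) - z) := by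
  unfold wt at h
  have h1 := left_ne_zero_of_mul h
  have h2 := right_ne_zero_of_mul h
  have h3 := left_ne_zero_of_mul h1
  have h4 := right_ne_zero_of_mul h1
  exact ⟨⟨rp_ne hδ (left_ne_zero_of_mul h3), rp_ne hδ (right_ne_zero_of_mul h3)⟩,
    ⟨rp_ne hδ (left_ne_zero_of_mul h4), rp_ne hδ (right_ne_zero_of_mul h4)⟩,
    rp_ne hδ (left_ne_zero_of_mul h2), rp_ne hδ (right_ne_zero_of_mul h2)⟩

theorem wt_one {Q i : ℕ} {δ x y z : ℝ} (hδ : 0 < δ) (h1 : 2 * δ ≤ x - 1) (h2 : 2 * δ ≤ 2 - x) (h3 : 2 * δ ≤ y - 1)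
    (h4 : 2 * δ ≤ 2 - y) (h5 : 2 * δ ≤ z - i * (Q * x)) (h6 : 2 * δ ≤ (i + 1) * (Q * x) - z) : wt Q i δ x y z = 1 := by
  unfold wt
  rw [rp_one hδ h1, rp_one hδ h2, rp_one hδ h3, rp_one hδ h4, rp_one hδ h5, rp_one hδ h6]
  norm_num

theorem wt_cont (Q i : ℕ) (δ : ℝ) : Continuous (fun v : ℝ × ℝ × ℝ => wt Q i δ v.1 v.2.1 v.2.2) := by
  unfold wt
  have := rp_cont δ
  fun_prop

/-- the cut-off in the entries divided by `√X` -/
noncomputable def wE (Q i : ℕ) (δ X : ℝ) (e : Q4) : ℝ :=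
  wt Q i δ (e.a / Real.sqrt X) (e.b / Real.sqrt X) (e.c / Real.sqrt X)

theorem wE_lv {Q i : ℕ} {δ X : ℝ} (hδ : 0 < δ) (hX : 0 < X) {e : Q4} (h : wE Q i δ X e ≠ 0) : Lv Q i X e := by
  have hs : 0 < Real.sqrt X := Real.sqrt_pos.2 hX
  obtain ⟨⟨h1, h2⟩, ⟨h3, h4⟩, h5, h6⟩ := wt_ne hδ h
  have g1 : 1 < (e.a : ℝ) / Real.sqrt X := by linarith
  have g2 : (e.a : ℝ) / Real.sqrt X < 2 := by linarith
  have g3 : 1 < (e.b : ℝ) / Real.sqrt X := by linarith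
  have g4 : (e.b : ℝ) / Real.sqrt X < 2 := by linarith
  rw [lt_div_iff₀ hs, one_mul] at g1 g3
  rw [div_lt_iff₀ hs] at g2 g4
  refine ⟨⟨g1, g2.le⟩, ⟨g3, g4.le⟩, ?_, ?_⟩
  · have g5 : (i : ℝ) * (Q * (e.a / Real.sqrt X)) < e.c / Real.sqrt X := by linarith
    have g6 : (i : ℝ) * (Q * (e.a / Real.sqrt X)) = i * (Q * e.a) / Real.sqrt X := by ring
    rw [g6, div_lt_div_iff_of_pos_right hs] at g5
    exact_mod_cast g5.le
  · have g5 : (e.c : ℝ) / Real.sqrt X < (i + 1) * (Q * (e.a / Real.sqrt X)) := by linarith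
    have g6 : ((i : ℝ) + 1) * (Q * (e.a / Real.sqrt X)) = (i + 1) * (Q * e.a) / Real.sqrt X := by ring
    rw [g6, div_lt_div_iff_of_pos_right hs] at g5
    exact_mod_cast g5

end Pool.Agent.PairFan
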