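import Pool.Agent.Lib_MP_92ef0c_pf.D1

/-!
# MP_92ef0c_nt, PairFan: the thin boundary
-/

set_option autoImplicit false

namespace Pool.Agent.PairFan

open Finset Pool.Agent.Spl Pool.Agent.SplB Pool.Agent.SplL Filter

theorem bs_inj {h0 Q n0 i : ℕ} (hQ : HQ h0 Q n0) {X : ℝ} (hX : 0 < X) {e e' : Q4} (he : e ∈ bs h0 Q n0 i X)
    (he' : e' ∈ bs h0 Q n0 i X) (h1 : e.a = e'.a) (h2 : e.b = e'.b) : e = e' := by
  obtain ⟨⟨hS, hc⟩, -, -, l1, l2⟩ := (mem_bs hX.le).1 he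
  obtain ⟨⟨hS', hc'⟩, -, -, l1', l2'⟩ := (mem_bs hX.le).1 he'
  obtain ⟨⟨ca, cb⟩, -⟩ := bs_cop hQ hS hc
  obtain ⟨d1, pa, pb, -, -, hab, -⟩ := hS
  obtain ⟨d1', -⟩ := hS'
  rw [← h1, ← h2] at d1'
  rw [← h2] at hc'
  rw [← h1] at l1' l2'
  have k1 : e.b * e.c ≡ e.b * e'.c [MOD e.a] := by
    have g1 : e.b * e.c + h0 ≡ e.b * e'.c + h0 [MOD e.a] := by
      rw [← d1, ← d1']
      exact ((Nat.modEq_zero_iff_dvd).2 (Dvd.intro _ rfl)).trans ((Nat.modEq_zero_iff_dvd).2 (Dvd.intro _ rfl)).symm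
    exact Nat.ModEq.add_right_cancel' h0 g1
  have k2 : e.c ≡ e'.c [MOD e.a] := Nat.ModEq.cancel_left_of_coprime hab k1
  have k3 : e.c ≡ e'.c [MOD Q] := Nat.ModEq.cancel_left_of_coprime cb.symm (hc.trans hc'.symm)
  have k4 : e.c ≡ e'.c [MOD Q * e.a] := (Nat.modEq_and_modEq_iff_modEq_mul ca.symm).1 ⟨k3, k2⟩
  have k5 : e.c = e'.c := by
    have g1 : e.c / (Q * e.a) = i := Nat.div_eq_of_lt_le l1 l2
    have g2 : e'.c / (Q * e.a) = i := Nat.div_eq_of_lt_le l1' l2'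
    have g3 := Nat.div_add_mod e.c (Q * e.a)
    have g4 := Nat.div_add_mod e'.c (Q * e.a)
    have g5 : e.c % (Q * e.a) = e'.c % (Q * e.a) := k4
    rw [g1] at g3
    rw [g2, ← g5] at g4
    omega
  have k6 : e.d = e'.d := by
    rw [← k5, ← d1] at d1'
    exact (Nat.eq_of_mul_eq_mul_left pa d1').symm
  cases e
  cases e'
  simp only at h1 h2 k5 k6
  subst h1 h2 k5 k6
  rfl

theorem bs_inj2 {h0 Q n0 i : ℕ} (hQ : HQ h0 Q n0) {X : ℝ} (hX : 0 < X) {e e' : Q4} (he : e ∈ bs h0 Q n0 i X)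
    (he' : e' ∈ bs h0 Q n0 i X) (h1 : e.a = e'.a) (h2 : e.c = e'.c) : e = e' := by
  obtain ⟨⟨hS, hc⟩, ⟨a1, -⟩, ⟨b1, b2⟩, -⟩ := (mem_bs hX.le).1 he
  obtain ⟨⟨hS', hc'⟩, -, ⟨b1', b2'⟩, -⟩ := (mem_bs hX.le).1 he'
  obtain ⟨⟨ca, cb⟩, -⟩ := bs_cop hQ hS hc
  obtain ⟨d1, pa, pb, -, -, hab, -⟩ := hS
  obtain ⟨d1', -⟩ := hS'
  rw [← h1, ← h2] at d1'
  have hac : e.a.Coprime e.c := by
    obtain ⟨g, hg⟩ : ∃ g, g = e.a.gcd e.c := ⟨_, rfl⟩
    have g1 : g ∣ e.a := hg ▸ Nat.gcd_dvd_left _ _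
    have g2 : g ∣ e.c := hg ▸ Nat.gcd_dvd_right _ _
    have g3 : g ∣ h0 := by
      have k4 : g ∣ e.b * e.c + h0 := by
        rw [← d1]
        exact g1.mul_right _
      exact (Nat.dvd_add_right (g2.mul_left _)).1 k4
    have g6 : g ∣ 1 := by
      have := Nat.dvd_gcd g1 (g3.trans hQ.dvd)
      rwa [ca] at this
    unfold Nat.Coprime
    rw [← hg]
    exact Nat.dvd_one.1 g6
  have k1 : e.c * e.b ≡ e.c * e'.b [MOD e.a] := by
    have g1 : e.c * e.b + h0 ≡ e.c * e'.b + h0 [MOD e.a] := by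
      rw [mul_comm e.c e.b, mul_comm e.c e'.b, ← d1, ← d1']
      exact ((Nat.modEq_zero_iff_dvd).2 (Dvd.intro _ rfl)).trans ((Nat.modEq_zero_iff_dvd).2 (Dvd.intro _ rfl)).symm
    exact Nat.ModEq.add_right_cancel' h0 g1
  have k2 : e.b ≡ e'.b [MOD e.a] := Nat.ModEq.cancel_left_of_coprime hac k1
  have hlt : ∀ x y : ℕ, x ≡ y [MOD e.a] → Real.sqrt X < x → (y : ℝ) ≤ 2 * Real.sqrt X → ¬ x < y := by
    intro x y hxy hx hy h
    have g1 : e.a ∣ y - x := (Nat.modEq_iff_dvd' h.le).1 hxy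
    have g2 : e.a ≤ y - x := Nat.le_of_dvd (by omega) g1
    have g3 : e.a + x ≤ y := by omega
    have g4 : (e.a : ℝ) + x ≤ y := by exact_mod_cast g3
    linarith
  have k5 : e.b = e'.b := by
    rcases lt_trichotomy e.b e'.b with h | h | h
    · exact absurd h (hlt _ _ k2 b1 b2')
    · exact h
    · exact absurd h (hlt _ _ k2.symm b1' b2)
  exact bs_inj hQ hX he he' h1 k5

theorem bs_card {h0 Q n0 i : ℕ} (hQ : HQ h0 Q n0) {X : ℝ} (hX : 0 < X) : ((bs h0 Q n0 i X).card : ℝ) ≤ 4 * X := by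
  have hs : 0 < Real.sqrt X := Real.sqrt_pos.2 hX
  have hss : Real.sqrt X * Real.sqrt X = X := Real.mul_self_sqrt hX.le
  have h1 : (bs h0 Q n0 i X).card ≤ (Icc 1 ⌊2 * Real.sqrt X⌋₊ ×ˢ Icc 1 ⌊2 * Real.sqrt X⌋₊).card := by
    refine card_le_card_of_injOn (fun e => (e.a, e.b)) (fun e he => ?_) (fun e he e' he' h => ?_)
    · obtain ⟨⟨hS, -⟩, ⟨-, a2⟩, ⟨-, b2⟩, -⟩ := (mem_bs hX.le).1 he
      rw [mem_coe, mem_product, mem_Icc, mem_Icc]
      exact ⟨⟨hS.2.1, Nat.le_floor a2⟩, hS.2.2.1, Nat.le_floor b2⟩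
    · rw [Prod.mk.injEq] at h
      exact bs_inj hQ hX he he' h.1 h.2
  rw [card_product, Nat.card_Icc, Nat.add_sub_cancel] at h1
  have h2 : (⌊2 * Real.sqrt X⌋₊ : ℝ) ≤ 2 * Real.sqrt X := Nat.floor_le (by positivity)
  calc ((bs h0 Q n0 i X).card : ℝ) ≤ ((⌊2 * Real.sqrt X⌋₊ * ⌊2 * Real.sqrt X⌋₊ : ℕ) : ℝ) := by exact_mod_cast h1
    _ = (⌊2 * Real.sqrt X⌋₊ : ℝ) * ⌊2 * Real.sqrt X⌋₊ := by push_cast; ring
    _ ≤ (2 * Real.sqrt X) * (2 * Real.sqrt X) := mul_le_mul h2 h2 (Nat.cast_nonneg _) (by positivity)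
    _ = 4 * (Real.sqrt X * Real.sqrt X) := by ring
    _ = 4 * X := by rw [hss]

/-- integers in an interval -/
theorem cntI (S : Finset ℕ) (x y : ℝ) (hxy : x ≤ y) (hS : ∀ n ∈ S, x ≤ n ∧ (n : ℝ) ≤ y) : (S.card : ℝ) ≤ y - x + 1 := by
  have h1 : S.card ≤ (Icc ⌈x⌉ ⌊y⌋).card := by
    refine card_le_card_of_injOn (fun n : ℕ => (n : ℤ)) (fun n hn => ?_) (fun n _ m _ h => ?_)
    · obtain ⟨a, b⟩ := hS n hn
      rw [mem_coe, mem_Icc]
      exact ⟨Int.ceil_le.2 (by exact_mod_cast a), Int.le_floor.2 (by exact_mod_cast b)⟩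
    · exact Int.natCast_inj.1 h
  rw [Int.card_Icc] at h1
  have h2 : ((⌊y⌋ + 1 - ⌈x⌉).toNat : ℝ) ≤ y - x + 1 := by
    rcases le_total 0 (⌊y⌋ + 1 - ⌈x⌉) with h | h
    · have h3 : (((⌊y⌋ + 1 - ⌈x⌉).toNat : ℤ) : ℝ) = ((⌊y⌋ + 1 - ⌈x⌉ : ℤ) : ℝ) := by rw [Int.toNat_of_nonneg h]
      have h4 : ((⌊y⌋ + 1 - ⌈x⌉).toNat : ℝ) = ⌊y⌋ + 1 - ⌈x⌉ := by exact_mod_cast h3
      rw [h4]
      have := Int.floor_le y
      have := Int.le_ceil x
      linarith
    · rw [Int.toNat_of_nonpos h]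
      simp only [Nat.cast_zero]
      linarith
  calc (S.card : ℝ) ≤ ((⌊y⌋ + 1 - ⌈x⌉).toNat : ℝ) := by exact_mod_cast h1
    _ ≤ _ := h2

/-- counting by fibres -/
theorem fib (S : Finset Q4) (f g : Q4 → ℕ) (T : Finset ℕ) (hf : ∀ e ∈ S, f e ∈ T) (L : ℝ) (hL : 0 ≤ L) (lo : ℕ → ℝ)
    (hg : ∀ e ∈ S, lo (f e) ≤ g e ∧ (g e : ℝ) ≤ lo (f e) + L)
    (inj : ∀ e ∈ S, ∀ e' ∈ S, f e = f e' → g e = g e' → e = e') : (S.card : ℝ) ≤ T.card * (L + 1) := by
  classical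
  rw [card_eq_sum_card_fiberwise (f := f) (t := T) hf]
  push_cast
  calc ∑ t ∈ T, ((S.filter (fun e => f e = t)).card : ℝ) ≤ ∑ _t ∈ T, (L + 1) := by
        refine sum_le_sum fun t _ => ?_
        have h1 : (S.filter (fun e => f e = t)).card = ((S.filter (fun e => f e = t)).image g).card := by
          rw [card_image_of_injOn]
          intro e he e' he' h
          rw [mem_coe, mem_filter] at he he'
          exact inj e he.1 e' he'.1 (he.2.trans he'.2.symm) h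
        rw [h1]
        have h2 := cntI ((S.filter (fun e => f e = t)).image g) (lo t) (lo t + L) (by linarith) (fun n hn => by
          rw [mem_image] at hn
          obtain ⟨e, he, rfl⟩ := hn
          rw [mem_filter] at he
          have := hg e he.1
          rw [he.2] at this
          exact this)
        linarith
    _ = _ := by rw [sum_const, nsmul_eq_mul]

theorem edge {h0 Q n0 : ℕ} (hQ : HQ h0 Q n0) (i : ℕ) (δ : ℝ) (hδ : 0 < δ) (X : ℝ) (hX : 1 ≤ X) (Ψ : Q4 → ℂ)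
    (hΨ : ∀ e ∈ bs h0 Q n0 i X, ‖Ψ e‖ ≤ 1) :
    ‖∑ e ∈ bs h0 Q n0 i X, Ψ e - ∑ e ∈ bs h0 Q n0 i X, ((wE Q i δ X e : ℝ) : ℂ) * Ψ e‖ ≤
      24 * δ * X + 12 * Real.sqrt X := by
  classical
  have hX0 : 0 < X := by linarith
  set s := Real.sqrt X with hsd
  have hs : 0 < s := Real.sqrt_pos.2 hX0
  have hs1 : 1 ≤ s := by
    rw [hsd, show (1 : ℝ) = Real.sqrt 1 by rw [Real.sqrt_one]]
    exact Real.sqrt_le_sqrt hX
  have hss : s * s = X := Real.mul_self_sqrt hX0.le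
  set S := bs h0 Q n0 i X with hS
  have hmem : ∀ e ∈ S, ((s < e.a ∧ (e.a : ℝ) ≤ 2 * s) ∧ (s < e.b ∧ (e.b : ℝ) ≤ 2 * s)) ∧
      ((i : ℝ) * (Q * e.a) ≤ e.c ∧ (e.c : ℝ) < (i + 1) * (Q * e.a)) := by
    intro e he
    obtain ⟨-, a1, b1, c1, c2⟩ := (mem_bs hX0.le).1 he
    exact ⟨⟨a1, b1⟩, by exact_mod_cast c1, by exact_mod_cast c2⟩
  set T : Finset ℕ := (Icc 0 ⌊2 * s⌋₊).filter (fun n => s < (n : ℝ)) with hT
  have hTm : ∀ n : ℕ, s < n → (n : ℝ) ≤ 2 * s → n ∈ T := by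
    intro n h1 h2
    rw [hT, mem_filter, mem_Icc]
    exact ⟨⟨Nat.zero_le _, Nat.le_floor h2⟩, h1⟩
  have hTc : (T.card : ℝ) ≤ 2 * s := by
    have := cntI T s (2 * s) (by linarith) (fun n hn => by
      rw [hT, mem_filter, mem_Icc] at hn
      exact ⟨hn.2.le, (Nat.le_floor_iff (by positivity)).1 hn.1.2⟩)
    linarith
  set L : ℝ := 2 * δ * s with hL
  have hL0 : 0 ≤ L := by positivity
  have key : ∀ (S' : Finset Q4) (f g : Q4 → ℕ) (lo : ℕ → ℝ), S' ⊆ S → (∀ e ∈ S', f e ∈ T) →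
      (∀ e ∈ S', lo (f e) ≤ g e ∧ (g e : ℝ) ≤ lo (f e) + L) →
      (∀ e ∈ S', ∀ e' ∈ S', f e = f e' → g e = g e' → e = e') → (S'.card : ℝ) ≤ 2 * s * (L + 1) := by
    intro S' f g lo _ h1 h2 h3
    exact (fib S' f g T h1 L hL0 lo h2 h3).trans (mul_le_mul_of_nonneg_right hTc (by linarith))
  set P : Fin 6 → Q4 → Prop := ![fun e => (e.a : ℝ) ≤ s + L, fun e => 2 * s - L ≤ e.a, fun e => (e.b : ℝ) ≤ s + L,
    fun e => 2 * s - L ≤ e.b, fun e => (e.c : ℝ) ≤ i * (Q * e.a) + L, fun e => (i + 1) * (Q * e.a) - L ≤ e.c] with hP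
  have hPc : ∀ j, ((S.filter (P j)).card : ℝ) ≤ 2 * s * (L + 1) := by
    intro j
    fin_cases j
    · refine key _ (fun e => e.b) (fun e => e.a) (fun _ => s) (filter_subset _ _) (fun e he => ?_) (fun e he => ?_)
        (fun e he e' he' h h' => ?_)
      · obtain ⟨⟨-, b1, b2⟩, -⟩ := hmem e (mem_filter.1 he).1
        exact hTm _ b1 b2
      · obtain ⟨⟨⟨a1, a2⟩, -⟩, -⟩ := hmem e (mem_filter.1 he).1
        exact ⟨a1.le, (mem_filter.1 he).2⟩
      · exact bs_inj hQ hX0 (mem_filter.1 he).1 (mem_filter.1 he').1 h' h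
    · refine key _ (fun e => e.b) (fun e => e.a) (fun _ => 2 * s - L) (filter_subset _ _) (fun e he => ?_)
        (fun e he => ?_) (fun e he e' he' h h' => ?_)
      · obtain ⟨⟨-, b1, b2⟩, -⟩ := hmem e (mem_filter.1 he).1
        exact hTm _ b1 b2
      · obtain ⟨⟨⟨a1, a2⟩, -⟩, -⟩ := hmem e (mem_filter.1 he).1
        refine ⟨(mem_filter.1 he).2, ?_⟩
        linarith
      · exact bs_inj hQ hX0 (mem_filter.1 he).1 (mem_filter.1 he').1 h' h
    · refine key _ (fun e => e.a) (fun e => e.b) (fun _ => s) (filter_subset _ _) (fun e he => ?_) (fun e he => ?_)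
        (fun e he e' he' h h' => ?_)
      · obtain ⟨⟨⟨a1, a2⟩, -⟩, -⟩ := hmem e (mem_filter.1 he).1
        exact hTm _ a1 a2
      · obtain ⟨⟨-, b1, b2⟩, -⟩ := hmem e (mem_filter.1 he).1
        exact ⟨b1.le, (mem_filter.1 he).2⟩
      · exact bs_inj hQ hX0 (mem_filter.1 he).1 (mem_filter.1 he').1 h h'
    · refine key _ (fun e => e.a) (fun e => e.b) (fun _ => 2 * s - L) (filter_subset _ _) (fun e he => ?_)
        (fun e he => ?_) (fun e he e' he' h h' => ?_)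
      · obtain ⟨⟨⟨a1, a2⟩, -⟩, -⟩ := hmem e (mem_filter.1 he).1
        exact hTm _ a1 a2
      · obtain ⟨⟨-, b1, b2⟩, -⟩ := hmem e (mem_filter.1 he).1
        refine ⟨(mem_filter.1 he).2, ?_⟩
        linarith
      · exact bs_inj hQ hX0 (mem_filter.1 he).1 (mem_filter.1 he').1 h h'
    · refine key _ (fun e => e.a) (fun e => e.c) (fun a => i * (Q * a)) (filter_subset _ _) (fun e he => ?_)
        (fun e he => ?_) (fun e he e' he' h h' => ?_)
      · obtain ⟨⟨⟨a1, a2⟩, -⟩, -⟩ := hmem e (mem_filter.1 he).1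
        exact hTm _ a1 a2
      · obtain ⟨-, c1, c2⟩ := hmem e (mem_filter.1 he).1
        exact ⟨c1, (mem_filter.1 he).2⟩
      · exact bs_inj2 hQ hX0 (mem_filter.1 he).1 (mem_filter.1 he').1 h h'
    · refine key _ (fun e => e.a) (fun e => e.c) (fun a => (i + 1) * (Q * a) - L) (filter_subset _ _)
        (fun e he => ?_) (fun e he => ?_) (fun e he e' he' h h' => ?_)
      · obtain ⟨⟨⟨a1, a2⟩, -⟩, -⟩ := hmem e (mem_filter.1 he).1
        exact hTm _ a1 a2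
      · obtain ⟨-, c1, c2⟩ := hmem e (mem_filter.1 he).1
        refine ⟨(mem_filter.1 he).2, ?_⟩
        simp only [sub_add_cancel]
        exact c2.le
      · exact bs_inj2 hQ hX0 (mem_filter.1 he).1 (mem_filter.1 he').1 h h'
  have hone : ∀ e ∈ S, (∀ j, ¬ P j e) → wE Q i δ X e = 1 := by
    intro e he h
    obtain ⟨⟨⟨a1, a2⟩, b1, b2⟩, c1, c2⟩ := hmem e he
    have p0 : s + L < e.a := not_le.1 (h 0)
    have p1 : (e.a : ℝ) < 2 * s - L := not_le.1 (h 1)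
    have p2 : s + L < e.b := not_le.1 (h 2)
    have p3 : (e.b : ℝ) < 2 * s - L := not_le.1 (h 3)
    have p4 : (i : ℝ) * (Q * e.a) + L < e.c := not_le.1 (h 4)
    have p5 : (e.c : ℝ) < (i + 1) * (Q * e.a) - L := not_le.1 (h 5)
    have hdiv : ∀ x y : ℝ, x * s ≤ y → x ≤ y / s := fun x y hxy => (le_div_iff₀ hs).2 hxy
    have e1 : (i : ℝ) * (Q * (e.a / s)) = i * (Q * e.a) / s := by ring
    have e2 : ((i : ℝ) + 1) * (Q * (e.a / s)) = (i + 1) * (Q * e.a) / s := by ring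
    have e3 : (1 : ℝ) = s / s := (div_self hs.ne').symm
    have e4 : (2 : ℝ) = 2 * s / s := by field_simp
    unfold wE
    rw [← hsd]
    apply wt_one hδ
    · have := hdiv (2 * δ) (e.a - s) (by linarith)
      rw [sub_div, ← e3] at this
      exact this
    · have := hdiv (2 * δ) (2 * s - e.a) (by linarith)
      rw [sub_div, ← e4] at this
      exact this
    · have := hdiv (2 * δ) (e.b - s) (by linarith)
      rw [sub_div, ← e3] at this
      exact this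
    · have := hdiv (2 * δ) (2 * s - e.b) (by linarith)
      rw [sub_div, ← e4] at this
      exact this
    · have := hdiv (2 * δ) (e.c - i * (Q * e.a)) (by linarith)
      rw [sub_div, ← e1] at this
      exact this
    · have := hdiv (2 * δ) ((i + 1) * (Q * e.a) - e.c) (by linarith)
      rw [sub_div, ← e2] at this
      exact this
  rw [← sum_sub_distrib]
  calc ‖∑ e ∈ S, (Ψ e - ((wE Q i δ X e : ℝ) : ℂ) * Ψ e)‖ ≤ ∑ e ∈ S, ∑ j, if P j e then (1 : ℝ) else 0 := by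
        refine norm_sum_le_of_le _ fun e he => ?_
        by_cases h : ∀ j, ¬ P j e
        · rw [hone e he h, Complex.ofReal_one, one_mul, sub_self, norm_zero]
          exact sum_nonneg fun j _ => by split_ifs <;> norm_num
        · push Not at h
          obtain ⟨j, hj⟩ := h
          have h1 : Ψ e - ((wE Q i δ X e : ℝ) : ℂ) * Ψ e = ((1 - wE Q i δ X e : ℝ) : ℂ) * Ψ e := by
            push_cast
            ring
          have h2 : ‖((1 - wE Q i δ X e : ℝ) : ℂ) * Ψ e‖ ≤ 1 := by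
            rw [norm_mul, Complex.norm_real, Real.norm_eq_abs]
            have g1 : |1 - wE Q i δ X e| ≤ 1 := by
              rw [abs_le]
              have := wt_nonneg Q i δ (e.a / Real.sqrt X) (e.b / Real.sqrt X) (e.c / Real.sqrt X)
              have := wt_le Q i δ (e.a / Real.sqrt X) (e.b / Real.sqrt X) (e.c / Real.sqrt X)
              unfold wE
              constructor <;> linarith
            exact mul_le_one₀ g1 (norm_nonneg _) (hΨ e he)
          rw [h1]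
          refine h2.trans ?_
          have h3 : (1 : ℝ) = if P j e then 1 else 0 := by rw [if_pos hj]
          exact h3.le.trans (single_le_sum (f := fun j => if P j e then (1 : ℝ) else 0)
            (fun j _ => by
              show 0 ≤ if P j e then (1 : ℝ) else 0
              split_ifs <;> norm_num) (mem_univ j))
    _ = ∑ j, ((S.filter (P j)).card : ℝ) := by
        rw [sum_comm]
        refine sum_congr rfl fun j _ => ?_
        rw [card_filter]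
        push_cast
        rfl
    _ ≤ ∑ _j : Fin 6, 2 * s * (L + 1) := sum_le_sum fun j _ => hPc j
    _ = 24 * δ * X + 12 * s := by
        rw [sum_const, card_univ, Fintype.card_fin, nsmul_eq_mul, hL, ← hss]
        push_cast
        ring

end Pool.Agent.PairFan
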