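import Pool.Agent.Lib_MP_92ef0c_pf.Pat4
import Pool.Agent.Lib_MP_92ef0c_pf.Conv

/-!
# MP_92ef0c_nt, PairFan: the statements for pairs of moduli and members of progressions
-/

set_option autoImplicit false

namespace Pool.Agent.PairFan

open Finset Pool.Agent.Spl Pool.Agent.SplB Pool.Agent.SplL Pool.Agent.OmEq Pool.Agent.LPr Filter

/-- the coprime pairs `(a, b)`, `Y < a, b ≤ 2 Y`, with `a b` coprime to `k` -/
noncomputable def pairs (k : ℕ) (Y : ℝ) : Finset (ℕ × ℕ) :=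
  (Icc (⌊Y⌋₊ + 1) ⌊2 * Y⌋₊ ×ˢ Icc (⌊Y⌋₊ + 1) ⌊2 * Y⌋₊).filter (fun V => V.1.Coprime V.2 ∧ (V.1 * V.2).Coprime k)

theorem mem_pairs {k : ℕ} {Y : ℝ} (hY : 0 ≤ Y) {V : ℕ × ℕ} : V ∈ pairs k Y ↔
    (Y < V.1 ∧ (V.1 : ℝ) ≤ 2 * Y) ∧ (Y < V.2 ∧ (V.2 : ℝ) ≤ 2 * Y) ∧ V.1.Coprime V.2 ∧ (V.1 * V.2).Coprime k := by
  have h1 : ∀ n : ℕ, (⌊Y⌋₊ + 1 ≤ n ∧ n ≤ ⌊2 * Y⌋₊) ↔ (Y < n ∧ (n : ℝ) ≤ 2 * Y) := by
    intro n
    rw [Nat.le_floor_iff (by linarith : (0 : ℝ) ≤ 2 * Y), ← Nat.floor_lt hY]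
    rfl
  unfold pairs
  rw [mem_filter, mem_product, mem_Icc, mem_Icc, h1, h1]
  tauto

/-- the members of the progression below `K a b k` -/
def prog (h k n0 K : ℕ) (V : ℕ × ℕ) : Finset ℕ :=
  (range (K * (V.1 * V.2 * k))).filter (fun n => V.2 ∣ n ∧ V.1 ∣ n + h ∧ n ≡ n0 [MOD k])

theorem sum_pairs {h k n0 : ℕ} (hQ : HQ h k n0) (i : ℕ) {Y : ℝ} (hY : (h : ℝ) + 1 ≤ Y) (f : ℕ × ℕ → ℝ) :
    ∑ V ∈ pairs k Y, f V = ∑ e ∈ bs h k n0 i (Y ^ 2), f (e.a, e.b) := by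
  have hh : (0 : ℝ) ≤ h := Nat.cast_nonneg h
  have hY0 : 0 < Y := by linarith
  symm
  refine sum_bij (fun e _ => (e.a, e.b)) ?_ ?_ ?_ (fun e _ => rfl)
  · intro e he
    obtain ⟨h1, h2, h3⟩ := bs_mem hY0.le he
    exact (mem_pairs hY0.le).2 ⟨h1, h2, mem_adm hQ h3⟩
  · intro e he e' he' heq
    rw [Prod.mk.injEq] at heq
    exact bs_inj hQ (by positivity) he he' heq.1 heq.2
  · rintro ⟨a, b⟩ hV
    obtain ⟨h1, h2, h3, h4⟩ := (mem_pairs hY0.le).1 hV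
    have ha : 0 < a := by
      have : (0 : ℝ) < a := by linarith [h1.1]
      exact_mod_cast this
    have hb : 0 < b := by
      have : (0 : ℝ) < b := by linarith [h2.1]
      exact_mod_cast this
    obtain ⟨n, hn, -⟩ := mem_ex (h := h) (n0 := n0) i ha hb hQ.posQ h3 h4
    obtain ⟨e, he, he2, -⟩ := mem_bs_ex hQ hY h1 h2 hn
    exact ⟨e, he, he2⟩

theorem pairs_card {h k n0 : ℕ} (hQ : HQ h k n0) (i : ℕ) {Y : ℝ} (hY : (h : ℝ) + 1 ≤ Y) :
    ((pairs k Y).card : ℝ) = ((bs h k n0 i (Y ^ 2)).card : ℝ) := by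
  have := sum_pairs hQ i hY (fun _ => 1)
  simpa using this

/-- the member of a level -/
theorem mem_iff {h k n0 : ℕ} (hQ : HQ h k n0) {i : ℕ} {Y : ℝ} (hY : 0 < Y) {e : Q4} (he : e ∈ bs h k n0 i (Y ^ 2)) (n : ℕ) :
    Mem h k n0 i (e.a, e.b) n ↔ n = e.b * e.c := by
  obtain ⟨h1, h2, h3⟩ := bs_mem hY.le he
  obtain ⟨⟨⟨-, pa, pb, -⟩, -⟩, -⟩ := (mem_bs (by positivity)).1 he
  obtain ⟨h4, h5⟩ := mem_adm hQ h3
  constructor
  · intro h6
    exact (mem_ex i pa pb hQ.posQ h4 h5).unique h6 h3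
  · rintro rfl
    exact h3

open Classical in
theorem filter_pairs {h k n0 : ℕ} (hQ : HQ h k n0) (i : ℕ) {Y : ℝ} (hY : (h : ℝ) + 1 ≤ Y) (P : ℕ × ℕ → ℕ → Prop) :
    (((pairs k Y).filter (fun V => ∃ n, Mem h k n0 i V n ∧ P V n)).card : ℝ) =
      ∑ e ∈ bs h k n0 i (Y ^ 2), if P (e.a, e.b) (e.b * e.c) then (1 : ℝ) else 0 := by
  have hh : (0 : ℝ) ≤ h := Nat.cast_nonneg h
  have hY0 : 0 < Y := by linarith
  rw [card_filter]
  push_cast
  rw [sum_pairs hQ i hY]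
  refine sum_congr rfl fun e he => ?_
  have h1 : (∃ n, Mem h k n0 i (e.a, e.b) n ∧ P (e.a, e.b) n) ↔ P (e.a, e.b) (e.b * e.c) := by
    constructor
    · rintro ⟨n, h2, h3⟩
      rwa [(mem_iff hQ hY0 he n).1 h2] at h3
    · intro h2
      exact ⟨_, (mem_iff hQ hY0 he _).2 rfl, h2⟩
  by_cases h2 : P (e.a, e.b) (e.b * e.c)
  · rw [if_pos (h1.2 h2), if_pos h2]
  · rw [if_neg (fun h3 => h2 (h1.1 h3)), if_neg h2]

/-- the sum over the progression -/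
theorem prog_sum {h k n0 : ℕ} (hQ : HQ h k n0) {Y : ℝ} (hY : 0 < Y) {e : Q4} (he : e ∈ bs h k n0 0 (Y ^ 2)) (K : ℕ)
    (g : ℕ → ℝ) : ∑ n ∈ prog h k n0 K (e.a, e.b), g n = ∑ s ∈ range K, g (e.b * e.c + s * (e.a * e.b * k)) := by
  obtain ⟨-, -, ⟨-, l2⟩, -⟩ := bs_mem hY.le he
  obtain ⟨⟨⟨hdet, pa, pb, pc, pd, hab, hcd⟩, hc⟩, -⟩ := (mem_bs (by positivity)).1 he
  obtain ⟨-, -, h3⟩ := bs_mem hY.le he
  obtain ⟨h4, h5⟩ := mem_adm hQ h3
  have hm : 0 < e.a * e.b * k := Nat.mul_pos (Nat.mul_pos pa pb) hQ.posQ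
  have l2' : e.b * e.c < e.a * e.b * k := by
    have : e.b * e.c < (0 + 1) * (e.a * e.b * k) := l2
    omega
  have hmem : ∀ s, e.b ∣ e.b * e.c + s * (e.a * e.b * k) ∧ e.a ∣ e.b * e.c + s * (e.a * e.b * k) + h ∧
      e.b * e.c + s * (e.a * e.b * k) ≡ n0 [MOD k] := by
    intro s
    refine ⟨?_, ?_, ?_⟩
    · have : e.b * e.c + s * (e.a * e.b * k) = e.b * (e.c + s * e.a * k) := by ring
      rw [this]
      exact Dvd.intro _ rfl
    · have : e.b * e.c + s * (e.a * e.b * k) + h = e.a * (e.d + s * e.b * k) := by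
        calc _ = (e.b * e.c + h) + s * (e.a * e.b * k) := by ring
          _ = e.a * e.d + s * (e.a * e.b * k) := by rw [hdet]
          _ = _ := by ring
      rw [this]
      exact Dvd.intro _ rfl
    · have h6 : e.b * e.c + s * (e.a * e.b * k) ≡ e.b * e.c + 0 [MOD k] :=
        Nat.ModEq.add_left _ ((Nat.modEq_zero_iff_dvd).2 ⟨s * (e.a * e.b), by ring⟩)
      rw [add_zero] at h6
      exact h6.trans hc
  symm
  refine sum_bij (fun s _ => e.b * e.c + s * (e.a * e.b * k)) ?_ ?_ ?_ (fun s _ => rfl)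
  · intro s hs
    rw [mem_range] at hs
    unfold prog
    rw [mem_filter, mem_range]
    refine ⟨?_, hmem s⟩
    show e.b * e.c + s * (e.a * e.b * k) < K * (e.a * e.b * k)
    have h6 : (s + 1) * (e.a * e.b * k) ≤ K * (e.a * e.b * k) := Nat.mul_le_mul_right _ hs
    have h7 : (s + 1) * (e.a * e.b * k) = s * (e.a * e.b * k) + e.a * e.b * k := by ring
    omega
  · intro s _ s' _ h6
    have h7 : s * (e.a * e.b * k) = s' * (e.a * e.b * k) := Nat.add_left_cancel h6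
    exact Nat.eq_of_mul_eq_mul_right hm h7
  · intro n hn
    unfold prog at hn
    rw [mem_filter, mem_range] at hn
    obtain ⟨n1, n2, n3, n4⟩ := hn
    have n1' : n < K * (e.a * e.b * k) := n1
    refine ⟨n / (e.a * e.b * k), ?_, ?_⟩
    · rw [mem_range]
      exact Nat.div_lt_of_lt_mul (by rw [mul_comm]; exact n1')
    · have h6 : Mem h k n0 (n / (e.a * e.b * k)) (e.a, e.b) n := by
        refine ⟨⟨?_, ?_⟩, n2, n3, n4⟩
        · exact Nat.div_mul_le_self n _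
        · show n < (n / (e.a * e.b * k) + 1) * (e.a * e.b * k)
          have := Nat.lt_mul_of_div_lt (Nat.lt_succ_self (n / (e.a * e.b * k))) hm
          exact this
      have h7 : Mem h k n0 (n / (e.a * e.b * k)) (e.a, e.b) (e.b * e.c + n / (e.a * e.b * k) * (e.a * e.b * k)) := by
        refine ⟨⟨?_, ?_⟩, hmem _⟩
        · exact Nat.le_add_left _ _
        · show e.b * e.c + n / (e.a * e.b * k) * (e.a * e.b * k) < (n / (e.a * e.b * k) + 1) * (e.a * e.b * k)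
          have h8 : (n / (e.a * e.b * k) + 1) * (e.a * e.b * k) =
              n / (e.a * e.b * k) * (e.a * e.b * k) + e.a * e.b * k := by ring
          omega
      exact (mem_ex _ pa pb hQ.posQ h4 h5).unique h7 h6

/-- the number of elements of `bs` -/
theorem bs_low {h k n0 : ℕ} (hQ : HQ h k n0) (i : ℕ) : ∃ κ : ℝ, 0 < κ ∧ ∀ᶠ X : ℝ in atTop,
    κ * X ≤ ((bs h k n0 i X).card : ℝ) := by
  obtain ⟨κ, hκ, h1⟩ := adm_low k hQ.posQ
  refine ⟨κ, hκ, ?_⟩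
  filter_upwards [Real.tendsto_sqrt_atTop.eventually h1, Real.tendsto_sqrt_atTop.eventually_ge_atTop ((h : ℝ) + 1),
    eventually_ge_atTop (0 : ℝ)] with X h2 h3 h4
  have h5 := conv_card hQ i h3
  rw [Real.sq_sqrt h4] at h2 h5
  rw [h5]
  exact h2

theorem sq_tt : Tendsto (fun Y : ℝ => Y ^ 2) atTop atTop := tendsto_pow_atTop two_ne_zero

/-- quotients over the pairs -/
theorem lim_pairs {h k n0 : ℕ} (hQ : HQ h k n0) (i : ℕ) {g : ℝ → Q4 → ℝ} {c : ℝ}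
    (h1 : Sm (bs h k n0 i) (fun X e => g X e - c)) (A : ℝ → ℝ)
    (hA : ∀ᶠ Y : ℝ in atTop, A Y = ∑ e ∈ bs h k n0 i (Y ^ 2), g (Y ^ 2) e) :
    Tendsto (fun Y : ℝ => A Y / ((pairs k Y).card : ℝ)) atTop (nhds c) := by
  obtain ⟨κ, hκ, hN⟩ := bs_low hQ i
  refine ((h1.ratio hκ hN).comp sq_tt).congr' ?_
  filter_upwards [hA, eventually_ge_atTop ((h : ℝ) + 1)] with Y h2 h3
  rw [Function.comp_apply, h2, pairs_card hQ i h3]

/-! ### The theorem -/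

/-- the conditions on one number -/
def Shape (q w r : ℕ) (u v : ℕ → ℝ) (l : ℕ → ℕ) (y : ℝ) (n : ℕ) : Prop :=
  ArithmeticFunction.cardFactors n ≡ w [MOD q] ∧ ∀ t < r, wc y (u t) (v t) n = l t

open Classical in
/-- the two-shift law -/
theorem fan_law (B : BS) {h k n0 : ℕ} (hQ : HQ h k n0) (i s : ℕ) (hs0 : 0 < s) (hs : s.primeFactors ⊆ k.primeFactors)
    (r : Fin 4 → ℕ) (u v : Fin 4 → ℕ → ℝ) (l : Fin 4 → ℕ → ℕ) (hu : ∀ j, ∀ t < r j, 0 < u j t ∧ u j t ≤ v j t)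
    (c : Fin 4 → ℝ) (hc : ∀ j, Dens (r j) (u j) (v j) (l j) (c j)) (q : ℕ) (hq : 0 < q) (w : Fin 4 → ℕ) :
    Tendsto (fun Y : ℝ => (((pairs k Y).filter (fun V => ∃ n, Mem h k n0 i V n ∧
      ∀ j, Shape q (w j) (r j) (u j) (v j) (l j) Y
        ((![(n + s * (V.1 * V.2 * k)) / V.2, (n + s * (V.1 * V.2 * k) + h) / V.1, n / V.2, (n + h) / V.1] :
          Fin 4 → ℕ) j))).card : ℝ) / ((pairs k Y).card : ℝ)) atTop (nhds ((∏ j, c j) / (q : ℝ) ^ 4)) := by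
  refine lim_pairs hQ i (law_fan B hQ i s hs r u v l hu c hc q hq w) _ ?_
  filter_upwards [eventually_ge_atTop ((h : ℝ) + 1)] with Y hY
  have hh : (0 : ℝ) ≤ h := Nat.cast_nonneg h
  have hY0 : 0 < Y := by linarith
  rw [filter_pairs hQ i hY (fun V n => ∀ j, Shape q (w j) (r j) (u j) (v j) (l j) Y
        ((![(n + s * (V.1 * V.2 * k)) / V.2, (n + s * (V.1 * V.2 * k) + h) / V.1, n / V.2, (n + h) / V.1] :
          Fin 4 → ℕ) j))]
  refine sum_congr rfl fun e he => ?_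
  obtain ⟨⟨⟨hdet, pa, pb, pc, pd, hab, hcd⟩, hc⟩, -⟩ := (mem_bs (by positivity)).1 he
  have e0 : tr (s * k) e = sh (s * k) e := if_neg (Nat.mul_pos hs0 hQ.posQ).ne'
  have k1 : (e.b * e.c + s * (e.a * e.b * k)) / e.b = e.c + s * k * e.a := by
    have : e.b * e.c + s * (e.a * e.b * k) = e.b * (e.c + s * k * e.a) := by ring
    rw [this, Nat.mul_div_cancel_left _ pb]
  have k2 : (e.b * e.c + s * (e.a * e.b * k) + h) / e.a = e.d + s * k * e.b := by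
    have : e.b * e.c + s * (e.a * e.b * k) + h = e.a * (e.d + s * k * e.b) := by
      calc _ = (e.b * e.c + h) + s * (e.a * e.b * k) := by ring
        _ = e.a * e.d + s * (e.a * e.b * k) := by rw [hdet]
        _ = _ := by ring
    rw [this, Nat.mul_div_cancel_left _ pa]
  have k3 : e.b * e.c / e.b = e.c := Nat.mul_div_cancel_left _ pb
  have k4 : (e.b * e.c + h) / e.a = e.d := by
    rw [← hdet, Nat.mul_div_cancel_left _ pa]
  have h1 : (∀ j, Shape q (w j) (r j) (u j) (v j) (l j) Y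
        ((![(e.b * e.c + s * (e.a * e.b * k)) / e.b, (e.b * e.c + s * (e.a * e.b * k) + h) / e.a, e.b * e.c / e.b,
          (e.b * e.c + h) / e.a] : Fin 4 → ℕ) j)) ↔ PC q w r u v l (Y ^ 2) (tr (s * k) e) := by
    rw [k1, k2, k3, k4, e0]
    unfold PC Shape
    rw [Real.sqrt_sq hY0.le]
    rfl
  by_cases h2 : PC q w r u v l (Y ^ 2) (tr (s * k) e)
  · rw [if_pos (h1.2 h2), if_pos h2]
  · rw [if_neg (fun h3 => h2 (h1.1 h3)), if_neg h2]

/-- the number of pairs with a prescribed sign pattern at the levels `i, i + 1, i + 2` -/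
def patN (h k n0 : ℕ) (σ : Fin 3 → ℤ) (i : ℕ) (V : ℕ × ℕ) : Prop :=
  ∃ n, Mem h k n0 i V n ∧ chi h n = σ 0 ∧ chi h (n + V.1 * V.2 * k) = σ 1 ∧ chi h (n + 2 * (V.1 * V.2 * k)) = σ 2

open Classical in
theorem fan_pat (B : BS) {h k n0 : ℕ} (hQ : HQ h k n0) (h6 : 6 ∣ k) (i : ℕ) (σ : Fin 3 → ℤ)
    (hσ : ∀ j, σ j = 1 ∨ σ j = -1) (ε : ℝ) (hε : 0 < ε) : ∀ᶠ Y : ℝ in atTop,
    (1 / 8 - ε) * ((pairs k Y).card : ℝ) ≤ (((pairs k Y).filter (patN h k n0 σ i)).card : ℝ) +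
      (((pairs k Y).filter (patN h k n0 σ (i + 1))).card : ℝ) := by
  obtain ⟨κ, hκ, hN⟩ := bs_low hQ i
  have h1 := pat_low B hQ h6 i (σ 0) (σ 1) (σ 2) (hσ 0) (hσ 1) (hσ 2) (ε * κ) (by positivity)
  filter_upwards [sq_tt.eventually hN, sq_tt.eventually h1, sq_tt.eventually (ev_sqrt h),
    eventually_ge_atTop ((h : ℝ) + 1)] with Y h2 h3 h4 h5
  have hh : (0 : ℝ) ≤ h := Nat.cast_nonneg h
  have hY0 : 0 < Y := by linarith
  have g1 : (((pairs k Y).filter (patN h k n0 σ i)).card : ℝ) =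
      (((bs h k n0 i (Y ^ 2)).filter (fun e => xs h k 0 e = σ 0 ∧ xs h k 1 e = σ 1 ∧ xs h k 2 e = σ 2)).card : ℝ) := by
    have := filter_pairs hQ i h5 (fun V n => chi h n = σ 0 ∧ chi h (n + V.1 * V.2 * k) = σ 1 ∧
      chi h (n + 2 * (V.1 * V.2 * k)) = σ 2)
    refine Eq.trans (Eq.trans ?_ this) ?_
    · rfl
    · rw [card_filter]
      push_cast
      refine sum_congr rfl fun e _ => ?_
      unfold xs
      simp only [zero_mul, add_zero, one_mul]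
      split_ifs <;> rfl
  have g2 : (((pairs k Y).filter (patN h k n0 σ (i + 1))).card : ℝ) =
      (((bs h k n0 i (Y ^ 2)).filter (fun e => xs h k 1 e = σ 0 ∧ xs h k 2 e = σ 1 ∧ xs h k 3 e = σ 2)).card : ℝ) := by
    have := filter_pairs hQ (i + 1) h5 (fun V n => chi h n = σ 0 ∧ chi h (n + V.1 * V.2 * k) = σ 1 ∧
      chi h (n + 2 * (V.1 * V.2 * k)) = σ 2)
    refine Eq.trans (Eq.trans ?_ this) ?_
    · rfl
    · have g3 := sum_up (M := ℝ) hQ i 1 (sq_nonneg Y) h4.2 (fun e => if xs h k 0 e = σ 0 ∧ xs h k 1 e = σ 1 ∧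
        xs h k 2 e = σ 2 then (1 : ℝ) else 0)
      rw [card_filter]
      push_cast
      refine Eq.trans (Eq.trans ?_ g3.symm) ?_
      · refine sum_congr rfl fun e _ => ?_
        unfold xs
        simp only [zero_mul, add_zero, one_mul]
        split_ifs <;> rfl
      · refine sum_congr rfl fun e _ => ?_
        rw [xs_up, xs_up, xs_up]
  rw [g1, g2, pairs_card hQ i h5]
  have g3 : ε * (κ * Y ^ 2) ≤ ε * ((bs h k n0 i (Y ^ 2)).card : ℝ) := mul_le_mul_of_nonneg_left h2 hε.le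
  linarith

theorem fan_var (B : BS) {h k n0 : ℕ} (hQ : HQ h k n0) (K : ℕ) (hK : ∀ d, 0 < d → d < K → d.primeFactors ⊆ k.primeFactors) :
    Tendsto (fun Y : ℝ => (∑ V ∈ pairs k Y, (∑ n ∈ prog h k n0 K V, (chi h n : ℝ)) ^ 2) / ((pairs k Y).card : ℝ)) atTop
      (nhds K) := by
  refine lim_pairs hQ 0 (var_x B hQ 0 K hK) _ ?_
  filter_upwards [eventually_ge_atTop ((h : ℝ) + 1)] with Y hY
  have hh : (0 : ℝ) ≤ h := Nat.cast_nonneg h
  have hY0 : 0 < Y := by linarith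
  rw [sum_pairs hQ 0 hY]
  refine sum_congr rfl fun e he => ?_
  rw [prog_sum hQ hY0 he]
  rfl

open Classical in
theorem fan_varF (B : BS) {h k n0 : ℕ} (hQ : HQ h k n0) (K : ℕ) (hK : ∀ d, 0 < d → d < K → d.primeFactors ⊆ k.primeFactors)
    (r : Fin 2 → ℕ) (u v : Fin 2 → ℕ → ℝ) (l : Fin 2 → ℕ → ℕ) (hu : ∀ j, ∀ t < r j, 0 < u j t ∧ u j t ≤ v j t)
    (c : Fin 2 → ℝ) (hc : ∀ j, Dens (r j) (u j) (v j) (l j) (c j)) (q : ℕ) (hq : 0 < q) (w : Fin 2 → ℕ) (p : ℝ)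
    (hp : p = c 0 * c 1 / (q : ℝ) ^ 2) :
    Tendsto (fun Y : ℝ => (∑ V ∈ pairs k Y, ((((prog h k n0 K V).filter (fun n =>
      Shape q (w 0) (r 0) (u 0) (v 0) (l 0) Y (n / V.2) ∧
      Shape q (w 1) (r 1) (u 1) (v 1) (l 1) Y ((n + h) / V.1))).card : ℝ) - K * p) ^ 2) / ((pairs k Y).card : ℝ)) atTop
      (nhds (K * (p - p ^ 2))) := by
  rw [hp]
  refine lim_pairs hQ 0 (var_F B hQ hq hu hc 0 K hK (w := w)) _ ?_
  filter_upwards [eventually_ge_atTop ((h : ℝ) + 1)] with Y hY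
  have hh : (0 : ℝ) ≤ h := Nat.cast_nonneg h
  have hY0 : 0 < Y := by linarith
  rw [sum_pairs hQ 0 hY]
  refine sum_congr rfl fun e he => ?_
  congr 2
  rw [card_filter]
  push_cast
  rw [prog_sum hQ hY0 he]
  obtain ⟨⟨⟨hdet, pa, pb, pc, pd, hab, hcd⟩, hc⟩, -⟩ := (mem_bs (by positivity)).1 he
  refine sum_congr rfl fun s _ => ?_
  have k1 : (e.b * e.c + s * (e.a * e.b * k)) / e.b = e.c + s * k * e.a := by
    have : e.b * e.c + s * (e.a * e.b * k) = e.b * (e.c + s * k * e.a) := by ring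
    rw [this, Nat.mul_div_cancel_left _ pb]
  have k2 : (e.b * e.c + s * (e.a * e.b * k) + h) / e.a = e.d + s * k * e.b := by
    have : e.b * e.c + s * (e.a * e.b * k) + h = e.a * (e.d + s * k * e.b) := by
      calc _ = (e.b * e.c + h) + s * (e.a * e.b * k) := by ring
        _ = e.a * e.d + s * (e.a * e.b * k) := by rw [hdet]
        _ = _ := by ring
    rw [this, Nat.mul_div_cancel_left _ pa]
  rw [k1, k2]
  unfold gF FF Shape
  rw [Real.sqrt_sq hY0.le]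
  split_ifs <;> rfl

end Pool.Agent.PairFan
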