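import Pool.Agent.Lib_MP_92ef0c_pf.D1

/-!
# MP_92ef0c_nt, PairFan: from test functions of `(y, t, u)` to test functions of the entries divided by `√X`
-/

set_option autoImplicit false

namespace Pool.Agent.PairFan

open Finset Pool.Agent.Spl Pool.Agent.SplB Pool.Agent.SplL Filter

/-- the weight as a function of `y, t, u` and `θ = n / X` -/
noncomputable def gK (G : ℝ → ℝ → ℝ → ℝ → ℝ) (p : ℝ × ℝ × ℝ × ℝ) : ℝ :=
  G (Real.sqrt ((p.1 + p.2.2.2) * Real.exp (-p.2.1))) (Real.sqrt (p.1 * Real.exp (-p.2.2.1)))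
    (Real.sqrt (p.1 * Real.exp p.2.2.1)) (Real.sqrt ((p.1 + p.2.2.2) * Real.exp p.2.1))

theorem gK_cont {G : ℝ → ℝ → ℝ → ℝ → ℝ} (hG : Continuous (fun v : ℝ × ℝ × ℝ × ℝ => G v.1 v.2.1 v.2.2.1 v.2.2.2)) :
    Continuous (gK G) := by
  have h1 : Continuous (fun p : ℝ × ℝ × ℝ × ℝ => ((Real.sqrt ((p.1 + p.2.2.2) * Real.exp (-p.2.1)),
      Real.sqrt (p.1 * Real.exp (-p.2.2.1)), Real.sqrt (p.1 * Real.exp p.2.2.1),
      Real.sqrt ((p.1 + p.2.2.2) * Real.exp p.2.1)) : ℝ × ℝ × ℝ × ℝ)) := by fun_prop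
  exact hG.comp h1

/-- the support -/
theorem gK_supp {G : ℝ → ℝ → ℝ → ℝ → ℝ} {R : ℝ} (hR : 1 ≤ R)
    (hs : ∀ x1 x2 x3 x4 : ℝ, 0 < x1 → 0 < x2 → 0 < x3 → 0 < x4 → x2 * x3 ≤ x1 * x4 → x1 * x4 ≤ x2 * x3 + 1 →
      G x1 x2 x3 x4 ≠ 0 → (x1 ≤ R ∧ x2 ≤ R ∧ x3 ≤ R ∧ x4 ≤ R) ∧ (1 ≤ R * x1 ∧ 1 ≤ R * x2 ∧ 1 ≤ R * x3 ∧ 1 ≤ R * x4))
    {y t u θ : ℝ} (hy : 0 < y) (hθ : 0 ≤ θ) (hθ1 : θ ≤ 1) (h : gK G (y, t, u, θ) ≠ 0) :
    y ≤ R ^ 2 ∧ |t| ≤ 2 * Real.log R ∧ |u| ≤ 2 * Real.log R := by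
  have hR0 : 0 < R := by linarith
  have hyθ : 0 < y + θ := by linarith
  unfold gK at h
  simp only at h
  obtain ⟨x1, e1⟩ : ∃ x1, x1 = Real.sqrt ((y + θ) * Real.exp (-t)) := ⟨_, rfl⟩
  obtain ⟨x2, e2⟩ : ∃ x2, x2 = Real.sqrt (y * Real.exp (-u)) := ⟨_, rfl⟩
  obtain ⟨x3, e3⟩ : ∃ x3, x3 = Real.sqrt (y * Real.exp u) := ⟨_, rfl⟩
  obtain ⟨x4, e4⟩ : ∃ x4, x4 = Real.sqrt ((y + θ) * Real.exp t) := ⟨_, rfl⟩
  rw [← e1, ← e2, ← e3, ← e4] at h
  have p1 : 0 < x1 := by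
    rw [e1]
    exact Real.sqrt_pos.2 (by positivity)
  have p2 : 0 < x2 := by
    rw [e2]
    exact Real.sqrt_pos.2 (by positivity)
  have p3 : 0 < x3 := by
    rw [e3]
    exact Real.sqrt_pos.2 (by positivity)
  have p4 : 0 < x4 := by
    rw [e4]
    exact Real.sqrt_pos.2 (by positivity)
  have m1 : x1 * x4 = y + θ := by
    rw [e1, e4, ← Real.sqrt_mul (by positivity)]
    have : (y + θ) * Real.exp (-t) * ((y + θ) * Real.exp t) = (y + θ) * (y + θ) * (Real.exp (-t) * Real.exp t) := by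
      ring
    rw [this, ← Real.exp_add, neg_add_cancel, Real.exp_zero, mul_one, Real.sqrt_mul_self hyθ.le]
  have m2 : x2 * x3 = y := by
    rw [e2, e3, ← Real.sqrt_mul (by positivity)]
    have : y * Real.exp (-u) * (y * Real.exp u) = y * y * (Real.exp (-u) * Real.exp u) := by ring
    rw [this, ← Real.exp_add, neg_add_cancel, Real.exp_zero, mul_one, Real.sqrt_mul_self hy.le]
  obtain ⟨⟨b1, b2, b3, b4⟩, c1, c2, c3, c4⟩ := hs x1 x2 x3 x4 p1 p2 p3 p4 (by rw [m1, m2]; linarith)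
    (by rw [m1, m2]; linarith) h
  have l1 : Real.log x1 = (Real.log (y + θ) - t) / 2 := by
    rw [e1, Real.log_sqrt (by positivity), Real.log_mul hyθ.ne' (Real.exp_pos _).ne', Real.log_exp]
    ring
  have l4 : Real.log x4 = (Real.log (y + θ) + t) / 2 := by
    rw [e4, Real.log_sqrt (by positivity), Real.log_mul hyθ.ne' (Real.exp_pos _).ne', Real.log_exp]
  have l2 : Real.log x2 = (Real.log y - u) / 2 := by
    rw [e2, Real.log_sqrt (by positivity), Real.log_mul hy.ne' (Real.exp_pos _).ne', Real.log_exp]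
    ring
  have l3 : Real.log x3 = (Real.log y + u) / 2 := by
    rw [e3, Real.log_sqrt (by positivity), Real.log_mul hy.ne' (Real.exp_pos _).ne', Real.log_exp]
  have up : ∀ x : ℝ, 0 < x → x ≤ R → Real.log x ≤ Real.log R := fun x hx h => Real.log_le_log hx h
  have lo : ∀ x : ℝ, 0 < x → 1 ≤ R * x → -Real.log R ≤ Real.log x := by
    intro x hx h
    have h1 := Real.log_le_log one_pos h
    rw [Real.log_one, Real.log_mul hR0.ne' hx.ne'] at h1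
    linarith
  have u1 := up x1 p1 b1
  have u2 := up x2 p2 b2
  have u3 := up x3 p3 b3
  have u4 := up x4 p4 b4
  have d1 := lo x1 p1 c1
  have d2 := lo x2 p2 c2
  have d3 := lo x3 p3 c3
  have d4 := lo x4 p4 c4
  refine ⟨?_, ?_, ?_⟩
  · rw [← m2]
    calc x2 * x3 ≤ R * R := mul_le_mul b2 b3 p3.le hR0.le
      _ = R ^ 2 := by ring
  · rw [abs_le]
    constructor <;> linarith
  · rw [abs_le]
    constructor <;> linarith

/-- the entries -/
theorem gK_entry (G : ℝ → ℝ → ℝ → ℝ → ℝ) {n : ℕ} {X : ℝ} (hX : 0 < X) {e : Q4} (he : Sn n e) :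
    G (e.a / Real.sqrt X) (e.b / Real.sqrt X) (e.c / Real.sqrt X) (e.d / Real.sqrt X) =
      gK G (yS e / X, tS e, uS e, n / X) := by
  obtain ⟨hdet, ha0, hb0, hc0, hd0, -, -⟩ := he
  have hdet' : (e.a : ℝ) * e.d = e.b * e.c + n := by exact_mod_cast hdet
  have a0 : (0 : ℝ) < e.a := by exact_mod_cast ha0
  have b0 : (0 : ℝ) < e.b := by exact_mod_cast hb0
  have c0 : (0 : ℝ) < e.c := by exact_mod_cast hc0
  have d0 : (0 : ℝ) < e.d := by exact_mod_cast hd0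
  have hq : ∀ x : ℝ, 0 < x → Real.sqrt (x * x / X) = x / Real.sqrt X := by
    intro x hx
    rw [Real.sqrt_div (by positivity), Real.sqrt_mul_self hx.le]
  have hexp : ∀ x z : ℝ, 0 < x → 0 < z → Real.exp (Real.log x - Real.log z) = x / z := by
    intro x z hx hz
    rw [Real.exp_sub, Real.exp_log hx, Real.exp_log hz]
  unfold gK yS tS uS
  simp only
  have s1 : ((e.b : ℝ) * e.c / X + n / X) = e.a * e.d / X := by
    rw [← add_div, hdet']
  have r1 : ((e.b : ℝ) * e.c / X + n / X) * Real.exp (-(Real.log e.d - Real.log e.a)) = e.a * e.a / X := by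
    rw [s1, neg_sub, hexp _ _ a0 d0]
    field_simp
  have r4 : ((e.b : ℝ) * e.c / X + n / X) * Real.exp (Real.log e.d - Real.log e.a) = e.d * e.d / X := by
    rw [s1, hexp _ _ d0 a0]
    field_simp
  have r2 : ((e.b : ℝ) * e.c / X) * Real.exp (-(Real.log e.c - Real.log e.b)) = e.b * e.b / X := by
    rw [neg_sub, hexp _ _ b0 c0]
    field_simp
  have r3 : ((e.b : ℝ) * e.c / X) * Real.exp (Real.log e.c - Real.log e.b) = e.c * e.c / X := by
    rw [hexp _ _ c0 b0]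
    field_simp
  rw [r1, r2, r3, r4, hq _ a0, hq _ b0, hq _ c0, hq _ d0]

/-- the limit weight is a test function -/
theorem gK_ts {G : ℝ → ℝ → ℝ → ℝ → ℝ} (hG : Continuous (fun v : ℝ × ℝ × ℝ × ℝ => G v.1 v.2.1 v.2.2.1 v.2.2.2))
    (hz : G 0 0 0 0 = 0) {R : ℝ} (hR : 1 ≤ R)
    (hs : ∀ x1 x2 x3 x4 : ℝ, 0 < x1 → 0 < x2 → 0 < x3 → 0 < x4 → x2 * x3 ≤ x1 * x4 → x1 * x4 ≤ x2 * x3 + 1 →
      G x1 x2 x3 x4 ≠ 0 → (x1 ≤ R ∧ x2 ≤ R ∧ x3 ≤ R ∧ x4 ≤ R) ∧ (1 ≤ R * x1 ∧ 1 ≤ R * x2 ∧ 1 ≤ R * x3 ∧ 1 ≤ R * x4)) :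
    TS (R ^ 2 + 1) (fun y t u => ((gK G (y, t, u, 0) : ℝ) : ℂ)) := by
  have hlo : ∀ y t u : ℝ, y ≤ 0 → gK G (y, t, u, 0) = 0 := by
    intro y t u hy
    have h1 : ∀ s : ℝ, Real.sqrt (y * Real.exp s) = 0 := fun s =>
      Real.sqrt_eq_zero_of_nonpos (mul_nonpos_of_nonpos_of_nonneg hy (Real.exp_pos _).le)
    unfold gK
    simp only [add_zero, h1]
    exact hz
  have hc : Continuous (fun v : ℝ × ℝ × ℝ => ((v.1, v.2.1, v.2.2, 0) : ℝ × ℝ × ℝ × ℝ)) := by fun_prop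
  refine ⟨?_, ?_, fun y t u hy => ?_, fun y t u hy => ?_⟩
  · exact Complex.continuous_ofReal.comp ((gK_cont hG).comp hc)
  · refine HasCompactSupport.intro (K := Set.Icc 0 (R ^ 2) ×ˢ (Set.Icc (-(2 * Real.log R)) (2 * Real.log R) ×ˢ
      Set.Icc (-(2 * Real.log R)) (2 * Real.log R))) (isCompact_Icc.prod (isCompact_Icc.prod isCompact_Icc)) ?_
    rintro ⟨y, t, u⟩ hv
    simp only
    by_contra h
    have h0 : gK G (y, t, u, 0) ≠ 0 := fun h1 => h (by rw [h1, Complex.ofReal_zero])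
    have hy : 0 < y := by
      by_contra hy
      exact h0 (hlo y t u (not_lt.1 hy))
    obtain ⟨k1, k2, k3⟩ := gK_supp hR hs hy le_rfl zero_le_one h0
    rw [abs_le] at k2 k3
    exact hv ⟨⟨hy.le, k1⟩, k2, k3⟩
  · rw [hlo y t u hy, Complex.ofReal_zero]
  · by_contra h
    have h0 : gK G (y, t, u, 0) ≠ 0 := fun h1 => h (by rw [h1, Complex.ofReal_zero])
    have hy0 : 0 < y := by nlinarith [sq_nonneg R]
    obtain ⟨k1, -, -⟩ := gK_supp hR hs hy0 le_rfl zero_le_one h0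
    linarith

theorem gsum (n : ℕ) (hn : 0 < n) (Φ : ℝ → Q4 → ℂ) (hΦ : ∀ X e, ‖Φ X e‖ ≤ 1)
    (H : ∀ (b : ℝ) (W : ℝ → ℝ → ℝ → ℂ), TS b W →
      Tendsto (fun X : ℝ => (∑ e ∈ SN n (b * X), Φ X e * W (yS e / X) (tS e) (uS e)) / X) atTop (nhds 0))
    (G : ℝ → ℝ → ℝ → ℝ → ℝ) (hG : Continuous (fun v : ℝ × ℝ × ℝ × ℝ => G v.1 v.2.1 v.2.2.1 v.2.2.2))
    (hz : G 0 0 0 0 = 0) (R : ℝ) (hR : 1 ≤ R)
    (hs : ∀ x1 x2 x3 x4 : ℝ, 0 < x1 → 0 < x2 → 0 < x3 → 0 < x4 → x2 * x3 ≤ x1 * x4 → x1 * x4 ≤ x2 * x3 + 1 →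
      G x1 x2 x3 x4 ≠ 0 → (x1 ≤ R ∧ x2 ≤ R ∧ x3 ≤ R ∧ x4 ≤ R) ∧ (1 ≤ R * x1 ∧ 1 ≤ R * x2 ∧ 1 ≤ R * x3 ∧ 1 ≤ R * x4)) :
    Tendsto (fun X : ℝ => (∑ e ∈ SN n (R ^ 2 * X), Φ X e *
      ((G (e.a / Real.sqrt X) (e.b / Real.sqrt X) (e.c / Real.sqrt X) (e.d / Real.sqrt X) : ℝ) : ℂ)) / X)
      atTop (nhds 0) := by
  have hTS := gK_ts hG hz hR hs
  have h1 := H _ _ hTS
  -- restriction of the range
  have h2 : Tendsto (fun X : ℝ => (∑ e ∈ SN n (R ^ 2 * X), Φ X e * ((gK G (yS e / X, tS e, uS e, 0) : ℝ) : ℂ)) / X)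
      atTop (nhds 0) := by
    refine h1.congr' ?_
    filter_upwards [eventually_gt_atTop (0 : ℝ)] with X hX
    congr 1
    symm
    refine sum_subset ?_ ?_
    · intro e he
      rw [mem_SN] at he ⊢
      exact ⟨he.1, he.2.trans (by nlinarith)⟩
    · intro e he he'
      rw [mem_SN] at he he'
      have h3 : R ^ 2 * X < yS e := by
        by_contra h4
        exact he' ⟨he.1, not_lt.1 h4⟩
      have h4 : gK G (yS e / X, tS e, uS e, 0) = 0 := by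
        by_contra h5
        have h6 : 0 < yS e / X := div_pos (by linarith [yS_pos he.1]) hX
        obtain ⟨k1, -, -⟩ := gK_supp hR hs h6 le_rfl zero_le_one h5
        rw [div_le_iff₀ hX] at k1
        linarith
      rw [h4, Complex.ofReal_zero, mul_zero]
  -- the difference
  obtain ⟨B, hB⟩ : ∃ B : ℝ, B = 2 * Real.log R := ⟨_, rfl⟩
  obtain ⟨C, hC, hcnt⟩ := cnt3 B
  have hcomp : IsCompact (Set.Icc (0 : ℝ) (R ^ 2) ×ˢ (Set.Icc (-B) B ×ˢ (Set.Icc (-B) B ×ˢ Set.Icc (0 : ℝ) 1))) :=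
    isCompact_Icc.prod (isCompact_Icc.prod (isCompact_Icc.prod isCompact_Icc))
  have huc := hcomp.uniformContinuousOn_of_continuous (gK_cont hG).continuousOn
  have hR2 : (1 : ℝ) ≤ R ^ 2 := one_le_pow₀ hR
  have h3 : Tendsto (fun X : ℝ => (∑ e ∈ SN n (R ^ 2 * X), (Φ X e *
      ((G (e.a / Real.sqrt X) (e.b / Real.sqrt X) (e.c / Real.sqrt X) (e.d / Real.sqrt X) : ℝ) : ℂ) -
      Φ X e * ((gK G (yS e / X, tS e, uS e, 0) : ℝ) : ℂ))) / X) atTop (nhds 0) := by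
    rw [Metric.tendsto_atTop]
    intro ε hε
    have hε' : 0 < ε / (2 * (C * R ^ 2)) := by positivity
    obtain ⟨η, hη, hK2⟩ := Metric.uniformContinuousOn_iff.1 huc (ε / (2 * (C * R ^ 2))) hε'
    refine ⟨max 1 (max n (2 * n / η)), fun X hX => ?_⟩
    have x1 : 1 ≤ X := (le_max_left _ _).trans hX
    have x2 : (n : ℝ) ≤ X := ((le_max_left _ _).trans (le_max_right _ _)).trans hX
    have x4 : 2 * (n : ℝ) / η ≤ X := ((le_max_right _ _).trans (le_max_right _ _)).trans hX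
    have hX0 : 0 < X := by linarith
    have hn' : (0 : ℝ) < n := by exact_mod_cast hn
    have y1 : (n : ℝ) ≤ R ^ 2 * X := by nlinarith
    have y2 : (n : ℝ) / X ≤ 1 := by
      rw [div_le_one hX0]
      exact x2
    have y3 : (n : ℝ) / X < η := by
      rw [div_le_iff₀ hη] at x4
      rw [div_lt_iff₀ hX0]
      nlinarith
    have y4 : 0 ≤ (n : ℝ) / X := by positivity
    have hterm : ∀ e ∈ SN n (R ^ 2 * X),
        ‖Φ X e * ((G (e.a / Real.sqrt X) (e.b / Real.sqrt X) (e.c / Real.sqrt X) (e.d / Real.sqrt X) : ℝ) : ℂ) -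
        Φ X e * ((gK G (yS e / X, tS e, uS e, 0) : ℝ) : ℂ)‖ ≤
        if |tS e| ≤ B ∧ |uS e| ≤ B then ε / (2 * (C * R ^ 2)) else 0 := by
      intro e he
      rw [mem_SN] at he
      obtain ⟨he1, he2⟩ := he
      have hy0 : 0 < yS e / X := div_pos (by linarith [yS_pos he1]) hX0
      have hyb : yS e / X ≤ R ^ 2 := by
        rw [div_le_iff₀ hX0]
        exact he2
      rw [← mul_sub, norm_mul, gK_entry G hX0 he1, ← Complex.ofReal_sub, Complex.norm_real]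
      refine (mul_le_of_le_one_left (norm_nonneg _) (hΦ X e)).trans ?_
      by_cases hall : |tS e| ≤ B ∧ |uS e| ≤ B
      · obtain ⟨k2, k3⟩ := hall
        rw [if_pos ⟨k2, k3⟩, ← dist_eq_norm]
        rw [abs_le] at k2 k3
        refine (hK2 _ ?_ _ ?_ ?_).le
        · exact ⟨⟨hy0.le, hyb⟩, ⟨k2, ⟨k3, ⟨y4, y2⟩⟩⟩⟩
        · exact ⟨⟨hy0.le, hyb⟩, ⟨k2, ⟨k3, ⟨le_refl _, zero_le_one⟩⟩⟩⟩
        · rw [Prod.dist_eq, Prod.dist_eq, Prod.dist_eq]
          simp only [dist_self]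
          rw [Real.dist_eq, sub_zero, abs_of_nonneg y4]
          exact max_lt hη (max_lt hη (max_lt hη y3))
      · have z1 : gK G (yS e / X, tS e, uS e, n / X) = 0 := by
          by_contra h4
          apply hall
          rw [hB]
          exact (gK_supp hR hs hy0 y4 y2 h4).2
        have z2 : gK G (yS e / X, tS e, uS e, 0) = 0 := by
          by_contra h4
          apply hall
          rw [hB]
          exact (gK_supp hR hs hy0 le_rfl zero_le_one h4).2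
        rw [z1, z2, sub_zero, norm_zero, if_neg hall]
    rw [dist_zero_right, norm_div, Complex.norm_real, Real.norm_eq_abs, abs_of_pos hX0,
      div_lt_iff₀ hX0]
    refine lt_of_le_of_lt (norm_sum_le_of_le _ hterm) ?_
    rw [← sum_filter, sum_const, nsmul_eq_mul]
    have h5 := hcnt n hn (R ^ 2 * X) y1
    have h6 : (((SN n (R ^ 2 * X)).filter (fun e => |tS e| ≤ B ∧ |uS e| ≤ B)).card : ℝ) *
        (ε / (2 * (C * R ^ 2))) ≤ C * (R ^ 2 * X) * (ε / (2 * (C * R ^ 2))) := by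
      refine mul_le_mul_of_nonneg_right (le_trans (le_of_eq ?_) h5) hε'.le
      congr 2
    refine lt_of_le_of_lt (le_trans (le_of_eq ?_) h6) ?_
    · congr 3
    have h7 : C * (R ^ 2 * X) * (ε / (2 * (C * R ^ 2))) = ε * X / 2 := by
      have : R ^ 2 ≠ 0 := by positivity
      field_simp
    rw [h7]
    have : 0 < ε * X := by positivity
    linarith
  have h4 := h3.add h2
  rw [add_zero] at h4
  refine h4.congr fun X => ?_
  rw [← add_div, ← sum_add_distrib]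
  congr 1
  refine sum_congr rfl fun e _ => ?_
  ring

end Pool.Agent.PairFan
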