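import Pool.Agent.Lib_MP_92ef0c_pf.D1

/-!
# MP_92ef0c_nt, PairFan: the law with windows from the means

PROOF. Copy of the second half of the proof of `law4` (`Lib_MP_92ef0c_la/Law4.lean`): `ind1`, `prod_univ_sum`, `cf_sum`; here the
sums are differences with the product of the means (`hmean`), and `∑ p, (∏ cf) * ∏ mm = ∏ (c i / q)`.
-/

set_option autoImplicit false

namespace Pool.Agent.PairFan

open Finset Pool.Agent.Spl Pool.Agent.SplB Pool.Agent.SplL Pool.Agent.OmEq Pool.Agent.LPr Filter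

open Classical in
theorem law_gen (B : BS) {Q : ℕ} (hQ : 0 < Q) (S : ℝ → Finset Q4) (T : Q4 → Q4)
    (hent : ∀ᶠ X : ℝ in atTop, ∀ e ∈ S X, ∀ i, ent i (T e) ≠ 0 ∧ (ent i (T e)).Coprime Q ∧
      (ent i (T e) : ℝ) ≤ Real.sqrt X ^ 3)
    (hmean : ∀ (q : ℕ) (z : Fin 4 → ℂ) (f : Fin 4 → ℝ → ℕ → ℂ) (m : Fin 4 → ℂ), 0 < q → (∀ i, z i ^ q = 1) →
      (∀ i, FS Q (z i) (f i)) → (∀ i, Tendsto (mf Q (f i)) atTop (nhds (m i))) →
      Tendsto (fun X : ℝ => (∑ e ∈ S X, (∏ i, f i X (ent i (T e)) - ∏ i, m i)) / X) atTop (nhds 0))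
    (q K : ℕ) (u0 : ℝ) (r : Fin 4 → ℕ) (u v : Fin 4 → ℕ → ℝ) (k : Fin 4 → ℕ → ℕ) (c : Fin 4 → ℝ) (hq : 0 < q)
    (hu0 : 0 < u0) (hu : ∀ i, ∀ j < r i, u0 ≤ u i j ∧ u i j ≤ v i j) (hKu : 3 < K * u0)
    (hk : ∀ i, ∀ j < r i, k i j < K) (hc : ∀ i, (c i : ℂ) = cG K (u i) (v i) (r i) (k i)) (s : Fin 4 → ℕ) :
    Tendsto (fun X : ℝ => ((((S X).filter (fun e => PC q s r u v k X (T e))).card : ℝ) -
      (∏ i, c i) / (q : ℝ) ^ 4 * ((S X).card : ℝ)) / X) atTop (nhds 0) := by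
  have hK : 0 < K := by
    rcases Nat.eq_zero_or_pos K with h | h
    · exfalso
      rw [h, Nat.cast_zero, zero_mul] at hKu
      linarith
    · exact h
  have hterm : ∀ p ∈ Fintype.piFinset (fun i : Fin 4 => ix q K (r i)),
      Tendsto (fun X : ℝ => (∏ i, cf q K (r i) (s i) (k i) (p i)) * ((∑ e ∈ S X,
        (∏ i, fxr Q (zq q ^ (p i).1) (phg K (u i) (v i) (r i) (p i).2) X (ent i (T e)) -
          ∏ i, mm (zq q ^ (p i).1) (phg K (u i) (v i) (r i) (p i).2))) / X)) atTop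
        (nhds ((∏ i, cf q K (r i) (s i) (k i) (p i)) * 0)) := by
    intro p _
    have hst : ∀ i, StepF (phg K (u i) (v i) (r i) (p i).2) := fun i =>
      phg_step K hK (u i) (v i) (r i) (fun j hj => ⟨hu0.trans_le (hu i j hj).1, (hu i j hj).2⟩) _
    have h1 := hmean q (fun i => zq q ^ (p i).1) (fun i => fxr Q (zq q ^ (p i).1) (phg K (u i) (v i) (r i) (p i).2))
      (fun i => mm (zq q ^ (p i).1) (phg K (u i) (v i) (r i) (p i).2)) hq (fun i => zq_root hq _)
      (fun i => fs_fx Q _ (fine_norm q hq _) _ (hst i))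
      (fun i => mf_fx B q Q hq hQ _ (zq_root hq _) _ (hst i))
    exact h1.const_mul _
  have hsum := tendsto_finsetSum _ hterm
  rw [sum_eq_zero (fun p _ => mul_zero _)] at hsum
  have hval : ∑ p ∈ Fintype.piFinset (fun i : Fin 4 => ix q K (r i)), (∏ i, cf q K (r i) (s i) (k i) (p i)) *
      (∏ i, mm (zq q ^ (p i).1) (phg K (u i) (v i) (r i) (p i).2)) =
      (((∏ i, c i) / (q : ℝ) ^ 4 : ℝ) : ℂ) := by
    have e1 : ∏ i, ∑ p ∈ ix q K (r i), cf q K (r i) (s i) (k i) p * mm (zq q ^ p.1) (phg K (u i) (v i) (r i) p.2) =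
        ∑ p ∈ Fintype.piFinset (fun i : Fin 4 => ix q K (r i)), ∏ i, (cf q K (r i) (s i) (k i) (p i) *
          mm (zq q ^ (p i).1) (phg K (u i) (v i) (r i) (p i).2)) := Finset.prod_univ_sum _ _
    have e2 : ∑ p ∈ Fintype.piFinset (fun i : Fin 4 => ix q K (r i)), (∏ i, cf q K (r i) (s i) (k i) (p i)) *
        (∏ i, mm (zq q ^ (p i).1) (phg K (u i) (v i) (r i) (p i).2)) =
        (∑ p ∈ Fintype.piFinset (fun i : Fin 4 => ix q K (r i)), ∏ i, (cf q K (r i) (s i) (k i) (p i) *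
          mm (zq q ^ (p i).1) (phg K (u i) (v i) (r i) (p i).2))) := by
      refine sum_congr rfl fun p _ => ?_
      rw [prod_mul_distrib]
    rw [e2, ← e1]
    have e3 : ∏ i, ∑ p ∈ ix q K (r i), cf q K (r i) (s i) (k i) p * mm (zq q ^ p.1) (phg K (u i) (v i) (r i) p.2) =
        ∏ i, ((c i : ℂ) / q) := by
      refine prod_congr rfl fun i _ => ?_
      rw [cf_sum q hq, hc i]
    rw [e3, prod_div_distrib, prod_const]
    simp only [card_univ, Fintype.card_fin]
    push_cast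
    ring
  have hre := (Complex.continuous_re.tendsto _).comp hsum
  rw [Complex.zero_re] at hre
  refine hre.congr' ?_
  have hs2 : ∀ᶠ X : ℝ in atTop, (2 : ℝ) ≤ Real.sqrt X := Real.tendsto_sqrt_atTop.eventually_ge_atTop 2
  filter_upwards [hent, hs2] with X hX hX2
  rw [Function.comp_apply]
  have h1 : (((S X).filter (fun e => PC q s r u v k X (T e))).card : ℂ) =
      ∑ e ∈ S X, (if PC q s r u v k X (T e) then (1 : ℂ) else 0) := by
    rw [card_filter]
    push_cast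
    rfl
  have h2 : ∀ e ∈ S X, (if PC q s r u v k X (T e) then (1 : ℂ) else 0) =
      ∑ p ∈ Fintype.piFinset (fun i : Fin 4 => ix q K (r i)), (∏ i, cf q K (r i) (s i) (k i) (p i)) *
        ∏ i, fxr Q (zq q ^ (p i).1) (phg K (u i) (v i) (r i) (p i).2) X (ent i (T e)) := by
    intro e he
    have g1 : (if PC q s r u v k X (T e) then (1 : ℂ) else 0) = ∏ i, (if
        ArithmeticFunction.cardFactors (ent i (T e)) ≡ s i [MOD q] ∧
          ∀ j < r i, wc (Real.sqrt X) (u i j) (v i j) (ent i (T e)) = k i j then (1 : ℂ) else 0) := by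
      by_cases h : PC q s r u v k X (T e)
      · rw [if_pos h]
        symm
        refine prod_eq_one fun i _ => ?_
        rw [if_pos (h i)]
      · rw [if_neg h]
        symm
        unfold PC at h
        push Not at h
        obtain ⟨i, hi⟩ := h
        refine prod_eq_zero (mem_univ i) ?_
        rw [if_neg]
        rintro ⟨k1, k2⟩
        obtain ⟨j, hj, hj'⟩ := hi k1
        exact hj' (k2 j hj)
    rw [g1]
    have g2 : ∀ i, (if ArithmeticFunction.cardFactors (ent i (T e)) ≡ s i [MOD q] ∧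
          ∀ j < r i, wc (Real.sqrt X) (u i j) (v i j) (ent i (T e)) = k i j then (1 : ℂ) else 0) =
        ∑ p ∈ ix q K (r i), cf q K (r i) (s i) (k i) p *
          fxr Q (zq q ^ p.1) (phg K (u i) (v i) (r i) p.2) X (ent i (T e)) := by
      intro i
      obtain ⟨k1, k2, k3⟩ := hX e he i
      exact ind1 q hq Q K u0 hu0 hKu (u i) (v i) (r i) (fun j hj => (hu i j hj).1) (k i) (hk i) (s i)
        (Real.sqrt X) hX2 (ent i (T e)) k1 k3 k2
    rw [prod_congr rfl fun i _ => g2 i, Finset.prod_univ_sum]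
    refine sum_congr rfl fun p _ => ?_
    rw [prod_mul_distrib]
  have h3 : ∑ p ∈ Fintype.piFinset (fun i : Fin 4 => ix q K (r i)), (∏ i, cf q K (r i) (s i) (k i) (p i)) *
      ((∑ e ∈ S X, (∏ i, fxr Q (zq q ^ (p i).1) (phg K (u i) (v i) (r i) (p i).2) X (ent i (T e)) -
        ∏ i, mm (zq q ^ (p i).1) (phg K (u i) (v i) (r i) (p i).2))) / X) =
      ((((S X).filter (fun e => PC q s r u v k X (T e))).card : ℂ) -
        (((∏ i, c i) / (q : ℝ) ^ 4 : ℝ) : ℂ) * ((S X).card : ℂ)) / X := by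
    have g1 : (((S X).filter (fun e => PC q s r u v k X (T e))).card : ℂ) =
        ∑ p ∈ Fintype.piFinset (fun i : Fin 4 => ix q K (r i)), (∏ i, cf q K (r i) (s i) (k i) (p i)) *
          ∑ e ∈ S X, ∏ i, fxr Q (zq q ^ (p i).1) (phg K (u i) (v i) (r i) (p i).2) X (ent i (T e)) := by
      rw [h1, sum_congr rfl h2, sum_comm]
      refine sum_congr rfl fun p _ => ?_
      rw [← mul_sum]
    rw [g1, ← hval, sum_mul, ← sum_sub_distrib, sum_div]
    refine sum_congr rfl fun p _ => ?_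
    rw [sum_sub_distrib, sum_const, nsmul_eq_mul]
    ring
  rw [h3]
  rw [show ((((S X).filter (fun e => PC q s r u v k X (T e))).card : ℂ) -
        (((∏ i, c i) / (q : ℝ) ^ 4 : ℝ) : ℂ) * ((S X).card : ℂ)) / X =
      ((((((S X).filter (fun e => PC q s r u v k X (T e))).card : ℝ) -
        (∏ i, c i) / (q : ℝ) ^ 4 * ((S X).card : ℝ)) / X : ℝ) : ℂ) by push_cast; ring, Complex.ofReal_re]

end Pool.Agent.PairFan
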