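import Pool.Agent.Lib_MP_92ef0c_pf.Gs
import Pool.Agent.Lib_MP_92ef0c_pf.Edge
import Pool.Agent.Lib_MP_92ef0c_pf.Bij
import Pool.Agent.Lib_MP_92ef0c_pf.Ana

/-!
# MP_92ef0c_nt, PairFan: the means over the box and a level
-/

set_option autoImplicit false

namespace Pool.Agent.PairFan

open Finset Pool.Agent.Spl Pool.Agent.SplB Pool.Agent.SplL Filter

/-- the map to the four numbers: `m = 0`: the first row and a second row; `m > 0`: two second rows with difference `m` times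
the first row -/
def tr (m : ℕ) (e : Q4) : Q4 := if m = 0 then e else sh m e

/-- from smooth to sharp: if the sums with the smooth cut-offs are small, so are the sums over `bs` -/
theorem sharp_bs {h0 Q n0 : ℕ} (hQ : HQ h0 Q n0) (i : ℕ) (Ψ : ℝ → Q4 → ℂ) (hΨ : ∀ X e, ‖Ψ X e‖ ≤ 1)
    (H : ∀ δ : ℝ, 0 < δ → Tendsto (fun X : ℝ => (∑ e ∈ bs h0 Q n0 i X, ((wE Q i δ X e : ℝ) : ℂ) * Ψ X e) / X) atTop
      (nhds 0)) : Tendsto (fun X : ℝ => (∑ e ∈ bs h0 Q n0 i X, Ψ X e) / X) atTop (nhds 0) := by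
  rw [Metric.tendsto_nhds]
  intro ε hε
  have h1 := (Metric.tendsto_nhds.1 (H (ε / 96) (by positivity))) (ε / 4) (by positivity)
  have h2 : ∀ᶠ X : ℝ in atTop, 48 / ε ≤ Real.sqrt X := Real.tendsto_sqrt_atTop.eventually_ge_atTop _
  filter_upwards [h1, h2, eventually_ge_atTop (1 : ℝ)] with X hX1 hX2 hX3
  have hX0 : 0 < X := by linarith
  rw [dist_zero_right, norm_div, Complex.norm_real, Real.norm_eq_abs, abs_of_pos hX0, div_lt_iff₀ hX0] at hX1 ⊢
  have h3 := edge hQ i (ε / 96) (by positivity) X hX3 (Ψ X) (fun e _ => hΨ X e)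
  have h4 : 12 * Real.sqrt X ≤ ε / 4 * X := by
    have h5 : Real.sqrt X * Real.sqrt X = X := Real.mul_self_sqrt hX0.le
    have h6 : 48 ≤ Real.sqrt X * ε := by
      rw [div_le_iff₀ hε] at hX2
      exact hX2
    have h7 : 48 * Real.sqrt X ≤ Real.sqrt X * ε * Real.sqrt X :=
      mul_le_mul_of_nonneg_right h6 (Real.sqrt_nonneg X)
    have h8 : Real.sqrt X * ε * Real.sqrt X = ε * X := by
      calc _ = ε * (Real.sqrt X * Real.sqrt X) := by ring
        _ = _ := by rw [h5]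
    linarith
  have h9 := norm_le_norm_sub_add (∑ e ∈ bs h0 Q n0 i X, Ψ X e)
    (∑ e ∈ bs h0 Q n0 i X, ((wE Q i (ε / 96) X e : ℝ) : ℂ) * Ψ X e)
  have h10 : 0 < ε * X := by positivity
  linarith

theorem prod_le_one' (f : Fin 4 → ℂ) (h : ∀ j, ‖f j‖ ≤ 1) : ‖∏ j, f j‖ ≤ 1 := by
  rw [norm_prod]
  exact prod_le_one (fun _ _ => norm_nonneg _) fun j _ => h j

/-- the mean over the first and a second row -/
theorem mean_base (B : BS) {q : ℕ} (hq : 0 < q) {h0 Q n0 : ℕ} (hQ : HQ h0 Q n0) (i : ℕ) (z : Fin 4 → ℂ)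
    (f : Fin 4 → ℝ → ℕ → ℂ) (hz : ∀ j, z j ^ q = 1) (hf : ∀ j, FS Q (z j) (f j)) :
    Tendsto (fun X : ℝ => (∑ e ∈ bs h0 Q n0 i X, (∏ j, f j X (ent j e) - ∏ j, mf Q (f j) X) / 2) / X)
      atTop (nhds 0) := by
  classical
  have hb : ∀ X : ℝ, ∀ e : Q4, ‖(∏ j, f j X (ent j e) - ∏ j, mf Q (f j) X) / 2‖ ≤ 1 := by
    intro X e
    rw [norm_div]
    have h1 := prod_le_one' (fun j => f j X (ent j e)) fun j => (hf j).bd X _
    have h2 := prod_le_one' (fun j => mf Q (f j) X) fun j => mf_le_one (hf j) X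
    have h3 := norm_sub_le (∏ j, f j X (ent j e)) (∏ j, mf Q (f j) X)
    have h4 : ‖(2 : ℂ)‖ = 2 := by simp
    rw [h4, div_le_one (by norm_num)]
    linarith
  refine sharp_bs hQ i _ hb fun δ hδ => ?_
  obtain ⟨R, hRd⟩ : ∃ R : ℝ, R = 4 * (i + 1) * Q + 2 + 2 / δ := ⟨_, rfl⟩
  have hd0 : 0 < 2 / δ := by positivity
  have hb0 : (0 : ℝ) ≤ 4 * (i + 1) * Q := by positivity
  have hR1 : 1 ≤ R := by linarith
  have hR2 : 4 * ((i : ℝ) + 1) * Q ≤ R ^ 2 := by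
    have : R ≤ R ^ 2 := by nlinarith
    linarith
  have h1 := gsum h0 hQ.pos (fun X e => if e.b * e.c ≡ n0 [MOD Q] then
      (∏ j, f j X (ent j e) - ∏ j, mf Q (f j) X) / 2 else 0)
    (fun X e => by
      show ‖if e.b * e.c ≡ n0 [MOD Q] then (∏ j, f j X (ent j e) - ∏ j, mf Q (f j) X) / 2 else 0‖ ≤ 1
      split_ifs
      · exact hb X e
      · simp)
    (fun b W hW => by
      refine (baseW B hq h0 n0 hQ (hz 0) (hz 1) (hz 2) (hz 3) (hf 0) (hf 1) (hf 2) (hf 3) b W hW).congr fun X => ?_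
      congr 1
      refine sum_congr rfl fun e _ => ?_
      by_cases h : e.b * e.c ≡ n0 [MOD Q]
      · rw [if_pos h, if_pos h, Fin.prod_univ_four, Fin.prod_univ_four]
        rfl
      · rw [if_neg h, if_neg h])
    (fun x1 x2 x3 _ => wt Q i δ x1 x2 x3) (by
      have := wt_cont Q i δ
      exact this.comp (by fun_prop : Continuous fun v : ℝ × ℝ × ℝ × ℝ => ((v.1, v.2.1, v.2.2.1) : ℝ × ℝ × ℝ)))
    (by
      by_contra h
      have := (wt_ne hδ h).1.1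
      linarith) R hR1
    (fun x1 x2 x3 x4 _ _ _ h4 hl hu h => supp_base Q i hδ hRd.ge x1 x2 x3 x4 h4 hl hu h)
  refine h1.congr' ?_
  filter_upwards [eventually_gt_atTop (0 : ℝ)] with X hX
  congr 1
  rw [sum_base i hδ hX hR2 (fun e => (∏ j, f j X (ent j e) - ∏ j, mf Q (f j) X) / 2)]

/-- the mean over two second rows -/
theorem mean_shift (B : BS) {q : ℕ} (hq : 0 < q) {h0 Q n0 : ℕ} (hQ : HQ h0 Q n0) (i m : ℕ) (hm : 0 < m) (hQm : Q ∣ m)
    (hs : m.primeFactors ⊆ Q.primeFactors) (z : Fin 4 → ℂ)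
    (f : Fin 4 → ℝ → ℕ → ℂ) (hz : ∀ j, z j ^ q = 1) (hf : ∀ j, FS Q (z j) (f j)) :
    Tendsto (fun X : ℝ => (∑ e ∈ bs h0 Q n0 i X, (∏ j, f j X (ent j (sh m e)) - ∏ j, mf Q (f j) X) / 2) / X)
      atTop (nhds 0) := by
  classical
  set Ψ : ℝ → Q4 → ℂ := fun X e => (∏ j, f j X (ent j e) - (∏ j, mf Q (f j) X) *
    F4 (f00 Q) (f00 Q) (f00 Q) (f00 Q) e) / 2 with hΨ
  have hF0 : ∀ e : Q4, ‖F4 (f00 Q) (f00 Q) (f00 Q) (f00 Q) e‖ ≤ 1 := fun e =>
    norm_F4_le ((fs_f00 Q).bd 0) ((fs_f00 Q).bd 0) ((fs_f00 Q).bd 0) ((fs_f00 Q).bd 0) e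
  have hb : ∀ X : ℝ, ∀ e : Q4, ‖Ψ X e‖ ≤ 1 := by
    intro X e
    simp only [hΨ]
    rw [norm_div]
    have h1 := prod_le_one' (fun j => f j X (ent j e)) fun j => (hf j).bd X _
    have h2 := prod_le_one' (fun j => mf Q (f j) X) fun j => mf_le_one (hf j) X
    have h3 := norm_sub_le (∏ j, f j X (ent j e)) ((∏ j, mf Q (f j) X) * F4 (f00 Q) (f00 Q) (f00 Q) (f00 Q) e)
    have h4 : ‖(2 : ℂ)‖ = 2 := by simp
    have h5 : ‖(∏ j, mf Q (f j) X) * F4 (f00 Q) (f00 Q) (f00 Q) (f00 Q) e‖ ≤ 1 := by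
      rw [norm_mul]
      exact mul_le_one₀ h2 (norm_nonneg _) (hF0 e)
    rw [h4, div_le_one (by norm_num)]
    linarith
  have hmain : Tendsto (fun X : ℝ => (∑ e ∈ bs h0 Q n0 i X, Ψ X (sh m e)) / X) atTop (nhds 0) := by
    refine sharp_bs hQ i (fun X e => Ψ X (sh m e)) (fun X e => hb X _) fun δ hδ => ?_
    obtain ⟨R, hRd⟩ : ∃ R : ℝ, R = 4 * (i + 1) * Q + 2 * m + 2 + 2 / δ := ⟨_, rfl⟩
    have hd0 : 0 < 2 / δ := by positivity
    have hb0 : (0 : ℝ) ≤ 4 * (i + 1) * Q := by positivity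
    have hm0 : (0 : ℝ) ≤ 2 * m := by positivity
    have hR1 : 1 ≤ R := by linarith
    have h1 := gsum (m * h0) (Nat.mul_pos hm hQ.pos) (fun X e => if kap3 m Q n0 e then Ψ X e else 0)
      (fun X e => by
        show ‖if kap3 m Q n0 e then Ψ X e else 0‖ ≤ 1
        split_ifs
        · exact hb X e
        · simp)
      (fun b W hW => by
        refine (pairW B hq h0 n0 hQ m hm hQm hs (hz 0) (hz 1) (hz 2) (hz 3) (hf 0) (hf 1) (hf 2) (hf 3) b W
          hW).congr fun X => ?_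
        congr 1
        refine sum_congr rfl fun e _ => ?_
        by_cases h : kap3 m Q n0 e
        · rw [if_pos h, if_pos h]
          simp only [hΨ]
          rw [Fin.prod_univ_four, Fin.prod_univ_four]
          rfl
        · rw [if_neg h, if_neg h])
      (fun x1 x2 x3 x4 => wt Q i δ ((x1 - x3) / m) ((x2 - x4) / m) x3) (by
        have := wt_cont Q i δ
        exact this.comp (by fun_prop : Continuous fun v : ℝ × ℝ × ℝ × ℝ =>
          (((v.1 - v.2.2.1) / m, (v.2.1 - v.2.2.2) / m, v.2.2.1) : ℝ × ℝ × ℝ)))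
      (by
        by_contra h
        have := (wt_ne hδ h).1.1
        rw [sub_zero, zero_div] at this
        linarith) R hR1
      (fun x1 x2 x3 x4 _ _ _ h4 hl hu h => supp_shift Q i m hm hδ hRd.ge x1 x2 x3 x4 h4 hl hu h)
    refine h1.congr' ?_
    filter_upwards [eventually_gt_atTop (0 : ℝ), eventually_ge_atTop (((m * h0 : ℕ) : ℝ))] with X hX hX2
    congr 1
    rw [sum_shift hQ i m hm hQm hδ hX hRd.ge hX2 (Ψ X)]
  refine hmain.congr' ?_
  filter_upwards [eventually_gt_atTop (0 : ℝ)] with X hX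
  congr 1
  refine sum_congr rfl fun e he => ?_
  obtain ⟨⟨hS, hc⟩, -⟩ := (mem_bs hX.le).1 he
  obtain ⟨g1, g2⟩ := sh_mem hQ hm hQm hS hc
  obtain ⟨-, c3, c4⟩ := bs_cop hQ hS hc
  have hcop : ∀ x y : ℕ, x.Coprime Q → (x + m * y).Coprime Q := by
    intro x y hx
    obtain ⟨t, rfl⟩ := hQm
    have : x + Q * t * y = x + Q * (t * y) := by ring
    rw [this]
    exact (Nat.coprime_add_mul_left_left x Q (t * y)).2 hx
  have h1 : F4 (f00 Q) (f00 Q) (f00 Q) (f00 Q) (sh m e) = 1 := by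
    obtain ⟨-, p1, p2, p3, p4, -, -⟩ := g1
    unfold F4
    rw [f00_coprime p1.ne' (hcop _ _ c3), f00_coprime p2.ne' (hcop _ _ c4), f00_coprime p3.ne' c3,
      f00_coprime p4.ne' c4]
    norm_num
  simp only [hΨ]
  rw [h1, mul_one]

theorem fan_mean (B : BS) {q : ℕ} (hq : 0 < q) {h0 Q n0 : ℕ} (hQ : HQ h0 Q n0) (i s : ℕ)
    (hs : s.primeFactors ⊆ Q.primeFactors) (z : Fin 4 → ℂ) (f : Fin 4 → ℝ → ℕ → ℂ) (m : Fin 4 → ℂ)
    (hz : ∀ j, z j ^ q = 1) (hf : ∀ j, FS Q (z j) (f j)) (hm : ∀ j, Tendsto (mf Q (f j)) atTop (nhds (m j))) :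
    Tendsto (fun X : ℝ => (∑ e ∈ bs h0 Q n0 i X, (∏ j, f j X (ent j (tr (s * Q) e)) - ∏ j, m j)) / X)
      atTop (nhds 0) := by
  have h1 : Tendsto (fun X : ℝ => (∑ e ∈ bs h0 Q n0 i X,
      (∏ j, f j X (ent j (tr (s * Q) e)) - ∏ j, mf Q (f j) X) / 2) / X) atTop (nhds 0) := by
    rcases Nat.eq_zero_or_pos s with h | h
    · subst h
      rw [zero_mul]
      exact mean_base B hq hQ i z f hz hf
    · have hQ0 := hQ.posQ
      have hpos : 0 < s * Q := Nat.mul_pos h hQ0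
      have hsub : (s * Q).primeFactors ⊆ Q.primeFactors := by
        rw [Nat.primeFactors_mul h.ne' hQ0.ne']
        exact union_subset hs (Subset.refl _)
      have h2 := mean_shift B hq hQ i (s * Q) hpos (Dvd.intro_left s rfl) hsub z f hz hf
      have h3 : ∀ e, tr (s * Q) e = sh (s * Q) e := fun e => if_neg hpos.ne'
      simp only [h3]
      exact h2
  have h2 := h1.const_mul (2 : ℂ)
  rw [mul_zero] at h2
  have hp : Tendsto (fun X : ℝ => ∏ j, mf Q (f j) X - ∏ j, m j) atTop (nhds 0) := by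
    have := (tendsto_finsetProd univ fun j _ => hm j).sub_const (∏ j, m j)
    rwa [sub_self] at this
  have h3 : Tendsto (fun X : ℝ => ((bs h0 Q n0 i X).card : ℂ) / X * (∏ j, mf Q (f j) X - ∏ j, m j)) atTop (nhds 0) := by
    rw [tendsto_zero_iff_norm_tendsto_zero] at hp ⊢
    have h4 := hp.const_mul 4
    rw [mul_zero] at h4
    refine tendsto_of_tendsto_of_tendsto_of_le_of_le' tendsto_const_nhds h4
      (Eventually.of_forall fun X => norm_nonneg _) ?_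
    filter_upwards [eventually_gt_atTop (0 : ℝ)] with X hX
    rw [norm_mul]
    refine mul_le_mul_of_nonneg_right ?_ (norm_nonneg _)
    rw [norm_div, Complex.norm_real, Real.norm_eq_abs, abs_of_pos hX, Complex.norm_natCast, div_le_iff₀ hX]
    exact bs_card hQ hX
  have h4 := h2.add h3
  rw [add_zero] at h4
  refine h4.congr fun X => ?_
  have h5 : ∑ e ∈ bs h0 Q n0 i X, (∏ j, f j X (ent j (tr (s * Q) e)) - ∏ j, m j) =
      2 * ∑ e ∈ bs h0 Q n0 i X, (∏ j, f j X (ent j (tr (s * Q) e)) - ∏ j, mf Q (f j) X) / 2 +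
        ((bs h0 Q n0 i X).card : ℂ) * (∏ j, mf Q (f j) X - ∏ j, m j) := by
    have h6 : ((bs h0 Q n0 i X).card : ℂ) * (∏ j, mf Q (f j) X - ∏ j, m j) =
        ∑ _e ∈ bs h0 Q n0 i X, (∏ j, mf Q (f j) X - ∏ j, m j) := by
      rw [sum_const, nsmul_eq_mul]
    rw [h6, mul_sum, ← sum_add_distrib]
    refine sum_congr rfl fun e _ => ?_
    ring
  rw [h5, add_div]
  ring

theorem fan_ent {h0 Q n0 : ℕ} (hQ : HQ h0 Q n0) (i s : ℕ) : ∀ᶠ X : ℝ in atTop, ∀ e ∈ bs h0 Q n0 i X, ∀ j,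
    ent j (tr (s * Q) e) ≠ 0 ∧ (ent j (tr (s * Q) e)).Coprime Q ∧ (ent j (tr (s * Q) e) : ℝ) ≤ Real.sqrt X ^ 3 := by
  have hs : ∀ᶠ X : ℝ in atTop, ((2 * (i + 1) * Q + 2 * (s * Q) + 4 * (i + 1) * Q + h0 + 2 : ℕ) : ℝ) ≤ Real.sqrt X :=
    Real.tendsto_sqrt_atTop.eventually_ge_atTop _
  filter_upwards [hs, eventually_ge_atTop (1 : ℝ)] with X hX hX1 e he
  have hX0 : 0 < X := by linarith
  obtain ⟨⟨hS, hc⟩, ⟨a1, a2⟩, ⟨b1, b2⟩, l1, l2⟩ := (mem_bs hX0.le).1 he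
  obtain ⟨⟨c1, c2⟩, c3, c4⟩ := bs_cop hQ hS hc
  obtain ⟨hdet, pa, pb, pc, pd, -, -⟩ := hS
  obtain ⟨t, ht⟩ : ∃ t, t = Real.sqrt X := ⟨_, rfl⟩
  rw [← ht] at hX a1 a2 b1 b2 ⊢
  have hi0 : (0 : ℝ) ≤ i := Nat.cast_nonneg i
  have hQ0 : (0 : ℝ) ≤ Q := Nat.cast_nonneg Q
  have hs0 : (0 : ℝ) ≤ s := Nat.cast_nonneg s
  have hh0 : (0 : ℝ) ≤ h0 := Nat.cast_nonneg h0
  push_cast at hX
  have z1 : (0 : ℝ) ≤ 2 * (i + 1) * Q := by positivity
  have z2 : (0 : ℝ) ≤ 2 * (s * Q) := by positivity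
  have ht1 : 2 ≤ t := by linarith
  have ht0 : 0 ≤ t := by linarith
  have ht2 : t ≤ t ^ 2 := by nlinarith
  have ht3 : t ^ 2 ≤ t ^ 3 := by
    have : t ^ 3 = t ^ 2 * t := by ring
    rw [this]
    nlinarith [sq_nonneg t]
  have l2' : (e.c : ℝ) ≤ (i + 1) * (Q * e.a) := by exact_mod_cast l2.le
  have hcb : (e.c : ℝ) ≤ 2 * (i + 1) * Q * t := by
    calc (e.c : ℝ) ≤ (i + 1) * (Q * e.a) := l2'
      _ ≤ (i + 1) * (Q * (2 * t)) := by gcongr
      _ = _ := by ring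
  have hdet' : (e.a : ℝ) * e.d = e.b * e.c + h0 := by exact_mod_cast hdet
  have hdb : (e.d : ℝ) ≤ (4 * (i + 1) * Q + h0) * t := by
    have g1 : t * e.d ≤ e.a * e.d := mul_le_mul_of_nonneg_right a1.le (Nat.cast_nonneg _)
    have g2 : (e.b : ℝ) * e.c ≤ (2 * t) * (2 * (i + 1) * Q * t) := mul_le_mul b2 hcb (Nat.cast_nonneg _) (by linarith)
    have g3 : (h0 : ℝ) ≤ h0 * t * t := by
      have : (1 : ℝ) ≤ t * t := by nlinarith
      nlinarith
    have g4 : t * e.d ≤ t * ((4 * (i + 1) * Q + h0) * t) := by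
      calc t * e.d ≤ e.b * e.c + h0 := by rw [← hdet']; exact g1
        _ ≤ (2 * t) * (2 * (i + 1) * Q * t) + h0 * t * t := by linarith
        _ = _ := by ring
    exact le_of_mul_le_mul_left g4 (by linarith)
  have hfin : ∀ x : ℝ, ∀ y : ℝ, x ≤ y * t → y ≤ t → x ≤ t ^ 3 := by
    intro x y hxy hy
    have : y * t ≤ t * t := mul_le_mul_of_nonneg_right hy ht0
    nlinarith
  have hcop : ∀ x y : ℕ, x.Coprime Q → (x + s * Q * y).Coprime Q := by
    intro x y hx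
    have : x + s * Q * y = x + Q * (s * y) := by ring
    rw [this]
    exact (Nat.coprime_add_mul_left_left x Q (s * y)).2 hx
  unfold tr
  split_ifs with h
  · intro j
    fin_cases j
    · exact ⟨pa.ne', c1, by show (e.a : ℝ) ≤ t ^ 3; exact hfin _ 2 a2 (by linarith)⟩
    · exact ⟨pb.ne', c2, by show (e.b : ℝ) ≤ t ^ 3; exact hfin _ 2 b2 (by linarith)⟩
    · exact ⟨pc.ne', c3, by show (e.c : ℝ) ≤ t ^ 3; exact hfin _ _ hcb (by linarith)⟩
    · exact ⟨pd.ne', c4, by show (e.d : ℝ) ≤ t ^ 3; exact hfin _ _ hdb (by linarith)⟩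
  · intro j
    fin_cases j
    · refine ⟨?_, hcop _ _ c3, ?_⟩
      · show e.c + s * Q * e.a ≠ 0
        omega
      · show ((e.c + s * Q * e.a : ℕ) : ℝ) ≤ t ^ 3
        refine hfin _ (2 * (i + 1) * Q + 2 * (s * Q)) ?_ (by linarith)
        push_cast
        have : (s : ℝ) * Q * e.a ≤ s * Q * (2 * t) := mul_le_mul_of_nonneg_left a2 (by positivity)
        linarith
    · refine ⟨?_, hcop _ _ c4, ?_⟩
      · show e.d + s * Q * e.b ≠ 0
        omega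
      · show ((e.d + s * Q * e.b : ℕ) : ℝ) ≤ t ^ 3
        refine hfin _ (4 * (i + 1) * Q + h0 + 2 * (s * Q)) ?_ (by linarith)
        push_cast
        have : (s : ℝ) * Q * e.b ≤ s * Q * (2 * t) := mul_le_mul_of_nonneg_left b2 (by positivity)
        linarith
    · exact ⟨pc.ne', c3, by show (e.c : ℝ) ≤ t ^ 3; exact hfin _ _ hcb (by linarith)⟩
    · exact ⟨pd.ne', c4, by show (e.d : ℝ) ≤ t ^ 3; exact hfin _ _ hdb (by linarith)⟩

end Pool.Agent.PairFan
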