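import Pool.Agent.Lib_MP_92ef0c_pf.Main

/-!
# MP_92ef0c_nt, PairFan: the parity of the members of the progression, means
-/

set_option autoImplicit false

namespace Pool.Agent.PairFan

open Finset Pool.Agent.Spl Pool.Agent.SplB Pool.Agent.SplL Filter

/-- the Liouville function -/
def lio (n : ℕ) : ℤ := (-1) ^ ArithmeticFunction.cardFactors n

/-- `λ(n) λ(n + h)` -/
def chi (h n : ℕ) : ℤ := lio n * lio (n + h)

theorem lio_mul {m n : ℕ} (hm : m ≠ 0) (hn : n ≠ 0) : lio (m * n) = lio m * lio n := by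
  unfold lio
  rw [ArithmeticFunction.cardFactors_mul hm hn, pow_add]

theorem lio_sq (n : ℕ) : lio n * lio n = 1 := by
  unfold lio
  rw [← mul_pow]
  norm_num

theorem lio_or (n : ℕ) : lio n = 1 ∨ lio n = -1 := neg_one_pow_eq_or ℤ _

theorem chi_or (h n : ℕ) : chi h n = 1 ∨ chi h n = -1 := by
  unfold chi
  rcases lio_or n with h1 | h1 <;> rcases lio_or (n + h) with h2 | h2 <;> rw [h1, h2] <;> norm_num

/-- the value at the member `s` levels above -/
def xs (h Q s : ℕ) (e : Q4) : ℤ := chi h (e.b * e.c + s * (e.a * e.b * Q))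

/-- the next second row -/
def up (Q s : ℕ) (e : Q4) : Q4 := ⟨e.a, e.b, e.c + s * Q * e.a, e.d + s * Q * e.b⟩

theorem xs_up (h Q s t : ℕ) (e : Q4) : xs h Q t (up Q s e) = xs h Q (s + t) e := by
  unfold xs up
  simp only
  congr 1
  ring

theorem xs_eq {h Q : ℕ} (s : ℕ) {e : Q4} (he : Sn h e) :
    xs h Q s e = lio e.b * lio (e.c + s * Q * e.a) * (lio e.a * lio (e.d + s * Q * e.b)) := by
  obtain ⟨h1, pa, pb, pc, pd, -, -⟩ := he
  unfold xs chi
  have e1 : e.b * e.c + s * (e.a * e.b * Q) = e.b * (e.c + s * Q * e.a) := by ring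
  have e2 : e.b * e.c + s * (e.a * e.b * Q) + h = e.a * (e.d + s * Q * e.b) := by
    calc e.b * e.c + s * (e.a * e.b * Q) + h = (e.b * e.c + h) + s * (e.a * e.b * Q) := by ring
      _ = e.a * e.d + s * (e.a * e.b * Q) := by rw [h1]
      _ = _ := by ring
  rw [e2, e1, lio_mul pb.ne' (by omega), lio_mul pa.ne' (by omega)]

theorem xs_mul {h Q : ℕ} (s : ℕ) {e : Q4} (he : Sn h e) :
    xs h Q s e * xs h Q 0 e = lio (e.c + s * Q * e.a) * lio (e.d + s * Q * e.b) * (lio e.c * lio e.d) := by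
  rw [xs_eq s he, xs_eq 0 he]
  simp only [zero_mul, add_zero]
  calc _ = (lio e.b * lio e.b) * (lio e.a * lio e.a) *
        (lio (e.c + s * Q * e.a) * lio (e.d + s * Q * e.b) * (lio e.c * lio e.d)) := by ring
    _ = _ := by rw [lio_sq, lio_sq, one_mul, one_mul]

/-! ### The Liouville function as a family -/

open Classical in
/-- the Liouville function on the numbers coprime to `Q` -/
noncomputable def lamQ (Q n : ℕ) : ℂ := if n = 0 ∨ ¬ n.Coprime Q then 0 else (lio n : ℂ)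

theorem lamQ_coprime {Q n : ℕ} (h0 : n ≠ 0) (h : n.Coprime Q) : lamQ Q n = (lio n : ℂ) := by
  unfold lamQ
  rw [if_neg]
  tauto

theorem lamQ_not {Q n : ℕ} (h : ¬ n.Coprime Q) : lamQ Q n = 0 := by
  unfold lamQ
  rw [if_pos (Or.inr h)]

theorem fs_lamQ (Q : ℕ) : FS Q (-1) (fun _ => lamQ Q) := by
  refine ⟨fun _ m n => ?_, fun _ n => ?_, fun _ => ?_, fun _ p hp hd => ?_, ⟨1, one_pos, fun _ _ p hp hd _ => ?_⟩⟩
  · by_cases hm : m = 0
    · simp [lamQ, hm]
    by_cases hn : n = 0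
    · simp [lamQ, hn]
    by_cases h1 : m.Coprime Q
    · by_cases h2 : n.Coprime Q
      · rw [lamQ_coprime (mul_ne_zero hm hn) (Nat.Coprime.mul_left h1 h2), lamQ_coprime hm h1, lamQ_coprime hn h2,
          lio_mul hm hn]
        push_cast
        rfl
      · rw [lamQ_not (n := m * n) (fun h => h2 (Nat.Coprime.coprime_mul_left h)), lamQ_not h2, mul_zero]
    · rw [lamQ_not (n := m * n) (fun h => h1 (Nat.Coprime.coprime_mul_right h)), lamQ_not h1, zero_mul]
  · show ‖lamQ Q n‖ ≤ 1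
    unfold lamQ
    split_ifs
    · simp
    · rcases lio_or n with h | h <;> rw [h] <;> simp
  · show lamQ Q 1 = 1
    rw [lamQ_coprime one_ne_zero (Nat.coprime_one_left Q)]
    unfold lio
    simp
  · refine lamQ_not fun h => ?_
    exact (Nat.Prime.coprime_iff_not_dvd hp).1 h hd
  · show lamQ Q p = -1
    rw [lamQ_coprime hp.ne_zero ((Nat.Prime.coprime_iff_not_dvd hp).2 hd)]
    unfold lio
    rw [ArithmeticFunction.cardFactors_apply_prime hp]
    norm_num

theorem prod_const_zero_four : ∏ _j : Fin 4, (0 : ℂ) = 0 := by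
  rw [prod_const, card_univ, Fintype.card_fin]
  norm_num

/-- the mean of the product of the four Liouville functions -/
theorem lam_mean (B : BS) {h0 Q n0 : ℕ} (hQ : HQ h0 Q n0) (i s : ℕ) (hs : s.primeFactors ⊆ Q.primeFactors) :
    Tendsto (fun X : ℝ => (∑ e ∈ bs h0 Q n0 i X, ((∏ j, lio (ent j (tr (s * Q) e)) : ℤ) : ℝ)) / X) atTop (nhds 0) := by
  have h1 := fan_mean B two_pos hQ i s hs (fun _ => -1) (fun _ _ => lamQ Q) (fun _ => 0)
    (fun _ => by norm_num) (fun _ => fs_lamQ Q)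
    (fun _ => B.mf_zero 2 Q two_pos hQ.posQ (-1) (by norm_num) (by norm_num) _ (fs_lamQ Q))
  have h2 := (Complex.continuous_re.tendsto _).comp h1
  rw [Complex.zero_re] at h2
  refine h2.congr' ?_
  filter_upwards [fan_ent hQ i s] with X hX
  rw [Function.comp_apply]
  have h3 : ∑ e ∈ bs h0 Q n0 i X, (∏ j, lamQ Q (ent j (tr (s * Q) e)) - ∏ _j : Fin 4, (0 : ℂ)) =
      ((∑ e ∈ bs h0 Q n0 i X, ((∏ j, lio (ent j (tr (s * Q) e)) : ℤ) : ℝ) : ℝ) : ℂ) := by
    push_cast
    refine sum_congr rfl fun e he => ?_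
    rw [prod_const_zero_four, sub_zero]
    refine prod_congr rfl fun j _ => ?_
    obtain ⟨k1, k2, -⟩ := hX e he j
    exact lamQ_coprime k1 k2
  rw [h3, ← Complex.ofReal_div, Complex.ofReal_re]

end Pool.Agent.PairFan
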