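import Pool.Agent.Lib_MP_92ef0c_pf.Pat

/-!
# MP_92ef0c_nt, PairFan: levels, sign patterns, variance
-/

set_option autoImplicit false

namespace Pool.Agent.PairFan

open Finset Pool.Agent.Spl Pool.Agent.SplB Pool.Agent.SplL Filter

/-! ### Change of the level -/

theorem up_sn {h0 Q n0 : ℕ} (hQ : HQ h0 Q n0) (s : ℕ) {e : Q4} (h1 : Sn h0 e) (h2 : e.b * e.c ≡ n0 [MOD Q]) :
    Sn h0 (up Q s e) ∧ (up Q s e).b * (up Q s e).c ≡ n0 [MOD Q] := by
  obtain ⟨-, cc, -⟩ := bs_cop hQ h1 h2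
  obtain ⟨h3, ha, hb, hc, hd, hab, hcd⟩ := h1
  have hdet : e.a * (e.d + s * Q * e.b) = e.b * (e.c + s * Q * e.a) + h0 := by
    calc e.a * (e.d + s * Q * e.b) = e.a * e.d + s * Q * e.a * e.b := by ring
      _ = e.b * e.c + h0 + s * Q * e.a * e.b := by rw [h3]
      _ = _ := by ring
  refine ⟨⟨hdet, ha, hb, ?_, ?_, hab, ?_⟩, ?_⟩
  · show 0 < e.c + s * Q * e.a
    omega
  · show 0 < e.d + s * Q * e.b
    omega
  · show (e.c + s * Q * e.a).Coprime (e.d + s * Q * e.b)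
    obtain ⟨g, hg⟩ : ∃ g, g = (e.c + s * Q * e.a).gcd (e.d + s * Q * e.b) := ⟨_, rfl⟩
    have g1 : g ∣ e.c + s * Q * e.a := hg ▸ Nat.gcd_dvd_left _ _
    have g2 : g ∣ e.d + s * Q * e.b := hg ▸ Nat.gcd_dvd_right _ _
    have g3 : g ∣ h0 := by
      have k1 : g ∣ e.a * (e.d + s * Q * e.b) := g2.mul_left _
      have k2 : g ∣ e.b * (e.c + s * Q * e.a) := g1.mul_left _
      rw [hdet] at k1
      exact (Nat.dvd_add_right k2).1 k1
    have g4 : g ∣ Q := g3.trans hQ.dvd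
    have g5 : g ∣ e.c := by
      have k1 : g ∣ s * Q * e.a := (g4.mul_left s).mul_right _
      exact (Nat.dvd_add_left k1).1 g1
    have g6 : g ∣ 1 := by
      have := Nat.dvd_gcd g5 g4
      rwa [cc] at this
    unfold Nat.Coprime
    rw [← hg]
    exact Nat.dvd_one.1 g6
  · show e.b * (e.c + s * Q * e.a) ≡ n0 [MOD Q]
    have k1 : e.b * (e.c + s * Q * e.a) = e.b * e.c + Q * (s * e.a * e.b) := by ring
    rw [k1]
    have k2 : e.b * e.c + Q * (s * e.a * e.b) ≡ e.b * e.c + 0 [MOD Q] :=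
      Nat.ModEq.add_left _ ((Nat.modEq_zero_iff_dvd).2 (Dvd.intro _ rfl))
    rw [add_zero] at k2
    exact k2.trans h2

theorem up_mem {h0 Q n0 : ℕ} (hQ : HQ h0 Q n0) (i s : ℕ) {X : ℝ} (hX : 0 ≤ X) {e : Q4} (he : e ∈ bs h0 Q n0 i X) :
    up Q s e ∈ bs h0 Q n0 (i + s) X := by
  obtain ⟨⟨hS, hc⟩, a1, b1, l1, l2⟩ := (mem_bs hX).1 he
  refine (mem_bs hX).2 ⟨up_sn hQ s hS hc, a1, b1, ?_, ?_⟩
  · show (i + s) * (Q * e.a) ≤ e.c + s * Q * e.a
    have : (i + s) * (Q * e.a) = i * (Q * e.a) + s * Q * e.a := by ring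
    omega
  · show e.c + s * Q * e.a < (i + s + 1) * (Q * e.a)
    have : (i + s + 1) * (Q * e.a) = (i + 1) * (Q * e.a) + s * Q * e.a := by ring
    omega

theorem up_surj {h0 Q n0 : ℕ} (hQ : HQ h0 Q n0) (i s : ℕ) {X : ℝ} (hX : 0 ≤ X) (hh : (h0 : ℝ) ≤ Real.sqrt X) {e : Q4}
    (he : e ∈ bs h0 Q n0 (i + s) X) : ∃ f ∈ bs h0 Q n0 i X, up Q s f = e := by
  obtain ⟨⟨hS, hc⟩, a1, b1, l1, l2⟩ := (mem_bs hX).1 he
  obtain ⟨-, cc, -⟩ := bs_cop hQ hS hc
  obtain ⟨h3, ha, hb, hc0, hd0, hab, hcd⟩ := hS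
  have e1 : (i + s) * (Q * e.a) = i * (Q * e.a) + s * Q * e.a := by ring
  have e2 : (i + s + 1) * (Q * e.a) = (i + 1) * (Q * e.a) + s * Q * e.a := by ring
  have hle : s * Q * e.a ≤ e.c := by omega
  obtain ⟨c, hcc⟩ : ∃ c, e.c = c + s * Q * e.a := ⟨e.c - s * Q * e.a, by omega⟩
  have hah : h0 < e.a := by
    have : (h0 : ℝ) < e.a := lt_of_le_of_lt hh a1.1
    exact_mod_cast this
  have hc1 : 0 < c := by
    rcases Nat.eq_zero_or_pos c with h | h
    · exfalso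
      rw [h, zero_add] at hcc
      have k1 : e.a ∣ e.b * e.c + h0 := by
        rw [← h3]
        exact Dvd.intro _ rfl
      have k2 : e.a ∣ e.b * e.c := by
        rw [hcc]
        exact (Dvd.intro_left _ rfl : e.a ∣ s * Q * e.a).mul_left _
      have k3 : e.a ∣ h0 := (Nat.dvd_add_right k2).1 k1
      have := Nat.le_of_dvd hQ.pos k3
      omega
    · exact h
  have hdle : s * Q * e.b < e.d := by
    have k1 : e.a * (s * Q * e.b) < e.a * e.d := by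
      rw [h3, hcc]
      have k2 : e.b * (c + s * Q * e.a) = e.b * c + e.a * (s * Q * e.b) := by ring
      rw [k2]
      have k3 : 0 < e.b * c := Nat.mul_pos hb hc1
      omega
    exact Nat.lt_of_mul_lt_mul_left k1
  obtain ⟨d, hdd⟩ : ∃ d, e.d = d + s * Q * e.b := ⟨e.d - s * Q * e.b, by omega⟩
  have hd1 : 0 < d := by omega
  have hdet : e.a * d = e.b * c + h0 := by
    rw [hcc, hdd] at h3
    have k1 : e.a * d + e.a * (s * Q * e.b) = (e.b * c + h0) + e.a * (s * Q * e.b) := by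
      calc _ = e.a * (d + s * Q * e.b) := by ring
        _ = e.b * (c + s * Q * e.a) + h0 := h3
        _ = _ := by ring
    exact Nat.add_right_cancel k1
  have hcls : e.b * c ≡ n0 [MOD Q] := by
    have k1 : e.b * e.c = e.b * c + Q * (s * e.a * e.b) := by
      rw [hcc]
      ring
    rw [k1] at hc
    have k2 : e.b * c + Q * (s * e.a * e.b) ≡ e.b * c + 0 [MOD Q] :=
      Nat.ModEq.add_left _ ((Nat.modEq_zero_iff_dvd).2 (Dvd.intro _ rfl))
    rw [add_zero] at k2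
    exact k2.symm.trans hc
  have hcQ : c.Coprime Q := by
    have h6 : (e.b * c).Coprime Q := by
      unfold Nat.Coprime
      rw [Nat.ModEq.gcd_eq hcls]
      exact hQ.cop
    exact Nat.Coprime.coprime_mul_left h6
  have hcop : c.Coprime d := by
    obtain ⟨g, hg⟩ : ∃ g, g = c.gcd d := ⟨_, rfl⟩
    have g1 : g ∣ c := hg ▸ Nat.gcd_dvd_left _ _
    have g2 : g ∣ d := hg ▸ Nat.gcd_dvd_right _ _
    have g3 : g ∣ h0 := by
      have k4 : g ∣ e.b * c + h0 := by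
        rw [← hdet]
        exact g2.mul_left _
      exact (Nat.dvd_add_right (g1.mul_left _)).1 k4
    have g6 : g ∣ 1 := by
      have := Nat.dvd_gcd g1 (g3.trans hQ.dvd)
      rwa [hcQ] at this
    unfold Nat.Coprime
    rw [← hg]
    exact Nat.dvd_one.1 g6
  refine ⟨⟨e.a, e.b, c, d⟩, (mem_bs hX).2 ⟨⟨⟨hdet, ha, hb, hc1, hd1, hab, hcop⟩, hcls⟩, a1, b1, ?_, ?_⟩, ?_⟩
  · show i * (Q * e.a) ≤ c
    omega
  · show c < (i + 1) * (Q * e.a)
    omega
  · unfold up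
    simp only
    rw [← hcc, ← hdd]

theorem sum_up {M : Type*} [AddCommMonoid M] {h0 Q n0 : ℕ} (hQ : HQ h0 Q n0) (i s : ℕ) {X : ℝ} (hX : 0 ≤ X)
    (hh : (h0 : ℝ) ≤ Real.sqrt X) (g : Q4 → M) :
    ∑ e ∈ bs h0 Q n0 i X, g (up Q s e) = ∑ e ∈ bs h0 Q n0 (i + s) X, g e := by
  refine sum_bij (fun e _ => up Q s e) (fun e he => up_mem hQ i s hX he) ?_ ?_ (fun e _ => rfl)
  · intro e _ e' _ h
    have h1 := congrArg Q4.a h
    have h2 := congrArg Q4.b h
    have h3 := congrArg Q4.c h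
    have h4 := congrArg Q4.d h
    unfold up at h1 h2 h3 h4
    simp only at h1 h2 h3 h4
    rw [h1] at h3
    rw [h2] at h4
    have h5 := Nat.add_right_cancel h3
    have h6 := Nat.add_right_cancel h4
    cases e
    cases e'
    simp only at h1 h2 h5 h6
    subst h1 h2 h5 h6
    rfl
  · intro e he
    obtain ⟨f, hf, rfl⟩ := up_surj hQ i s hX hh he
    exact ⟨f, hf, rfl⟩

/-! ### The means of the parities -/

theorem ev_sqrt (h0 : ℕ) : ∀ᶠ X : ℝ in atTop, 1 ≤ X ∧ (h0 : ℝ) ≤ Real.sqrt X := by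
  filter_upwards [eventually_ge_atTop (1 : ℝ), Real.tendsto_sqrt_atTop.eventually_ge_atTop (h0 : ℝ)] with X h1 h2
  exact ⟨h1, h2⟩

theorem mean_x0 (B : BS) {h0 Q n0 : ℕ} (hQ : HQ h0 Q n0) (i : ℕ) :
    Tendsto (fun X : ℝ => (∑ e ∈ bs h0 Q n0 i X, (xs h0 Q 0 e : ℝ)) / X) atTop (nhds 0) := by
  refine (lam_mean B hQ i 0 (by simp)).congr' ?_
  filter_upwards [ev_sqrt h0] with X hX
  congr 1
  refine sum_congr rfl fun e he => ?_
  have hS := ((mem_bs (by linarith [hX.1])).1 he).1.1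
  rw [xs_eq 0 hS, Fin.prod_univ_four]
  congr 1
  unfold tr
  rw [if_pos (zero_mul Q)]
  show lio e.a * lio e.b * lio e.c * lio e.d = _
  simp only [zero_mul, add_zero]
  ring

theorem mean_xx0 (B : BS) {h0 Q n0 : ℕ} (hQ : HQ h0 Q n0) (i s : ℕ) (hs0 : 0 < s) (hs : s.primeFactors ⊆ Q.primeFactors) :
    Tendsto (fun X : ℝ => (∑ e ∈ bs h0 Q n0 i X, ((xs h0 Q 0 e : ℝ) * (xs h0 Q s e : ℝ))) / X) atTop (nhds 0) := by
  refine (lam_mean B hQ i s hs).congr' ?_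
  filter_upwards [ev_sqrt h0] with X hX
  congr 1
  refine sum_congr rfl fun e he => ?_
  have hS := ((mem_bs (by linarith [hX.1])).1 he).1.1
  rw [← Int.cast_mul, mul_comm (xs h0 Q 0 e), xs_mul s hS, Fin.prod_univ_four]
  congr 1
  unfold tr
  rw [if_neg (Nat.mul_pos hs0 hQ.posQ).ne']
  show lio (e.c + s * Q * e.a) * lio (e.d + s * Q * e.b) * lio e.c * lio e.d = _
  ring

theorem mean_x (B : BS) {h0 Q n0 : ℕ} (hQ : HQ h0 Q n0) (i s : ℕ) :
    Tendsto (fun X : ℝ => (∑ e ∈ bs h0 Q n0 i X, (xs h0 Q s e : ℝ)) / X) atTop (nhds 0) := by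
  refine (mean_x0 B hQ (i + s)).congr' ?_
  filter_upwards [ev_sqrt h0] with X hX
  congr 1
  rw [← sum_up hQ i s (by linarith [hX.1]) hX.2]
  refine sum_congr rfl fun e _ => ?_
  rw [xs_up, add_zero]

theorem mean_xx (B : BS) {h0 Q n0 : ℕ} (hQ : HQ h0 Q n0) (i s t : ℕ) (hst : s < t)
    (hs : (t - s).primeFactors ⊆ Q.primeFactors) :
    Tendsto (fun X : ℝ => (∑ e ∈ bs h0 Q n0 i X, ((xs h0 Q s e : ℝ) * (xs h0 Q t e : ℝ))) / X) atTop (nhds 0) := by
  refine (mean_xx0 B hQ (i + s) (t - s) (by omega) hs).congr' ?_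
  filter_upwards [ev_sqrt h0] with X hX
  congr 1
  rw [← sum_up hQ i s (by linarith [hX.1]) hX.2]
  refine sum_congr rfl fun e _ => ?_
  rw [xs_up, xs_up, add_zero, Nat.add_sub_cancel' hst.le]

end Pool.Agent.PairFan
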