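import Pool.Agent.Lib_MP_92ef0c_pf.Pat2

/-!
# MP_92ef0c_nt, PairFan: sign patterns, variance
-/

set_option autoImplicit false

namespace Pool.Agent.PairFan

open Finset Pool.Agent.Spl Pool.Agent.SplB Pool.Agent.SplL Filter

/-- the sum of `g` over `F X` is `o(X)` -/
def Sm (F : ℝ → Finset Q4) (g : ℝ → Q4 → ℝ) : Prop :=
  Tendsto (fun X : ℝ => (∑ e ∈ F X, g X e) / X) atTop (nhds 0)

theorem Sm.add {F : ℝ → Finset Q4} {g g' : ℝ → Q4 → ℝ} (h : Sm F g) (h' : Sm F g') : Sm F (fun X e => g X e + g' X e) := by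
  have := Tendsto.add h h'
  rw [add_zero] at this
  refine this.congr fun X => ?_
  rw [sum_add_distrib, add_div]

theorem Sm.smul {F : ℝ → Finset Q4} {g : ℝ → Q4 → ℝ} (h : Sm F g) (c : ℝ) : Sm F (fun X e => c * g X e) := by
  have := Tendsto.const_mul c h
  rw [mul_zero] at this
  refine this.congr fun X => ?_
  rw [← mul_sum, mul_div_assoc]

theorem Sm.sub {F : ℝ → Finset Q4} {g g' : ℝ → Q4 → ℝ} (h : Sm F g) (h' : Sm F g') : Sm F (fun X e => g X e - g' X e) := by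
  have := Tendsto.sub h h'
  rw [sub_zero] at this
  refine this.congr fun X => ?_
  rw [sum_sub_distrib, sub_div]

theorem Sm.congr {F : ℝ → Finset Q4} {g g' : ℝ → Q4 → ℝ} (h : Sm F g) (h' : ∀ᶠ X in atTop, ∀ e ∈ F X, g X e = g' X e) :
    Sm F g' := by
  refine Tendsto.congr' ?_ h
  filter_upwards [h'] with X hX
  rw [sum_congr rfl hX]

theorem Sm.zero (F : ℝ → Finset Q4) : Sm F (fun _ _ => 0) := by
  unfold Sm
  simp

theorem Sm.sum {ι : Type*} (S : Finset ι) {F : ℝ → Finset Q4} {g : ι → ℝ → Q4 → ℝ} (h : ∀ j ∈ S, Sm F (g j)) :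
    Sm F (fun X e => ∑ j ∈ S, g j X e) := by
  classical
  induction S using Finset.induction_on with
  | empty =>
    simp only [sum_empty]
    exact Sm.zero F
  | insert a S ha ih =>
    simp only [sum_insert ha]
    exact (h a (mem_insert_self _ _)).add (ih fun j hj => h j (mem_insert_of_mem hj))

/-- the quotient by the number of elements -/
theorem ratio {A N : ℝ → ℝ} {c κ : ℝ} (hκ : 0 < κ) (hN : ∀ᶠ X : ℝ in atTop, κ * X ≤ N X)
    (h : Tendsto (fun X => (A X - c * N X) / X) atTop (nhds 0)) : Tendsto (fun X => A X / N X) atTop (nhds c) := by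
  rw [tendsto_iff_norm_sub_tendsto_zero]
  have h1 := (tendsto_zero_iff_norm_tendsto_zero.1 h).const_mul (1 / κ)
  rw [mul_zero] at h1
  refine tendsto_of_tendsto_of_tendsto_of_le_of_le' tendsto_const_nhds h1 (Eventually.of_forall fun X => norm_nonneg _) ?_
  filter_upwards [hN, eventually_gt_atTop (0 : ℝ)] with X h2 h3
  have h4 : 0 < N X := lt_of_lt_of_le (by positivity) h2
  have h5 : A X / N X - c = (A X - c * N X) / N X := by
    field_simp
  rw [h5, norm_div, norm_div, Real.norm_eq_abs (N X), Real.norm_eq_abs X, abs_of_pos h3, abs_of_pos h4]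
  rw [div_mul_div_comm, one_mul]
  exact div_le_div_of_nonneg_left (norm_nonneg _) (by positivity) h2

/-- the sum of `g` is the number of elements times `c`, up to `o(X)` -/
theorem Sm.ratio {F : ℝ → Finset Q4} {g : ℝ → Q4 → ℝ} {c κ : ℝ} (hκ : 0 < κ)
    (hN : ∀ᶠ X : ℝ in atTop, κ * X ≤ ((F X).card : ℝ)) (h : Sm F (fun X e => g X e - c)) :
    Tendsto (fun X => (∑ e ∈ F X, g X e) / ((F X).card : ℝ)) atTop (nhds c) := by
  refine PairFan.ratio hκ hN (Tendsto.congr (fun X => ?_) h)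
  rw [sum_sub_distrib, sum_const, nsmul_eq_mul, mul_comm c]

/-- the exact variance from the correlations -/
theorem var_gen {F : ℝ → Finset Q4} (K : ℕ) (G : ℕ → ℝ → Q4 → ℝ) (μ ν : ℝ)
    (h1 : ∀ s < K, Sm F (fun X e => G s X e - μ)) (h2 : ∀ s < K, Sm F (fun X e => G s X e ^ 2 - ν))
    (h3 : ∀ s t, s < t → t < K → Sm F (fun X e => G s X e * G t X e - μ ^ 2)) :
    Sm F (fun X e => (∑ s ∈ range K, G s X e - K * μ) ^ 2 - K * (ν - μ ^ 2)) := by
  have h4 : Sm F (fun X e => ∑ s ∈ range K, ∑ t ∈ range K,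
      (if s = t then G s X e ^ 2 - ν else G s X e * G t X e - μ ^ 2)) := by
    refine Sm.sum _ fun s hs => Sm.sum _ fun t ht => ?_
    rw [mem_range] at hs ht
    rcases lt_trichotomy s t with h | h | h
    · refine (h3 s t h ht).congr (Eventually.of_forall fun X e _ => ?_)
      rw [if_neg h.ne]
    · refine (h2 s hs).congr (Eventually.of_forall fun X e _ => ?_)
      rw [if_pos h]
    · refine (h3 t s h hs).congr (Eventually.of_forall fun X e _ => ?_)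
      rw [if_neg h.ne', mul_comm (G s X e)]
  have h5 : Sm F (fun X e => (2 * K * μ) * ∑ s ∈ range K, (G s X e - μ)) :=
    (Sm.sum _ fun s hs => h1 s (mem_range.1 hs)).smul _
  refine (h4.sub h5).congr (Eventually.of_forall fun X e _ => ?_)
  have e1 : ∀ s ∈ range K, ∑ t ∈ range K, (if s = t then G s X e ^ 2 - ν else G s X e * G t X e - μ ^ 2) =
      (∑ t ∈ range K, (G s X e * G t X e - μ ^ 2)) + (μ ^ 2 - ν) := by
    intro s hs
    have e2 : ∀ t ∈ range K, (if s = t then G s X e ^ 2 - ν else G s X e * G t X e - μ ^ 2) =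
        (G s X e * G t X e - μ ^ 2) + (if s = t then μ ^ 2 - ν else 0) := by
      intro t _
      by_cases h : s = t
      · subst h
        rw [if_pos rfl, if_pos rfl]
        ring
      · rw [if_neg h, if_neg h, add_zero]
    rw [sum_congr rfl e2, sum_add_distrib, sum_ite_eq, if_pos hs]
  rw [sum_congr rfl e1, sum_add_distrib, sum_const, card_range, nsmul_eq_mul]
  have e3 : ∑ s ∈ range K, ∑ t ∈ range K, (G s X e * G t X e - μ ^ 2) =
      (∑ s ∈ range K, G s X e) ^ 2 - (K : ℝ) ^ 2 * μ ^ 2 := by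
    simp only [sum_sub_distrib, sum_const, card_range, nsmul_eq_mul]
    rw [sq (∑ s ∈ range K, G s X e), sum_mul_sum]
    ring
  have e4 : ∑ s ∈ range K, (G s X e - μ) = ∑ s ∈ range K, G s X e - K * μ := by
    rw [sum_sub_distrib, sum_const, card_range, nsmul_eq_mul]
  rw [e3, e4]
  ring

/-! ### Eight patterns -/

theorem pat_ineq (x0 x1 x2 x3 a b c : ℤ) (h0 : x0 = 1 ∨ x0 = -1) (h1 : x1 = 1 ∨ x1 = -1) (h2 : x2 = 1 ∨ x2 = -1)
    (h3 : x3 = 1 ∨ x3 = -1) (ha : a = 1 ∨ a = -1) (hb : b = 1 ∨ b = -1) (hc : c = 1 ∨ c = -1) :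
    1 + ((a * x0 + b * x1 + c * x2 + a * b * (x0 * x1) + a * c * (x0 * x2) + b * c * (x1 * x2)) +
      (a * x1 + b * x2 + c * x3 + a * b * (x1 * x2) + a * c * (x1 * x3) + b * c * (x2 * x3)) - x0 * x3) ≤
      8 * ((if x0 = a ∧ x1 = b ∧ x2 = c then 1 else 0) + (if x1 = a ∧ x2 = b ∧ x3 = c then 1 else 0)) := by
  rcases h0 with rfl | rfl <;> rcases h1 with rfl | rfl <;> rcases h2 with rfl | rfl <;> rcases h3 with rfl | rfl <;>
    rcases ha with rfl | rfl <;> rcases hb with rfl | rfl <;> rcases hc with rfl | rfl <;> decide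

/-- all eight patterns at two consecutive levels -/
theorem pat_low (B : BS) {h0 Q n0 : ℕ} (hQ : HQ h0 Q n0) (h6 : 6 ∣ Q) (i : ℕ) (a b c : ℤ) (ha : a = 1 ∨ a = -1)
    (hb : b = 1 ∨ b = -1) (hc : c = 1 ∨ c = -1) (ε : ℝ) (hε : 0 < ε) : ∀ᶠ X : ℝ in atTop,
    1 / 8 * ((bs h0 Q n0 i X).card : ℝ) - ε * X ≤
      (((bs h0 Q n0 i X).filter (fun e => xs h0 Q 0 e = a ∧ xs h0 Q 1 e = b ∧ xs h0 Q 2 e = c)).card : ℝ) +
        (((bs h0 Q n0 i X).filter (fun e => xs h0 Q 1 e = a ∧ xs h0 Q 2 e = b ∧ xs h0 Q 3 e = c)).card : ℝ) := by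
  have p2 : 2 ∈ Q.primeFactors := Nat.mem_primeFactors.2 ⟨Nat.prime_two, (by norm_num : 2 ∣ 6).trans h6, hQ.posQ.ne'⟩
  have p3 : 3 ∈ Q.primeFactors := Nat.mem_primeFactors.2 ⟨Nat.prime_three, (by norm_num : 3 ∣ 6).trans h6, hQ.posQ.ne'⟩
  have q1 : (1 : ℕ).primeFactors ⊆ Q.primeFactors := by simp
  have q2 : (2 : ℕ).primeFactors ⊆ Q.primeFactors := by
    rw [Nat.Prime.primeFactors Nat.prime_two]
    exact singleton_subset_iff.2 p2
  have q3 : (3 : ℕ).primeFactors ⊆ Q.primeFactors := by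
    rw [Nat.Prime.primeFactors Nat.prime_three]
    exact singleton_subset_iff.2 p3
  have m : ∀ s, Sm (bs h0 Q n0 i) (fun _ e => (xs h0 Q s e : ℝ)) := fun s => mean_x B hQ i s
  have mm : ∀ s t, s < t → (t - s).primeFactors ⊆ Q.primeFactors →
      Sm (bs h0 Q n0 i) (fun _ e => (xs h0 Q s e : ℝ) * (xs h0 Q t e : ℝ)) := fun s t h h' => mean_xx B hQ i s t h h'
  have m01 := mm 0 1 (by norm_num) q1
  have m12 := mm 1 2 (by norm_num) q1
  have m23 := mm 2 3 (by norm_num) q1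
  have m02 := mm 0 2 (by norm_num) q2
  have m13 := mm 1 3 (by norm_num) q2
  have m03 := mm 0 3 (by norm_num) q3
  have hs := ((((((((m 0).smul a).add ((m 1).smul b)).add ((m 2).smul c)).add (m01.smul (a * b))).add
    (m02.smul (a * c))).add (m12.smul (b * c))).add
    ((((((m 1).smul a).add ((m 2).smul b)).add ((m 3).smul c)).add (m12.smul (a * b))).add
    (m13.smul (a * c)) |>.add (m23.smul (b * c)))).sub m03
  have h1 := (Metric.tendsto_nhds.1 hs) (8 * ε) (by positivity)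
  filter_upwards [h1, eventually_gt_atTop (0 : ℝ)] with X hX hX0
  rw [dist_zero_right, norm_div, Real.norm_eq_abs, Real.norm_eq_abs, abs_of_pos hX0, div_lt_iff₀ hX0] at hX
  have h2 := (abs_lt.1 hX).1
  have h3 : ∀ e ∈ bs h0 Q n0 i X, (1 : ℝ) + ((a * (xs h0 Q 0 e : ℝ) + b * (xs h0 Q 1 e : ℝ) + c * (xs h0 Q 2 e : ℝ) +
      a * b * ((xs h0 Q 0 e : ℝ) * (xs h0 Q 1 e : ℝ)) + a * c * ((xs h0 Q 0 e : ℝ) * (xs h0 Q 2 e : ℝ)) +
      b * c * ((xs h0 Q 1 e : ℝ) * (xs h0 Q 2 e : ℝ))) + (a * (xs h0 Q 1 e : ℝ) + b * (xs h0 Q 2 e : ℝ) +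
      c * (xs h0 Q 3 e : ℝ) + a * b * ((xs h0 Q 1 e : ℝ) * (xs h0 Q 2 e : ℝ)) +
      a * c * ((xs h0 Q 1 e : ℝ) * (xs h0 Q 3 e : ℝ)) + b * c * ((xs h0 Q 2 e : ℝ) * (xs h0 Q 3 e : ℝ))) -
      (xs h0 Q 0 e : ℝ) * (xs h0 Q 3 e : ℝ)) ≤
      8 * ((if xs h0 Q 0 e = a ∧ xs h0 Q 1 e = b ∧ xs h0 Q 2 e = c then 1 else 0) +
        (if xs h0 Q 1 e = a ∧ xs h0 Q 2 e = b ∧ xs h0 Q 3 e = c then 1 else 0)) := by
    intro e _
    have h4 := pat_ineq (xs h0 Q 0 e) (xs h0 Q 1 e) (xs h0 Q 2 e) (xs h0 Q 3 e) a b c (chi_or _ _) (chi_or _ _)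
      (chi_or _ _) (chi_or _ _) ha hb hc
    have h5 : ((1 + ((a * xs h0 Q 0 e + b * xs h0 Q 1 e + c * xs h0 Q 2 e + a * b * (xs h0 Q 0 e * xs h0 Q 1 e) +
      a * c * (xs h0 Q 0 e * xs h0 Q 2 e) + b * c * (xs h0 Q 1 e * xs h0 Q 2 e)) +
      (a * xs h0 Q 1 e + b * xs h0 Q 2 e + c * xs h0 Q 3 e + a * b * (xs h0 Q 1 e * xs h0 Q 2 e) +
      a * c * (xs h0 Q 1 e * xs h0 Q 3 e) + b * c * (xs h0 Q 2 e * xs h0 Q 3 e)) - xs h0 Q 0 e * xs h0 Q 3 e) : ℤ) : ℝ) ≤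
      ((8 * ((if xs h0 Q 0 e = a ∧ xs h0 Q 1 e = b ∧ xs h0 Q 2 e = c then 1 else 0) +
        (if xs h0 Q 1 e = a ∧ xs h0 Q 2 e = b ∧ xs h0 Q 3 e = c then 1 else 0)) : ℤ) : ℝ) := by
      exact_mod_cast h4
    push_cast at h5
    exact h5
  have h4 := sum_le_sum h3
  rw [sum_add_distrib, sum_const, nsmul_eq_mul, mul_one, ← mul_sum, sum_add_distrib] at h4
  have h5 : ∀ (P : Q4 → Prop) [DecidablePred P], ∑ e ∈ bs h0 Q n0 i X, (if P e then (1 : ℝ) else 0) =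
      (((bs h0 Q n0 i X).filter P).card : ℝ) := by
    intro P _
    rw [card_filter]
    push_cast
    rfl
  rw [← h5, ← h5]
  linarith

end Pool.Agent.PairFan
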