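import Pool.Agent.Lib_MP_92ef0c_pf.Pat3
import Pool.Agent.Lib_MP_92ef0c_pf.Lawg

/-!
# MP_92ef0c_nt, PairFan: the law with windows, the variance with windows
-/

set_option autoImplicit false

namespace Pool.Agent.PairFan

open Finset Pool.Agent.Spl Pool.Agent.SplB Pool.Agent.SplL Pool.Agent.OmEq Pool.Agent.LPr Filter

/-- `c` is the density of the numbers with the prescribed numbers of prime factors in the windows -/
def Dens (r : ℕ) (u v : ℕ → ℝ) (l : ℕ → ℕ) (c : ℝ) : Prop :=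
  Tendsto (fun y : ℝ => (Set.ncard {n : ℕ | 1 ≤ n ∧ (n : ℝ) ≤ y ∧ ∀ t < r, wc y (u t) (v t) n = l t} : ℝ) / y) atTop
    (nhds c)

theorem dens_zero (u v : ℕ → ℝ) (l : ℕ → ℕ) : Dens 0 u v l 1 := by
  unfold Dens
  refine tendsto_nat_floor_div_atTop.congr' ?_
  filter_upwards [eventually_ge_atTop (0 : ℝ)] with y hy
  congr 2
  have h1 : {n : ℕ | 1 ≤ n ∧ (n : ℝ) ≤ y ∧ ∀ t < 0, wc y (u t) (v t) n = l t} = ((Icc 1 ⌊y⌋₊ : Finset ℕ) : Set ℕ) := by
    ext n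
    simp only [Set.mem_ofPred_eq, coe_Icc, Set.mem_Icc]
    constructor
    · rintro ⟨a, b, -⟩
      exact ⟨a, Nat.le_floor b⟩
    · rintro ⟨a, b⟩
      exact ⟨a, (Nat.le_floor_iff hy).1 b, fun t ht => absurd ht (Nat.not_lt_zero t)⟩
  rw [h1, Set.ncard_coe_finset, Nat.card_Icc, Nat.add_sub_cancel]

/-- the densities exist -/
theorem dens_ex (r : ℕ) (u v : ℕ → ℝ) (l : ℕ → ℕ) (hu : ∀ t < r, 0 < u t ∧ u t ≤ v t) : ∃ c, Dens r u v l c := by
  obtain ⟨u0, K, hu0, hKu, H1, H2⟩ := exists_par (fun _ => r) (fun _ => u) (fun _ => l) (fun _ j hj => (hu j hj).1)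
  obtain ⟨c, -, hc⟩ := int_lawG K u0 hu0 u v r (fun i hi => ⟨H1 0 i hi, (hu i hi).2⟩) hKu l (H2 0)
  exact ⟨c, hc⟩

open Classical in
/-- the law with windows -/
theorem law_fan (B : BS) {h0 Q n0 : ℕ} (hQ : HQ h0 Q n0) (i s : ℕ) (hs : s.primeFactors ⊆ Q.primeFactors)
    (r : Fin 4 → ℕ) (u v : Fin 4 → ℕ → ℝ) (l : Fin 4 → ℕ → ℕ) (hu : ∀ j, ∀ t < r j, 0 < u j t ∧ u j t ≤ v j t)
    (c : Fin 4 → ℝ) (hc : ∀ j, Dens (r j) (u j) (v j) (l j) (c j)) (q : ℕ) (hq : 0 < q) (w : Fin 4 → ℕ) :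
    Sm (bs h0 Q n0 i) (fun X e => (if PC q w r u v l X (tr (s * Q) e) then (1 : ℝ) else 0) - (∏ j, c j) / (q : ℝ) ^ 4) := by
  obtain ⟨u0, K, hu0, hKu, H1, H2⟩ := exists_par r u l (fun i j hj => (hu i j hj).1)
  have hcG : ∀ j, (c j : ℂ) = cG K (u j) (v j) (r j) (l j) := by
    intro j
    obtain ⟨c', hc', hl⟩ := int_lawG K u0 hu0 (u j) (v j) (r j) (fun i hi => ⟨H1 j i hi, (hu j i hi).2⟩) hKu (l j)
      (H2 j)
    rw [tendsto_nhds_unique (hc j) hl, hc']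
  have h1 := law_gen B hQ.posQ (bs h0 Q n0 i) (tr (s * Q)) (fan_ent hQ i s)
    (fun q z f m hq hz hf hm => fan_mean B hq hQ i s hs z f m hz hf hm) q K u0 r u v l c hq hu0
    (fun j t ht => ⟨H1 j t ht, (hu j t ht).2⟩) hKu H2 hcG w
  refine Tendsto.congr (fun X => ?_) h1
  congr 1
  rw [sum_sub_distrib, sum_const, nsmul_eq_mul, card_filter]
  push_cast
  ring

/-! ### Conditions on one second row -/

/-- the conditions on a second row -/
def FF (q : ℕ) (w r : Fin 2 → ℕ) (u v : Fin 2 → ℕ → ℝ) (l : Fin 2 → ℕ → ℕ) (y : ℝ) (c d : ℕ) : Prop :=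
  (ArithmeticFunction.cardFactors c ≡ w 0 [MOD q] ∧ ∀ t < r 0, wc y (u 0 t) (v 0 t) c = l 0 t) ∧
    (ArithmeticFunction.cardFactors d ≡ w 1 [MOD q] ∧ ∀ t < r 1, wc y (u 1 t) (v 1 t) d = l 1 t)

open Classical in
/-- the indicator of the conditions at `s` levels above -/
noncomputable def gF (Q q : ℕ) (w r : Fin 2 → ℕ) (u v : Fin 2 → ℕ → ℝ) (l : Fin 2 → ℕ → ℕ) (s : ℕ) (X : ℝ) (e : Q4) :
    ℝ :=
  if FF q w r u v l (Real.sqrt X) (e.c + s * Q * e.a) (e.d + s * Q * e.b) then 1 else 0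

theorem gF_up (Q q : ℕ) (w r : Fin 2 → ℕ) (u v : Fin 2 → ℕ → ℝ) (l : Fin 2 → ℕ → ℕ) (s t : ℕ) (X : ℝ) (e : Q4) :
    gF Q q w r u v l t X (up Q s e) = gF Q q w r u v l (s + t) X e := by
  unfold gF up
  simp only
  have e1 : e.c + s * Q * e.a + t * Q * e.a = e.c + (s + t) * Q * e.a := by ring
  have e2 : e.d + s * Q * e.b + t * Q * e.b = e.d + (s + t) * Q * e.b := by ring
  rw [e1, e2]

theorem gF_sq (Q q : ℕ) (w r : Fin 2 → ℕ) (u v : Fin 2 → ℕ → ℝ) (l : Fin 2 → ℕ → ℕ) (s : ℕ) (X : ℝ) (e : Q4) :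
    gF Q q w r u v l s X e ^ 2 = gF Q q w r u v l s X e := by
  unfold gF
  split_ifs <;> norm_num

section

variable {h0 Q n0 q : ℕ} {w r : Fin 2 → ℕ} {u v : Fin 2 → ℕ → ℝ} {l : Fin 2 → ℕ → ℕ} {c : Fin 2 → ℝ}

theorem gF_mean0 (B : BS) (hQ : HQ h0 Q n0) (hq : 0 < q) (hu : ∀ j, ∀ t < r j, 0 < u j t ∧ u j t ≤ v j t)
    (hc : ∀ j, Dens (r j) (u j) (v j) (l j) (c j)) (i : ℕ) :
    Sm (bs h0 Q n0 i) (fun X e => gF Q q w r u v l 0 X e - c 0 * c 1 / (q : ℝ) ^ 2) := by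
  classical
  have hq0 : (q : ℝ) ≠ 0 := by exact_mod_cast hq.ne'
  have h1 : ∀ x ∈ range q ×ˢ range q, Sm (bs h0 Q n0 i) (fun X e =>
      (if PC q ![x.1, x.2, w 0, w 1] ![0, 0, r 0, r 1] ![u 0, u 0, u 0, u 1] ![v 0, v 0, v 0, v 1] ![l 0, l 0, l 0, l 1] X
        (tr (0 * Q) e) then (1 : ℝ) else 0) - c 0 * c 1 / (q : ℝ) ^ 4) := by
    intro x _
    have h2 := law_fan B hQ i 0 (by simp) ![0, 0, r 0, r 1] ![u 0, u 0, u 0, u 1] ![v 0, v 0, v 0, v 1]
      ![l 0, l 0, l 0, l 1] (by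
        intro j t ht
        fin_cases j
        · exact absurd ht (Nat.not_lt_zero t)
        · exact absurd ht (Nat.not_lt_zero t)
        · exact hu 0 t ht
        · exact hu 1 t ht) ![1, 1, c 0, c 1] (by
        intro j
        fin_cases j
        · exact dens_zero _ _ _
        · exact dens_zero _ _ _
        · exact hc 0
        · exact hc 1) q hq ![x.1, x.2, w 0, w 1]
    have h3 : ∏ j, (![1, 1, c 0, c 1] : Fin 4 → ℝ) j = c 0 * c 1 := by
      rw [Fin.prod_univ_four]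
      show (1 : ℝ) * 1 * c 0 * c 1 = _
      ring
    rw [h3] at h2
    exact h2
  refine (Sm.sum _ h1).congr (Eventually.of_forall fun X e _ => ?_)
  rw [sum_sub_distrib, sum_const, card_product, card_range, nsmul_eq_mul]
  have h4 : ((q * q : ℕ) : ℝ) * (c 0 * c 1 / (q : ℝ) ^ 4) = c 0 * c 1 / (q : ℝ) ^ 2 := by
    push_cast
    field_simp
  rw [h4]
  congr 1
  have h5 : ∀ x : ℕ × ℕ, PC q ![x.1, x.2, w 0, w 1] ![0, 0, r 0, r 1] ![u 0, u 0, u 0, u 1] ![v 0, v 0, v 0, v 1]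
      ![l 0, l 0, l 0, l 1] X (tr (0 * Q) e) ↔ ((ArithmeticFunction.cardFactors e.a ≡ x.1 [MOD q] ∧
        ArithmeticFunction.cardFactors e.b ≡ x.2 [MOD q]) ∧ FF q w r u v l (Real.sqrt X) e.c e.d) := by
    intro x
    have e0 : tr (0 * Q) e = e := if_pos (zero_mul Q)
    rw [e0]
    unfold PC FF
    rw [Fin.forall_fin_succ, Fin.forall_fin_succ, Fin.forall_fin_succ, Fin.forall_fin_one]
    constructor
    · rintro ⟨⟨a1, -⟩, ⟨a2, -⟩, a3, a4⟩
      exact ⟨⟨a1, a2⟩, a3, a4⟩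
    · rintro ⟨⟨a1, a2⟩, a3, a4⟩
      exact ⟨⟨a1, fun t ht => absurd ht (Nat.not_lt_zero t)⟩, ⟨a2, fun t ht => absurd ht (Nat.not_lt_zero t)⟩, a3, a4⟩
  simp only [h5]
  have hg : gF Q q w r u v l 0 X e = if FF q w r u v l (Real.sqrt X) e.c e.d then 1 else 0 := by
    unfold gF
    simp only [zero_mul, add_zero]
  rw [hg]
  by_cases hF : FF q w r u v l (Real.sqrt X) e.c e.d
  · rw [if_pos hF]
    have hmod : ∀ n y : ℕ, y ∈ range q → (n ≡ y [MOD q] ↔ y = n % q) := by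
      intro n y hy
      rw [mem_range] at hy
      constructor
      · intro h
        have h6 : n % q = y % q := h
        rw [h6, Nat.mod_eq_of_lt hy]
      · rintro rfl
        exact (Nat.mod_modEq n q).symm
    rw [sum_eq_single (ArithmeticFunction.cardFactors e.a % q, ArithmeticFunction.cardFactors e.b % q)]
    · rw [if_pos]
      exact ⟨⟨(Nat.mod_modEq _ q).symm, (Nat.mod_modEq _ q).symm⟩, hF⟩
    · rintro ⟨x, y⟩ hxy hne
      rw [if_neg]
      rintro ⟨⟨k1, k2⟩, -⟩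
      rw [mem_product] at hxy
      apply hne
      rw [Prod.mk.injEq]
      exact ⟨(hmod _ _ hxy.1).1 k1, (hmod _ _ hxy.2).1 k2⟩
    · intro h
      exfalso
      apply h
      rw [mem_product, mem_range, mem_range]
      exact ⟨Nat.mod_lt _ hq, Nat.mod_lt _ hq⟩
  · rw [if_neg hF]
    refine sum_eq_zero fun x _ => ?_
    rw [if_neg fun h => hF h.2]

theorem gF_mean00 (B : BS) (hQ : HQ h0 Q n0) (hq : 0 < q) (hu : ∀ j, ∀ t < r j, 0 < u j t ∧ u j t ≤ v j t)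
    (hc : ∀ j, Dens (r j) (u j) (v j) (l j) (c j)) (i s : ℕ) (hs0 : 0 < s) (hs : s.primeFactors ⊆ Q.primeFactors) :
    Sm (bs h0 Q n0 i) (fun X e => gF Q q w r u v l 0 X e * gF Q q w r u v l s X e - (c 0 * c 1 / (q : ℝ) ^ 2) ^ 2) := by
  classical
  have hq0 : (q : ℝ) ≠ 0 := by exact_mod_cast hq.ne'
  have h2 := law_fan B hQ i s hs ![r 0, r 1, r 0, r 1] ![u 0, u 1, u 0, u 1] ![v 0, v 1, v 0, v 1]
      ![l 0, l 1, l 0, l 1] (by
        intro j t ht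
        fin_cases j
        · exact hu 0 t ht
        · exact hu 1 t ht
        · exact hu 0 t ht
        · exact hu 1 t ht) ![c 0, c 1, c 0, c 1] (by
        intro j
        fin_cases j
        · exact hc 0
        · exact hc 1
        · exact hc 0
        · exact hc 1) q hq ![w 0, w 1, w 0, w 1]
  have h3 : (∏ j, (![c 0, c 1, c 0, c 1] : Fin 4 → ℝ) j) / (q : ℝ) ^ 4 = (c 0 * c 1 / (q : ℝ) ^ 2) ^ 2 := by
    rw [Fin.prod_univ_four]
    show c 0 * c 1 * c 0 * c 1 / (q : ℝ) ^ 4 = _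
    field_simp
  rw [h3] at h2
  refine h2.congr (Eventually.of_forall fun X e _ => ?_)
  congr 1
  have h5 : PC q ![w 0, w 1, w 0, w 1] ![r 0, r 1, r 0, r 1] ![u 0, u 1, u 0, u 1] ![v 0, v 1, v 0, v 1]
      ![l 0, l 1, l 0, l 1] X (tr (s * Q) e) ↔ (FF q w r u v l (Real.sqrt X) (e.c + s * Q * e.a) (e.d + s * Q * e.b) ∧
        FF q w r u v l (Real.sqrt X) (e.c + 0 * Q * e.a) (e.d + 0 * Q * e.b)) := by
    have e0 : tr (s * Q) e = sh (s * Q) e := if_neg (Nat.mul_pos hs0 hQ.posQ).ne'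
    rw [e0]
    unfold PC FF
    rw [Fin.forall_fin_succ, Fin.forall_fin_succ, Fin.forall_fin_succ, Fin.forall_fin_one]
    simp only [zero_mul, add_zero]
    constructor
    · rintro ⟨a1, a2, a3, a4⟩
      exact ⟨⟨a1, a2⟩, a3, a4⟩
    · rintro ⟨⟨a1, a2⟩, a3, a4⟩
      exact ⟨a1, a2, a3, a4⟩
  unfold gF
  by_cases k1 : FF q w r u v l (Real.sqrt X) (e.c + 0 * Q * e.a) (e.d + 0 * Q * e.b)
  · by_cases k2 : FF q w r u v l (Real.sqrt X) (e.c + s * Q * e.a) (e.d + s * Q * e.b)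
    · rw [if_pos (h5.2 ⟨k2, k1⟩), if_pos k1, if_pos k2, one_mul]
    · rw [if_neg (fun h => k2 (h5.1 h).1), if_neg k2, mul_zero]
  · rw [if_neg (fun h => k1 (h5.1 h).2), if_neg k1, zero_mul]

theorem gF_mean (B : BS) (hQ : HQ h0 Q n0) (hq : 0 < q) (hu : ∀ j, ∀ t < r j, 0 < u j t ∧ u j t ≤ v j t)
    (hc : ∀ j, Dens (r j) (u j) (v j) (l j) (c j)) (i s : ℕ) :
    Sm (bs h0 Q n0 i) (fun X e => gF Q q w r u v l s X e - c 0 * c 1 / (q : ℝ) ^ 2) := by
  refine Tendsto.congr' ?_ (gF_mean0 B hQ hq hu hc (i + s) (w := w))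
  filter_upwards [ev_sqrt h0] with X hX
  congr 1
  rw [← sum_up hQ i s (by linarith [hX.1]) hX.2]
  refine sum_congr rfl fun e _ => ?_
  rw [gF_up, add_zero]

theorem gF_mean2 (B : BS) (hQ : HQ h0 Q n0) (hq : 0 < q) (hu : ∀ j, ∀ t < r j, 0 < u j t ∧ u j t ≤ v j t)
    (hc : ∀ j, Dens (r j) (u j) (v j) (l j) (c j)) (i s t : ℕ) (hst : s < t)
    (hs : (t - s).primeFactors ⊆ Q.primeFactors) :
    Sm (bs h0 Q n0 i) (fun X e => gF Q q w r u v l s X e * gF Q q w r u v l t X e - (c 0 * c 1 / (q : ℝ) ^ 2) ^ 2) := by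
  refine Tendsto.congr' ?_ (gF_mean00 B hQ hq hu hc (i + s) (t - s) (by omega) hs (w := w))
  filter_upwards [ev_sqrt h0] with X hX
  congr 1
  rw [← sum_up hQ i s (by linarith [hX.1]) hX.2]
  refine sum_congr rfl fun e _ => ?_
  rw [gF_up, gF_up, add_zero, Nat.add_sub_cancel' hst.le]

/-- the exact variance, windows -/
theorem var_F (B : BS) (hQ : HQ h0 Q n0) (hq : 0 < q) (hu : ∀ j, ∀ t < r j, 0 < u j t ∧ u j t ≤ v j t)
    (hc : ∀ j, Dens (r j) (u j) (v j) (l j) (c j)) (i K : ℕ)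
    (hK : ∀ d, 0 < d → d < K → d.primeFactors ⊆ Q.primeFactors) :
    Sm (bs h0 Q n0 i) (fun X e => (∑ s ∈ range K, gF Q q w r u v l s X e - K * (c 0 * c 1 / (q : ℝ) ^ 2)) ^ 2 -
      K * (c 0 * c 1 / (q : ℝ) ^ 2 - (c 0 * c 1 / (q : ℝ) ^ 2) ^ 2)) := by
  refine var_gen K (fun s X e => gF Q q w r u v l s X e) _ _ (fun s _ => gF_mean B hQ hq hu hc i s) (fun s _ => ?_)
    (fun s t hst ht => gF_mean2 B hQ hq hu hc i s t hst (hK (t - s) (by omega) (by omega)))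
  simp only [gF_sq]
  exact gF_mean B hQ hq hu hc i s

end

/-- the exact variance, parity -/
theorem var_x (B : BS) {h0 Q n0 : ℕ} (hQ : HQ h0 Q n0) (i K : ℕ)
    (hK : ∀ d, 0 < d → d < K → d.primeFactors ⊆ Q.primeFactors) :
    Sm (bs h0 Q n0 i) (fun _ e => (∑ s ∈ range K, (xs h0 Q s e : ℝ)) ^ 2 - K) := by
  have h1 := var_gen (F := bs h0 Q n0 i) K (fun s _ e => (xs h0 Q s e : ℝ)) 0 1 (fun s _ => by
      simp only [sub_zero]
      exact mean_x B hQ i s) (fun s _ => by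
      refine (Sm.zero _).congr (Eventually.of_forall fun X e _ => ?_)
      have : (xs h0 Q s e : ℝ) = 1 ∨ (xs h0 Q s e : ℝ) = -1 := by
        rcases chi_or h0 (e.b * e.c + s * (e.a * e.b * Q)) with h | h
        · left
          unfold xs
          rw [h]
          norm_num
        · right
          unfold xs
          rw [h]
          norm_num
      rcases this with h | h <;> rw [h] <;> norm_num) (fun s t hst ht => by
      have := mean_xx B hQ i s t hst (hK (t - s) (by omega) (by omega))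
      refine Sm.congr this (Eventually.of_forall fun X e _ => ?_)
      ring)
  refine h1.congr (Eventually.of_forall fun X e _ => ?_)
  ring

end Pool.Agent.PairFan
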